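import Pool.Agent.H.MP_31a675_nt.G.Defs

/-!
# Rational self-maps of the plane: algebra
-/

namespace Pool.Agent.H.MP_31a675_nt.G

open MvPolynomial

variable {K : Type*} [Field K]

theorem AlgA_itp_succ (F : Fin 3 → MvPolynomial (Fin 3) K) (n : ℕ) (i : Fin 3) :
    itp F (n + 1) i = aeval F (itp F n i) := by
  unfold itp
  rw [Function.iterate_succ_apply']

/-- a linear form vanishing at the multiples of a point -/
theorem AlgA_lin (y : Fin 3 → K) (hy : y ≠ 0) :
    ∃ L : MvPolynomial (Fin 3) K, L.IsHomogeneous 1 ∧ L ≠ 0 ∧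
      ∀ μ : K, eval (fun i => μ * y i) L = 0 := by
  obtain ⟨a, ha⟩ := Function.ne_iff.1 hy
  have ha' : y a ≠ 0 := ha
  obtain ⟨b, hb⟩ : ∃ b : Fin 3, b ≠ a := ⟨a + 1, by fin_cases a <;> decide⟩
  refine ⟨C (y a) * X b - C (y b) * X a, ?_, ?_, fun μ => ?_⟩
  · exact ((isHomogeneous_X K b).C_mul _).sub ((isHomogeneous_X K a).C_mul _)
  · intro h0
    have h1 := congrArg (eval (Pi.single b (1 : K) : Fin 3 → K)) h0
    simp [Pi.single_apply, hb.symm] at h1
    exact ha' h1
  · simp only [map_sub, map_mul, eval_C, eval_X]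
    ring

/-- a product of linear forms vanishing at the multiples of finitely many points -/
theorem AlgA_prod (x : ℕ → Fin 3 → K) (hx : ∀ n, x n ≠ 0) (n : ℕ) :
    ∃ P : MvPolynomial (Fin 3) K, P.IsHomogeneous n ∧ P ≠ 0 ∧
      ∀ j < n, ∀ μ : K, eval (fun i => μ * x j i) P = 0 := by
  choose L hL1 hL2 hL3 using fun j => AlgA_lin (x j) (hx j)
  refine ⟨∏ j ∈ Finset.range n, L j, ?_, Finset.prod_ne_zero_iff.2 fun j _ => hL2 j,
    fun j hj μ => ?_⟩
  · have h := IsHomogeneous.prod (Finset.range n) L (fun _ => 1) fun j _ => hL1 j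
    simpa using h
  · rw [map_prod]
    exact Finset.prod_eq_zero (Finset.mem_range.2 hj) (hL3 j μ)

/-- If the map is not birational then for one of the two pairs of coordinates `X 0, X j` a relation
`X 0 A(F) + X j B(F) = 0` between forms `A`, `B` of the same degree is trivial. Otherwise there are
nontrivial relations for `j = 1` and `j = 2`, with all of `A₁, B₁, A₂, B₂` nonzero by dominance; the
prime `X j` divides `A_j (F)`, so that `A_j (F) = X j C_j` and `B_j (F) = - X 0 C_j`, and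
`G = (B₁ B₂, - A₁ B₂, - A₂ B₁)` satisfies `G(F) = X 0 C₁ C₂ (X 0, X 1, X 2)`. -/
theorem exists_pair (F : Fin 3 → MvPolynomial (Fin 3) K) (hdom : AlgebraicIndependent K F)
    (hbir : ¬ Birational F) :
    ∃ j : Fin 3, j ≠ 0 ∧ ∀ (k : ℕ) (A B : MvPolynomial (Fin 3) K), A.IsHomogeneous k →
      B.IsHomogeneous k → X 0 * aeval F A + X j * aeval F B = 0 → A = 0 ∧ B = 0 := by
  by_contra hcon
  push Not at hcon
  have hinj := algebraicIndependent_iff_injective_aeval.1 hdom
  have hz : ∀ A : MvPolynomial (Fin 3) K, aeval F A = 0 → A = 0 := fun A h =>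
    hinj (by rw [h, map_zero])
  have key : ∀ j : Fin 3, j ≠ 0 → ∃ (k : ℕ) (A B C : MvPolynomial (Fin 3) K),
      A.IsHomogeneous k ∧ B.IsHomogeneous k ∧ C ≠ 0 ∧ aeval F A = X j * C ∧
        aeval F B = -(X 0 * C) := by
    intro j hj
    obtain ⟨k, A, B, hA, hB, h, hne⟩ := hcon j hj
    have hX0 : (X 0 : MvPolynomial (Fin 3) K) ≠ 0 := X_ne_zero 0
    have hXj : (X j : MvPolynomial (Fin 3) K) ≠ 0 := X_ne_zero j
    have hA0 : A ≠ 0 := by
      intro h0
      refine hne h0 (hz B ?_)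
      rw [h0, map_zero, mul_zero, zero_add] at h
      exact (mul_eq_zero.1 h).resolve_left hXj
    have hp : Prime (X j : MvPolynomial (Fin 3) K) := X_prime
    have hdvd : (X j : MvPolynomial (Fin 3) K) ∣ X 0 * aeval F A :=
      ⟨-aeval F B, by linear_combination h⟩
    have hX : ¬ (X j : MvPolynomial (Fin 3) K) ∣ X 0 := by
      rw [X_dvd_X]
      exact hj
    obtain ⟨C', hC⟩ := (hp.dvd_or_dvd hdvd).resolve_left hX
    refine ⟨k, A, B, C', hA, hB, ?_, hC, ?_⟩
    · rintro rfl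
      rw [mul_zero] at hC
      exact hA0 (hz A hC)
    · have h1 : X j * (X 0 * C' + aeval F B) = 0 := by
        rw [hC] at h
        linear_combination h
      have h2 := (mul_eq_zero.1 h1).resolve_left hXj
      linear_combination h2
  obtain ⟨k₁, A₁, B₁, C₁, hA₁, hB₁, hC₁, hA₁', hB₁'⟩ := key 1 (by decide)
  obtain ⟨k₂, A₂, B₂, C₂, hA₂, hB₂, hC₂, hA₂', hB₂'⟩ := key 2 (by decide)
  refine hbir ⟨k₁ + k₂, ![B₁ * B₂, -(A₁ * B₂), -(A₂ * B₁)], X 0 * C₁ * C₂, ?_, ?_, ?_⟩
  · intro i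
    fin_cases i
    · exact hB₁.mul hB₂
    · exact (hA₁.mul hB₂).neg
    · show (-(A₂ * B₁)).IsHomogeneous (k₁ + k₂)
      rw [add_comm]
      exact (hA₂.mul hB₁).neg
  · exact mul_ne_zero (mul_ne_zero (X_ne_zero 0) hC₁) hC₂
  · intro i
    fin_cases i
    · show aeval F (B₁ * B₂) = X 0 * C₁ * C₂ * X 0
      rw [map_mul, hB₁', hB₂']
      ring
    · show aeval F (-(A₁ * B₂)) = X 0 * C₁ * C₂ * X 1
      rw [map_neg, map_mul, hA₁', hB₂']
      ring
    · show aeval F (-(A₂ * B₁)) = X 0 * C₁ * C₂ * X 2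
      rw [map_neg, map_mul, hA₂', hB₁']
      ring

/-- The iterated coordinates are homogeneous of degree `d ^ n`. -/
theorem itp_hom (F : Fin 3 → MvPolynomial (Fin 3) K) (d : ℕ) (hF : ∀ i, (F i).IsHomogeneous d)
    (n : ℕ) (i : Fin 3) : (itp F n i).IsHomogeneous (d ^ n) := by
  induction n with
  | zero =>
    show (X i : MvPolynomial (Fin 3) K).IsHomogeneous (d ^ 0)
    rw [pow_zero]
    exact isHomogeneous_X K i
  | succ n ih =>
    rw [AlgA_itp_succ, pow_succ']
    exact ih.aeval F hF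

theorem AlgA_eval_smul (P : MvPolynomial (Fin 3) K) (k : ℕ) (hP : P.IsHomogeneous k)
    (y : Fin 3 → K) (μ : K) : eval (fun i => μ * y i) P = μ ^ k * eval y P := by
  rw [eval_eq', eval_eq', Finset.mul_sum]
  refine Finset.sum_congr rfl fun m hm => ?_
  have h1 : ∑ i, m i = k := by
    have h2 := hP (mem_support_iff.1 hm)
    rw [Finsupp.weight_apply, Finsupp.sum_fintype _ _ (fun _ => by simp)] at h2
    simpa using h2
  have h3 : ∏ i, (μ * y i) ^ m i = μ ^ k * ∏ i, y i ^ m i := by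
    simp only [mul_pow]
    rw [Finset.prod_mul_distrib, Finset.prod_pow_eq_pow_sum, h1]
  rw [h3]
  ring

theorem AlgA_orb_smul (F : Fin 3 → MvPolynomial (Fin 3) K) (d : ℕ)
    (hF : ∀ i, (F i).IsHomogeneous d) (y : Fin 3 → K) (μ : K) (n : ℕ) :
    ∃ ν : K, orb F (fun i => μ * y i) n = fun i => ν * orb F y n i := by
  refine ⟨μ ^ (d ^ n), ?_⟩
  funext i
  rw [← eval_itp, ← eval_itp]
  exact AlgA_eval_smul _ _ (itp_hom F d hF n i) y μ

/-- If the orbit is dense then its points are pairwise different. Otherwise it is finite, and a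
product of linear forms vanishes on it. -/
theorem dense_inj (F : Fin 3 → MvPolynomial (Fin 3) K) (d : ℕ) (hF : ∀ i, (F i).IsHomogeneous d)
    (x : Fin 3 → K) (h0 : ∀ n, orb F x n ≠ 0) (hx : DensePlane F x) (m n : ℕ) (hmn : m ≠ n) :
    ¬ ∀ a b, orb F x m a * orb F x n b = orb F x m b * orb F x n a := by
  wlog hlt : m < n generalizing m n with H
  · intro h
    refine H n m hmn.symm (by omega) fun a b => ?_
    linear_combination h b a
  intro h
  obtain ⟨a, ha⟩ := Function.ne_iff.1 (h0 m)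
  have ha' : orb F x m a ≠ 0 := ha
  have h1 : orb F x n = fun i => orb F x n a / orb F x m a * orb F x m i := by
    funext i
    have h2 := h a i
    field_simp
    linear_combination h2
  have h3 : ∀ k, m ≤ k → ∃ μ : K, orb F x (k + (n - m)) = fun i => μ * orb F x k i := by
    intro k hk
    obtain ⟨j, rfl⟩ := Nat.exists_eq_add_of_le hk
    obtain ⟨ν, hν⟩ := AlgA_orb_smul F d hF (orb F x m) (orb F x n a / orb F x m a) j
    refine ⟨ν, ?_⟩
    rw [orb_add F x m j, ← hν, ← h1, ← orb_add]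
    congr 1
    omega
  have h4 : ∀ k, ∃ j < n, ∃ μ : K, orb F x k = fun i => μ * orb F x j i := by
    intro k
    induction k using Nat.strong_induction_on with
    | _ k ih =>
      rcases lt_or_ge k n with hk | hk
      · exact ⟨k, hk, 1, by simp⟩
      · obtain ⟨j, hj, μ, hμ⟩ := ih (k - (n - m)) (by omega)
        obtain ⟨ν, hν⟩ := h3 (k - (n - m)) (by omega)
        have e : k - (n - m) + (n - m) = k := by omega
        rw [e] at hν
        refine ⟨j, hj, ν * μ, ?_⟩
        rw [hν, hμ]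
        funext i
        ring
  obtain ⟨P, hP1, hP2, hP3⟩ := AlgA_prod (orb F x) h0 n
  refine hP2 (hx n P hP1 fun k => ?_)
  obtain ⟨j, hj, μ, hμ⟩ := h4 k
  rw [hμ]
  exact hP3 j hj μ

/-- A dense orbit is not contained in a curve from some point on: multiply by linear forms. -/
theorem not_eventually (F : Fin 3 → MvPolynomial (Fin 3) K) (x : Fin 3 → K)
    (h0 : ∀ n, orb F x n ≠ 0) (hx : DensePlane F x) (G : MvPolynomial (Fin 3) K) (hG : G ≠ 0)
    (hGw : ∃ k, G.IsHomogeneous k) (n₀ : ℕ) : ¬ ∀ n, n₀ ≤ n → eval (orb F x n) G = 0 := by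
  intro h
  obtain ⟨k, hk⟩ := hGw
  obtain ⟨P, hP1, hP2, hP3⟩ := AlgA_prod (orb F x) h0 n₀
  refine mul_ne_zero hG hP2 (hx (k + n₀) _ (hk.mul hP1) fun n => ?_)
  rw [map_mul]
  rcases le_or_gt n₀ n with hn | hn
  · rw [h n hn, zero_mul]
  · have h1 := hP3 n hn 1
    simp only [one_mul] at h1
    rw [h1, mul_zero]

end Pool.Agent.H.MP_31a675_nt.G
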