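import Pool.Agent.H.MP_31a675_nt.G.Defs

/-!
# Rational maps over a translation: algebra
-/

namespace Pool.Agent.H.MP_31a675_nt.G

open MvPolynomial

variable {K : Type*} [Field K]

/-- Relatively prime polynomials `F 0`, `F 1` of degree `d ≥ 1` in `(y_0, y_1)` are not zero. -/
theorem ne_zero_of_isRelPrime (F : Fin 2 → MvPolynomial (Fin 3) K) (d : ℕ) (hd : 1 ≤ d)
    (hF : ∀ i, IsWeightedHomogeneous wY (F i) d) (hcop : IsRelPrime (F 0) (F 1)) (i : Fin 2) :
    F i ≠ 0 := by
  have key : ∀ A B : MvPolynomial (Fin 3) K, IsWeightedHomogeneous wY B d → IsRelPrime A B →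
      A ≠ 0 := by
    intro A B hB h h0
    have hu : IsUnit B := h (h0 ▸ dvd_zero B) dvd_rfl
    obtain ⟨r, hr⟩ := MvPolynomial.isUnit_iff_eq_C_of_isReduced.1 hu
    have h1 : IsWeightedHomogeneous wY B 0 := by
      rw [hr.2]
      exact isWeightedHomogeneous_C _ _
    have h2 := hB.inj_right hu.ne_zero h1
    omega
  fin_cases i
  · exact key _ _ (hF 1) hcop
  · exact key _ _ (hF 0) hcop.symm

/-- A dense orbit is not contained in a curve from some point on: multiply by `t - t_i`. -/
theorem not_eventually_line [CharZero K] (F : Fin 2 → MvPolynomial (Fin 3) K) (x : Fin 3 → K)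
    (hx : DenseLine F x) (G : MvPolynomial (Fin 3) K) (hG : G ≠ 0)
    (hGw : ∃ k, IsWeightedHomogeneous wY G k) (n₀ : ℕ) :
    ¬ ∀ n, n₀ ≤ n → eval (orb (skew F) x n) G = 0 := by
  intro h
  obtain ⟨k, hk⟩ := hGw
  have hX : ∀ i : ℕ, IsWeightedHomogeneous wY (X 0 - C (x 0 + i) : MvPolynomial (Fin 3) K) 0 := by
    intro i
    refine IsWeightedHomogeneous.sub ?_ (isWeightedHomogeneous_C _ _)
    exact isWeightedHomogeneous_X K wY 0
  have hX0 : ∀ i : ℕ, (X 0 - C (x 0 + i) : MvPolynomial (Fin 3) K) ≠ 0 := by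
    intro i h0
    have h1 := congrArg (eval (Fin.cons (x 0 + i + 1) (0 : Fin 2 → K) : Fin 3 → K)) h0
    simp at h1
  have hprod : (G * ∏ i ∈ Finset.range n₀, (X 0 - C (x 0 + (i : K))) : MvPolynomial (Fin 3) K)
      ≠ 0 := mul_ne_zero hG (Finset.prod_ne_zero_iff.2 fun i _ => hX0 i)
  refine hprod (hx k _ ?_ fun n => ?_)
  · have h1 : IsWeightedHomogeneous wY
        (∏ i ∈ Finset.range n₀, (X 0 - C (x 0 + (i : K))) : MvPolynomial (Fin 3) K)
        (∑ _i ∈ Finset.range n₀, 0) :=
      IsWeightedHomogeneous.prod _ _ _ fun i _ => hX i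
    have h2 := hk.mul h1
    simpa using h2
  · rw [map_mul]
    rcases le_or_gt n₀ n with hn | hn
    · rw [h n hn, zero_mul]
    · rw [map_prod, Finset.prod_eq_zero (Finset.mem_range.2 hn), mul_zero]
      rw [map_sub, eval_X, eval_C, orb_zero, sub_self]

/-- The total degree of a composition. -/
theorem totalDegree_skew (F : Fin 2 → MvPolynomial (Fin 3) K) (E : ℕ) (hE : 1 ≤ E)
    (hF : ∀ i, (F i).totalDegree ≤ E) (G : MvPolynomial (Fin 3) K) :
    (aeval (skew F) G).totalDegree ≤ E * G.totalDegree := by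
  have hs : ∀ i, (skew F i).totalDegree ≤ E := by
    intro i
    refine Fin.cases ?_ (fun j => ?_) i
    · refine (totalDegree_add _ _).trans ?_
      show max (X 0 : MvPolynomial (Fin 3) K).totalDegree _ ≤ E
      rw [totalDegree_X, totalDegree_one]
      exact max_le hE (Nat.zero_le _)
    · unfold skew
      rw [Fin.cons_succ]
      exact hF j
  rw [aeval_def, eval₂_eq']
  refine totalDegree_finsetSum_le fun m hm => ?_
  have h1 : (∑ i : Fin 3, m i) ≤ G.totalDegree := by
    have := le_totalDegree hm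
    rwa [Finsupp.sum_fintype _ _ (fun _ => rfl)] at this
  calc ((algebraMap K (MvPolynomial (Fin 3) K)) (coeff m G) *
      ∏ i : Fin 3, skew F i ^ m i).totalDegree
      ≤ ((algebraMap K (MvPolynomial (Fin 3) K)) (coeff m G)).totalDegree +
        (∏ i : Fin 3, skew F i ^ m i).totalDegree := totalDegree_mul _ _
    _ ≤ 0 + ∑ i : Fin 3, m i * E := by
        refine Nat.add_le_add ?_ ?_
        · rw [algebraMap_eq, totalDegree_C]
        · refine (totalDegree_finsetProd _ _).trans ?_
          exact Finset.sum_le_sum fun i _ => (totalDegree_pow _ _).trans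
            (Nat.mul_le_mul_left _ (hs i))
    _ = E * ∑ i : Fin 3, m i := by rw [zero_add, ← Finset.sum_mul, mul_comm]
    _ ≤ E * G.totalDegree := Nat.mul_le_mul_left _ h1

end Pool.Agent.H.MP_31a675_nt.G
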