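import Mathlib

/-!
# Dimension counts for ideals generated by two relatively prime polynomials
-/

namespace Pool.Agent.H.MP_31a675_nt.G

open MvPolynomial

variable {K : Type*} [Field K]

/-- The map `(P, Q, w) ↦ P A + Q B + w` from `V₁ × V₂ × W` to `V` has kernel of dimension at most
`finrank V₁₂`. -/
theorem codim {R : Type*} [CommRing R] [Algebra K R] (A B : R) (V₁ V₂ V V₁₂ W : Submodule K R)
    [FiniteDimensional K V₁] [FiniteDimensional K V₂] [FiniteDimensional K V]
    [FiniteDimensional K V₁₂] (hA : ∀ P ∈ V₁, P * A ∈ V) (hB : ∀ Q ∈ V₂, Q * B ∈ V) (hW : W ≤ V)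
    (hker : ∀ P ∈ V₁, ∀ Q ∈ V₂, P * A + Q * B = 0 → ∃ C ∈ V₁₂, P = C * B ∧ Q = -(C * A))
    (hdis : ∀ P ∈ V₁, ∀ Q ∈ V₂, P * A + Q * B ∈ W → P * A + Q * B = 0) :
    Module.finrank K W + Module.finrank K V₁ + Module.finrank K V₂ ≤
      Module.finrank K V + Module.finrank K V₁₂ := by
  classical
  have : FiniteDimensional K W := Submodule.finiteDimensional_of_le hW
  let g : (V₁ × V₂ × W) →ₗ[K] R :=
    (LinearMap.mulRight K A ∘ₗ V₁.subtype ∘ₗ LinearMap.fst K V₁ (V₂ × W)) +
    (LinearMap.mulRight K B ∘ₗ V₂.subtype ∘ₗ LinearMap.fst K V₂ W ∘ₗ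
      LinearMap.snd K V₁ (V₂ × W)) +
    (W.subtype ∘ₗ LinearMap.snd K V₂ W ∘ₗ LinearMap.snd K V₁ (V₂ × W))
  have hg : ∀ x, g x = (x.1 : R) * A + (x.2.1 : R) * B + (x.2.2 : R) := by
    intro x
    simp [g]
  have hgV : ∀ x, g x ∈ V := by
    intro x
    rw [hg]
    exact V.add_mem (V.add_mem (hA _ x.1.2) (hB _ x.2.1.2)) (hW x.2.2.2)
  let f : (V₁ × V₂ × W) →ₗ[K] V := g.codRestrict V hgV
  have hrn := LinearMap.finrank_range_add_finrank_ker f
  have hr : Module.finrank K (LinearMap.range f) ≤ Module.finrank K V := Submodule.finrank_le _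
  let ι : (V₁ × V₂ × W) →ₗ[K] (R × R × R) :=
    V₁.subtype.prodMap (V₂.subtype.prodMap W.subtype)
  have hι : Function.Injective ι := by
    intro x y hxy
    have h1 : (x.1 : R) = y.1 := congrArg Prod.fst hxy
    have h2 : (x.2.1 : R) = y.2.1 := congrArg (fun z => z.2.1) hxy
    have h3 : (x.2.2 : R) = y.2.2 := congrArg (fun z => z.2.2) hxy
    exact Prod.ext (Subtype.ext h1) (Prod.ext (Subtype.ext h2) (Subtype.ext h3))
  let ψ : V₁₂ →ₗ[K] (R × R × R) :=
    ((LinearMap.mulRight K B ∘ₗ V₁₂.subtype).prod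
      ((-(LinearMap.mulRight K A ∘ₗ V₁₂.subtype)).prod 0))
  have hk : Module.finrank K (LinearMap.ker f) ≤ Module.finrank K V₁₂ := by
    rw [(Submodule.equivMapOfInjective ι hι (LinearMap.ker f)).finrank_eq]
    refine le_trans ?_ (LinearMap.finrank_range_le ψ)
    refine Submodule.finrank_mono ?_
    rintro _ ⟨x, hx, rfl⟩
    have hx0 : g x = 0 := by
      have := congrArg Subtype.val (LinearMap.mem_ker.mp hx)
      simpa [f] using this
    rw [hg] at hx0
    have h1 : (x.1 : R) * A + (x.2.1 : R) * B = -(x.2.2 : R) := by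
      linear_combination hx0
    have h2 : (x.1 : R) * A + (x.2.1 : R) * B = 0 := by
      apply hdis _ x.1.2 _ x.2.1.2
      rw [h1]
      exact W.neg_mem x.2.2.2
    have h3 : (x.2.2 : R) = 0 := by
      rw [h2] at h1
      have := h1.symm
      simpa using this
    obtain ⟨C, hC, hP, hQ⟩ := hker _ x.1.2 _ x.2.1.2 h2
    refine ⟨⟨C, hC⟩, ?_⟩
    refine Prod.ext ?_ (Prod.ext ?_ ?_)
    · simp [ψ, ι, hP]
    · simp [ψ, ι, hQ]
    · simp [ψ, ι, h3]
  have hd : Module.finrank K (V₁ × V₂ × W) =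
      Module.finrank K V₁ + (Module.finrank K V₂ + Module.finrank K W) := by
    rw [Module.finrank_prod, Module.finrank_prod]
  omega

variable (K) in
/-- The span of the monomials with exponents in the finite set `s`. -/
noncomputable def VS (s : Finset (Fin 3 →₀ ℕ)) : Submodule K (MvPolynomial (Fin 3) K) :=
  restrictSupport K (s : Set (Fin 3 →₀ ℕ))

theorem mem_VS (s : Finset (Fin 3 →₀ ℕ)) (P : MvPolynomial (Fin 3) K) :
    P ∈ VS K s ↔ P.support ⊆ s := by
  rw [VS, mem_restrictSupport_iff]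
  exact Finset.coe_subset

instance (s : Finset (Fin 3 →₀ ℕ)) : FiniteDimensional K (VS K s) := by
  have : Finite ((s : Set (Fin 3 →₀ ℕ)) : Type _) := s.finite_toSet.to_subtype
  exact Module.Finite.of_basis (basisRestrictSupport K (s : Set (Fin 3 →₀ ℕ)))

theorem finrank_VS (s : Finset (Fin 3 →₀ ℕ)) : Module.finrank K (VS K s) = s.card := by
  classical
  have h := Module.finrank_eq_card_basis (basisRestrictSupport K (s : Set (Fin 3 →₀ ℕ)))
  rw [VS, h]
  simp

/-- The exponents of the monomials of degree `k` in three variables. -/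
theorem exists_hom_finset (k : ℕ) : ∃ s : Finset (Fin 3 →₀ ℕ),
    (∀ m, m ∈ s ↔ m 0 + m 1 + m 2 = k) ∧ 2 * s.card = (k + 1) * (k + 2) := by
  classical
  let t : Finset (Σ _ : ℕ, ℕ × ℕ) := (Finset.range (k + 1)).sigma (fun i => Finset.HasAntidiagonal.antidiagonal i)
  let F : (Σ _ : ℕ, ℕ × ℕ) → (Fin 3 →₀ ℕ) := fun x =>
    Finsupp.equivFunOnFinite.symm ![k - x.1, x.2.1, x.2.2]
  have hF : ∀ x, F x 0 = k - x.1 ∧ F x 1 = x.2.1 ∧ F x 2 = x.2.2 := by
    intro x
    simp [F]
  refine ⟨t.image F, ?_, ?_⟩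
  · intro m
    simp only [Finset.mem_image]
    constructor
    · rintro ⟨x, hx, rfl⟩
      obtain ⟨h0, h1, h2⟩ := hF x
      rw [h0, h1, h2]
      simp only [t, Finset.mem_sigma, Finset.mem_range, Finset.HasAntidiagonal.mem_antidiagonal] at hx
      omega
    · intro h
      refine ⟨⟨m 1 + m 2, (m 1, m 2)⟩, ?_, ?_⟩
      · simp only [t, Finset.mem_sigma, Finset.mem_range, Finset.HasAntidiagonal.mem_antidiagonal]
        exact ⟨by omega, trivial⟩
      · obtain ⟨h0, h1, h2⟩ := hF ⟨m 1 + m 2, (m 1, m 2)⟩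
        ext i
        fin_cases i
        · rw [show ((⟨0, by norm_num⟩ : Fin 3)) = 0 from rfl, h0]
          simp only
          omega
        · exact h1
        · exact h2
  · rw [Finset.card_image_of_injOn]
    · rw [Finset.card_sigma]
      simp only [Finset.Nat.card_antidiagonal]
      have : ∀ k : ℕ, 2 * ∑ i ∈ Finset.range (k + 1), (i + 1) = (k + 1) * (k + 2) := by
        intro k
        induction k with
        | zero => simp
        | succ k ih => rw [Finset.sum_range_succ, mul_add, ih]; ring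
      exact this k
    · intro x hx y hy hxy
      obtain ⟨h0, h1, h2⟩ := hF x
      obtain ⟨h0', h1', h2'⟩ := hF y
      have e1 : x.2.1 = y.2.1 := by rw [← h1, ← h1', hxy]
      have e2 : x.2.2 = y.2.2 := by rw [← h2, ← h2', hxy]
      simp only [t, Finset.coe_sigma, Set.mem_sigma_iff, Finset.mem_coe, Finset.mem_range,
        Finset.HasAntidiagonal.mem_antidiagonal] at hx hy
      obtain ⟨a, b, c⟩ := x
      obtain ⟨a', b', c'⟩ := y
      simp only at e1 e2 hx hy
      subst e1 e2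
      have : a = a' := by omega
      subst this
      rfl

/-- The exponents of the monomials of degree at most `e` in `X 0` and degree `k` in `(X 1, X 2)`. -/
theorem exists_bihom_finset (e k : ℕ) : ∃ s : Finset (Fin 3 →₀ ℕ),
    (∀ m, m ∈ s ↔ m 0 ≤ e ∧ m 1 + m 2 = k) ∧ s.card = (e + 1) * (k + 1) := by
  classical
  let t : Finset (ℕ × (ℕ × ℕ)) := (Finset.range (e + 1)) ×ˢ (Finset.HasAntidiagonal.antidiagonal k)
  let F : (ℕ × (ℕ × ℕ)) → (Fin 3 →₀ ℕ) := fun x =>
    Finsupp.equivFunOnFinite.symm ![x.1, x.2.1, x.2.2]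
  have hF : ∀ x, F x 0 = x.1 ∧ F x 1 = x.2.1 ∧ F x 2 = x.2.2 := by
    intro x
    simp [F]
  refine ⟨t.image F, ?_, ?_⟩
  · intro m
    simp only [Finset.mem_image]
    constructor
    · rintro ⟨x, hx, rfl⟩
      obtain ⟨h0, h1, h2⟩ := hF x
      rw [h0, h1, h2]
      simp only [t, Finset.mem_product, Finset.mem_range, Finset.HasAntidiagonal.mem_antidiagonal] at hx
      omega
    · intro h
      refine ⟨(m 0, (m 1, m 2)), ?_, ?_⟩
      · simp only [t, Finset.mem_product, Finset.mem_range, Finset.HasAntidiagonal.mem_antidiagonal]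
        omega
      · obtain ⟨h0, h1, h2⟩ := hF (m 0, (m 1, m 2))
        ext i
        fin_cases i
        · exact h0
        · exact h1
        · exact h2
  · rw [Finset.card_image_of_injective]
    · rw [Finset.card_product, Finset.card_range, Finset.Nat.card_antidiagonal]
    · intro x y hxy
      obtain ⟨h0, h1, h2⟩ := hF x
      obtain ⟨h0', h1', h2'⟩ := hF y
      refine Prod.ext ?_ (Prod.ext ?_ ?_)
      · rw [← h0, ← h0', hxy]
      · rw [← h1, ← h1', hxy]
      · rw [← h2, ← h2', hxy]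

end Pool.Agent.H.MP_31a675_nt.G
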