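import Pool.Agent.H.MP_31a675_nt.G.Hfac
import Pool.Agent.H.MP_31a675_nt.G.Codim

/-!
# The number of common zeros of two relatively prime forms in three variables
-/

namespace Pool.Agent.H.MP_31a675_nt.G

open MvPolynomial

variable {K : Type*} [Field K]

/-- For points of the projective plane, pairwise different, and `k` at least the number of the
points, there are forms of degree `k` which vanish at all points but one: products of linear
forms. -/
theorem dual_forms {ι : Type*} [DecidableEq ι] (S : Finset ι) (x : ι → Fin 3 → K)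
    (h0 : ∀ i ∈ S, x i ≠ 0)
    (h : ∀ i ∈ S, ∀ j ∈ S, i ≠ j → ¬ ∀ a b, x i a * x j b = x i b * x j a) (k : ℕ)
    (hk : S.card ≤ k) :
    ∃ W : ι → MvPolynomial (Fin 3) K, (∀ i ∈ S, (W i).IsHomogeneous k) ∧
      ∀ i ∈ S, ∀ j ∈ S, (eval (x j) (W i) = 0 ↔ i ≠ j) := by
  have hlin : ∀ i ∈ S, ∀ j ∈ S, i ≠ j → ∃ L : MvPolynomial (Fin 3) K, L.IsHomogeneous 1 ∧
      eval (x j) L = 0 ∧ eval (x i) L ≠ 0 := by
    intro i hi j hj hij
    have h1 := h i hi j hj hij
    push Not at h1
    obtain ⟨a, b, hab⟩ := h1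
    refine ⟨C (x j b) * X a - C (x j a) * X b, ?_, ?_, ?_⟩
    · exact ((isHomogeneous_X K a).C_mul _).sub ((isHomogeneous_X K b).C_mul _)
    · simp only [map_sub, map_mul, eval_C, eval_X]
      ring
    · simp only [map_sub, map_mul, eval_C, eval_X]
      intro h2
      apply hab
      linear_combination h2
  choose! L hL1 hL2 hL3 using hlin
  have hcoord : ∀ i ∈ S, ∃ c, x i c ≠ 0 := by
    intro i hi
    by_contra h1
    push Not at h1
    exact h0 i hi (funext h1)
  choose! c hc using hcoord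
  refine ⟨fun i => (∏ j ∈ S.erase i, L i j) * X (c i) ^ (k - (S.erase i).card), ?_, ?_⟩
  · intro i hi
    have h1 : (∏ j ∈ S.erase i, L i j).IsHomogeneous (∑ _j ∈ S.erase i, 1) :=
      IsHomogeneous.prod _ _ _ fun j hj =>
        hL1 i hi j (Finset.mem_of_mem_erase hj) (Finset.ne_of_mem_erase hj).symm
    have h2 : (X (c i) ^ (k - (S.erase i).card) : MvPolynomial (Fin 3) K).IsHomogeneous
        (1 * (k - (S.erase i).card)) := (isHomogeneous_X K (c i)).pow _
    have h3 := h1.mul h2
    have h4 : (∑ _j ∈ S.erase i, 1) + 1 * (k - (S.erase i).card) = k := by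
      have h5 : (S.erase i).card ≤ S.card := Finset.card_le_card (Finset.erase_subset i S)
      rw [Finset.sum_const, smul_eq_mul]
      omega
    rwa [h4] at h3
  · intro i hi j hj
    simp only [map_mul, map_prod, map_pow, eval_X]
    constructor
    · rintro h1 rfl
      rcases mul_eq_zero.1 h1 with h2 | h2
      · obtain ⟨l, hl, h3⟩ := Finset.prod_eq_zero_iff.1 h2
        exact hL3 i hi l (Finset.mem_of_mem_erase hl) (Finset.ne_of_mem_erase hl).symm h3
      · exact pow_ne_zero _ (hc i hi) h2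
    · intro hij
      rw [Finset.prod_eq_zero (Finset.mem_erase.2 ⟨fun h1 => hij h1.symm, hj⟩)
        (hL2 i hi j hj hij), zero_mul]

theorem bezP_mem {n : ℕ} {s : Finset (Fin 3 →₀ ℕ)}
    (hs : ∀ m : Fin 3 →₀ ℕ, m ∈ s ↔ m 0 + m 1 + m 2 = n)
    (P : MvPolynomial (Fin 3) K) : P ∈ VS K s ↔ P.IsHomogeneous n := by
  have hw : ∀ m : Fin 3 →₀ ℕ, Finsupp.weight (1 : Fin 3 → ℕ) m = m 0 + m 1 + m 2 := by
    intro m
    rw [Finsupp.weight_apply, Finsupp.sum_fintype _ _ (fun i => by simp)]
    simp [Fin.sum_univ_three]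
  rw [mem_VS]
  constructor
  · intro h m hm
    rw [hw]
    exact (hs m).1 (h (mem_support_iff.2 hm))
  · intro h m hm
    rw [hs, ← hw]
    exact h (mem_support_iff.1 hm)

/-- Bézout's inequality. Use `codim` with `V₁`, `V₂`, `V`, `V₁₂` the forms of degrees `k - a`,
`k - b`, `k`, `k - a - b` (`k` large) and `W` the span of the forms of `dual_forms`; the kernel
condition follows from `IsRelPrime.dvd_of_dvd_mul_right` and `hom_factor`. -/
theorem bezout {ι : Type*} (A B : MvPolynomial (Fin 3) K) (a b : ℕ)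
    (hA : A.IsHomogeneous a) (hB : B.IsHomogeneous b) (hA0 : A ≠ 0) (hB0 : B ≠ 0)
    (h : IsRelPrime A B) (S : Finset ι) (x : ι → Fin 3 → K) (h0 : ∀ i ∈ S, x i ≠ 0)
    (hx : ∀ i ∈ S, ∀ j ∈ S, i ≠ j → ¬ ∀ a b, x i a * x j b = x i b * x j a)
    (hAx : ∀ i ∈ S, eval (x i) A = 0) (hBx : ∀ i ∈ S, eval (x i) B = 0) :
    S.card ≤ a * b := by
  classical
  obtain ⟨W, hW1, hW2⟩ := dual_forms S x h0 hx (S.card + a + b) (by omega)
  obtain ⟨s₁, hs₁, hc₁⟩ := exists_hom_finset (S.card + b)
  obtain ⟨s₂, hs₂, hc₂⟩ := exists_hom_finset (S.card + a)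
  obtain ⟨s, hs, hc⟩ := exists_hom_finset (S.card + a + b)
  obtain ⟨s₁₂, hs₁₂, hc₁₂⟩ := exists_hom_finset S.card
  have hli : LinearIndependent K (fun i : S => W i) := by
    rw [linearIndependent_iff']
    intro t g hg i hi
    have h1 := congrArg (eval (x i)) hg
    rw [map_sum, map_zero, Finset.sum_eq_single_of_mem i hi] at h1
    · rw [smul_eval] at h1
      rcases mul_eq_zero.1 h1 with h2 | h2
      · exact h2
      · exact absurd rfl ((hW2 i i.2 i i.2).1 h2)
    · intro j _ hji
      rw [smul_eval, (hW2 j j.2 i i.2).2 (fun h3 => hji (Subtype.ext h3)), mul_zero]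
  have hfin : Module.finrank K (Submodule.span K (Set.range fun i : S => W i)) = S.card := by
    rw [finrank_span_eq_card hli, Fintype.card_coe]
  have key := codim A B (VS K s₁) (VS K s₂) (VS K s) (VS K s₁₂)
    (Submodule.span K (Set.range fun i : S => W i)) ?_ ?_ ?_ ?_ ?_
  · rw [hfin, finrank_VS, finrank_VS, finrank_VS, finrank_VS] at key
    nlinarith [key, hc₁, hc₂, hc, hc₁₂]
  · intro P hP
    rw [bezP_mem hs]
    have h1 := ((bezP_mem hs₁ P).1 hP).mul hA
    have h2 : S.card + b + a = S.card + a + b := by omega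
    rwa [h2] at h1
  · intro Q hQ
    rw [bezP_mem hs]
    exact ((bezP_mem hs₂ Q).1 hQ).mul hB
  · rw [Submodule.span_le]
    rintro _ ⟨i, rfl⟩
    exact (bezP_mem hs _).2 (hW1 i i.2)
  · intro P hP Q hQ hPQ
    have h1 : A ∣ Q * B := ⟨-P, by linear_combination hPQ⟩
    obtain ⟨D, hD⟩ := h.dvd_of_dvd_mul_right h1
    refine ⟨-D, ?_, ?_, ?_⟩
    · rw [bezP_mem hs₁₂]
      by_cases hD0 : D = 0
      · rw [hD0, neg_zero]
        exact isHomogeneous_zero _ _ _
      · have h2 := (bezP_mem hs₂ Q).1 hQ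
        rw [hD] at h2
        obtain ⟨a', c, hac, h3, h4⟩ := hom_factor (1 : Fin 3 → ℕ) A D _ (mul_ne_zero hA0 hD0) h2
        have h5 : a' = a := IsWeightedHomogeneous.inj_right hA0 h3 hA
        have h6 : c = S.card := by omega
        rw [h6] at h4
        exact IsHomogeneous.neg h4
    · have h2 : A * P = A * (-D * B) := by
        rw [hD] at hPQ
        linear_combination hPQ
      exact mul_left_cancel₀ hA0 h2
    · rw [hD]
      ring
  · intro P _ Q _ hPQ
    rw [Finsupp.mem_span_range_iff_exists_finsupp] at hPQ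
    obtain ⟨g, hg⟩ := hPQ
    have h1 : ∀ i, g i = 0 := by
      intro i
      have h2 := congrArg (eval (x i)) hg
      rw [map_add, map_mul, map_mul, hAx i i.2, hBx i i.2, mul_zero, mul_zero, add_zero,
        Finsupp.sum, map_sum] at h2
      by_contra h3
      rw [Finset.sum_eq_single_of_mem i (Finsupp.mem_support_iff.2 h3)] at h2
      · rw [smul_eval] at h2
        rcases mul_eq_zero.1 h2 with h4 | h4
        · exact h3 h4
        · exact absurd rfl ((hW2 i i.2 i i.2).1 h4)
      · intro j _ hji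
        rw [smul_eval, (hW2 j j.2 i i.2).2 (fun h3 => hji (Subtype.ext h3)), mul_zero]
    have h2 : g = 0 := Finsupp.ext h1
    rw [← hg, h2, Finsupp.sum_zero_index]

end Pool.Agent.H.MP_31a675_nt.G
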