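import Mathlib

/-!
# Clearing denominators of polynomials; houses of values
-/

namespace Pool.Agent.H.MP_31a675_nt.G

open MvPolynomial NumberField

variable {K : Type*} [Field K] [NumberField K]

theorem Clear_den (α : K) : ∃ m : ℕ, m ≠ 0 ∧ IsIntegral ℤ ((m : K) * α) := by
  obtain ⟨y, hy0, hy⟩ := IsAlgebraic.exists_integral_multiple (R := ℤ) (z := α)
    ((IsFractionRing.isAlgebraic_iff ℤ ℚ K).2 (Algebra.IsAlgebraic.isAlgebraic α))
  refine ⟨y.natAbs, Int.natAbs_ne_zero.2 hy0, ?_⟩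
  rw [zsmul_eq_mul] at hy
  rcases Int.natAbs_eq y with h | h
  · rw [h] at hy
    simpa using hy
  · rw [h] at hy
    have h2 := hy.neg
    simpa using h2

/-- A common denominator of the coefficients of finitely many forms. For every coefficient there is
a positive integer multiple which is integral (`exists_integral_multiple` or
`IsIntegralClosure.exists_smul_eq_mul`); take the product. The new polynomials are sums of
monomials over the supports of the old ones; they have the same supports. -/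
theorem clear {r d c : ℕ} (G : ℕ → Fin r → MvPolynomial (Fin r) K)
    (hG : ∀ k i, (G k i).IsHomogeneous d) :
    ∃ (q : ℕ) (G' : ℕ → Fin r → MvPolynomial (Fin r) (𝓞 K)), q ≠ 0 ∧
      (∀ k i, (G' k i).IsHomogeneous d) ∧
      ∀ k ≤ c, ∀ i, map (algebraMap (𝓞 K) K) (G' k i) = C (q : K) * G k i := by
  classical
  choose den hden0 hden using fun α : K => Clear_den α
  obtain ⟨q, hq⟩ : ∃ q : ℕ, q = ∏ k ∈ Finset.range (c + 1), ∏ i : Fin r,
    ∏ m ∈ (G k i).support, den (coeff m (G k i)) := ⟨_, rfl⟩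
  have hq0 : q ≠ 0 := by
    rw [hq]
    refine Finset.prod_ne_zero_iff.2 fun k _ => Finset.prod_ne_zero_iff.2 fun i _ =>
      Finset.prod_ne_zero_iff.2 fun m _ => hden0 _
  have hdvd : ∀ k ≤ c, ∀ i, ∀ m ∈ (G k i).support, den (coeff m (G k i)) ∣ q := by
    intro k hk i m hm
    rw [hq]
    refine Dvd.dvd.trans ?_ (Finset.dvd_prod_of_mem _ (Finset.mem_range.2 (Nat.lt_succ_of_le hk)))
    refine Dvd.dvd.trans ?_ (Finset.dvd_prod_of_mem _ (Finset.mem_univ i))
    exact Finset.dvd_prod_of_mem (fun m => den (coeff m (G k i))) hm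
  have hint : ∀ k ≤ c, ∀ i, ∀ m ∈ (G k i).support, IsIntegral ℤ ((q : K) * coeff m (G k i)) := by
    intro k hk i m hm
    obtain ⟨t, ht⟩ := hdvd k hk i m hm
    rw [ht]
    push_cast
    have h1 := (isIntegral_natCast (R := ℤ) (B := K) t).mul (hden (coeff m (G k i)))
    have e : ((den (coeff m (G k i)) : K) * (t : K)) * coeff m (G k i) =
        (t : K) * ((den (coeff m (G k i)) : K) * coeff m (G k i)) := by ring
    rw [e]
    exact h1
  let lift : K → 𝓞 K := fun α => if h : IsIntegral ℤ α then ⟨α, h⟩ else 0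
  have hlift : ∀ α : K, IsIntegral ℤ α → algebraMap (𝓞 K) K (lift α) = α := by
    intro α h
    simp only [lift, dif_pos h]
    rfl
  refine ⟨q, fun k i => ∑ m ∈ (G k i).support, monomial m (lift ((q : K) * coeff m (G k i))),
    hq0, ?_, ?_⟩
  · intro k i
    refine IsHomogeneous.sum _ _ _ fun m hm => ?_
    refine isHomogeneous_monomial _ ?_
    have h1 := hG k i (mem_support_iff.1 hm)
    rw [← h1]
    simp [Finsupp.weight_apply, Finsupp.sum, Finsupp.degree]
  · intro k hk i
    rw [map_sum]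
    have e : ∀ m ∈ (G k i).support,
        map (algebraMap (𝓞 K) K) (monomial m (lift ((q : K) * coeff m (G k i)))) =
        C (q : K) * monomial m (coeff m (G k i)) := by
      intro m hm
      rw [map_monomial, hlift _ (hint k hk i m hm), C_mul_monomial]
    rw [Finset.sum_congr rfl e, ← Finset.mul_sum]
    congr 1
    exact support_sum_monomial_coeff (G k i)

theorem Clear_eval {r d : ℕ} (g : MvPolynomial (Fin r) (𝓞 K)) (hg : g.IsHomogeneous d)
    (w : Fin r → 𝓞 K) (W : ℝ) (hW : 1 ≤ W) (hw : ∀ i, house ((w i : 𝓞 K) : K) ≤ W) :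
    house ((eval w g : 𝓞 K) : K) ≤
      (∑ m ∈ g.support, house ((coeff m g : 𝓞 K) : K)) * W ^ d := by
  rw [eval_eq']
  have e : ((∑ m ∈ g.support, coeff m g * ∏ i, w i ^ m i : 𝓞 K) : K) =
      ∑ m ∈ g.support, ((coeff m g : 𝓞 K) : K) * ∏ i, ((w i : 𝓞 K) : K) ^ m i := by
    show algebraMap (𝓞 K) K _ = _
    rw [map_sum]
    refine Finset.sum_congr rfl fun m _ => ?_
    rw [map_mul, map_prod]
    simp only [map_pow]
  rw [e, Finset.sum_mul]
  refine (house_sum_le_sum_house _ _).trans (Finset.sum_le_sum fun m hm => ?_)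
  refine (house_mul_le _ _).trans (mul_le_mul_of_nonneg_left ?_ (house_nonneg _))
  have h1 : ∀ s : Finset (Fin r), house (∏ i ∈ s, ((w i : 𝓞 K) : K) ^ m i) ≤ W ^ (∑ i ∈ s, m i) := by
    classical
    intro s
    induction s using Finset.induction_on with
    | empty =>
      have := house_pow_le (1 : K) 0
      simpa using this
    | insert a s ha ih =>
      rw [Finset.prod_insert ha, Finset.sum_insert ha, pow_add]
      refine (house_mul_le _ _).trans (mul_le_mul ?_ ih (house_nonneg _) (by positivity))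
      exact (house_pow_le _ _).trans (pow_le_pow_left₀ (house_nonneg _) (hw a) _)
  refine (h1 Finset.univ).trans (le_of_eq ?_)
  congr 1
  have h2 := hg (mem_support_iff.1 hm)
  rw [← h2]
  simp [Finsupp.weight_apply, Finsupp.sum_fintype]

/-- The house of a value: sum over the monomials (`house_sum_le_sum_house`, `house_mul_le`,
`house_pow_le`). -/
theorem house_value {r d : ℕ} (c : ℕ) (G : ℕ → Fin r → MvPolynomial (Fin r) (𝓞 K))
    (hG : ∀ k i, (G k i).IsHomogeneous d) :
    ∃ C : ℝ, 1 ≤ C ∧ ∀ (n : ℕ) (w : Fin r → 𝓞 K) (W : ℝ), 1 ≤ W →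
      (∀ i, house ((w i : 𝓞 K) : K) ≤ W) → ∀ i,
      house (((∑ k ∈ Finset.range (c + 1), (n : 𝓞 K) ^ k * eval w (G k i) : 𝓞 K) : 𝓞 K) : K) ≤
        C * ((n : ℝ) + 1) ^ c * W ^ d := by
  obtain ⟨S, hS⟩ : ∃ S : ℕ → Fin r → ℝ, S = fun k i =>
    ∑ m ∈ (G k i).support, house ((coeff m (G k i) : 𝓞 K) : K) := ⟨_, rfl⟩
  have hS0 : ∀ k i, 0 ≤ S k i := by
    intro k i
    rw [hS]
    exact Finset.sum_nonneg fun m _ => house_nonneg _
  have hT0 : ∀ i, 0 ≤ ∑ k ∈ Finset.range (c + 1), S k i := fun i =>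
    Finset.sum_nonneg fun k _ => hS0 k i
  refine ⟨1 + ∑ i : Fin r, ∑ k ∈ Finset.range (c + 1), S k i, ?_, ?_⟩
  · have : 0 ≤ ∑ i : Fin r, ∑ k ∈ Finset.range (c + 1), S k i :=
      Finset.sum_nonneg fun i _ => hT0 i
    linarith
  · intro n w W hW hw i
    have e : ((∑ k ∈ Finset.range (c + 1), (n : 𝓞 K) ^ k * eval w (G k i) : 𝓞 K) : K) =
        ∑ k ∈ Finset.range (c + 1), ((n ^ k : ℕ) : K) * ((eval w (G k i) : 𝓞 K) : K) := by
      show algebraMap (𝓞 K) K _ = _
      rw [map_sum]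
      refine Finset.sum_congr rfl fun k _ => ?_
      rw [map_mul, map_pow, map_natCast]
      push_cast
      rfl
    rw [e]
    have hn : (1 : ℝ) ≤ (n : ℝ) + 1 := by
      have : (0 : ℝ) ≤ n := Nat.cast_nonneg n
      linarith
    have h1 : house (∑ k ∈ Finset.range (c + 1), ((n ^ k : ℕ) : K) * ((eval w (G k i) : 𝓞 K) : K)) ≤
        ∑ k ∈ Finset.range (c + 1), ((n : ℝ) + 1) ^ c * (S k i * W ^ d) := by
      refine (house_sum_le_sum_house _ _).trans (Finset.sum_le_sum fun k hk => ?_)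
      rw [house_nat_mul]
      have h2 := Clear_eval (G k i) (hG k i) w W hW hw
      have h3 : ((n ^ k : ℕ) : ℝ) ≤ ((n : ℝ) + 1) ^ c := by
        push_cast
        have h4 : (n : ℝ) ^ k ≤ ((n : ℝ) + 1) ^ k :=
          pow_le_pow_left₀ (Nat.cast_nonneg n) (by linarith) k
        exact h4.trans (pow_le_pow_right₀ hn (Nat.lt_succ_iff.1 (Finset.mem_range.1 hk)))
      refine mul_le_mul h3 ?_ (house_nonneg _) (by positivity)
      rw [hS]
      exact h2
    refine h1.trans ?_
    rw [← Finset.mul_sum, ← Finset.sum_mul]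
    have h5 : ∑ k ∈ Finset.range (c + 1), S k i ≤
        1 + ∑ i : Fin r, ∑ k ∈ Finset.range (c + 1), S k i := by
      have := Finset.single_le_sum (f := fun i => ∑ k ∈ Finset.range (c + 1), S k i)
        (fun i _ => hT0 i) (Finset.mem_univ i)
      linarith
    have h6 : 0 ≤ ((n : ℝ) + 1) ^ c * W ^ d := by positivity
    calc ((n : ℝ) + 1) ^ c * ((∑ k ∈ Finset.range (c + 1), S k i) * W ^ d)
        = (∑ k ∈ Finset.range (c + 1), S k i) * (((n : ℝ) + 1) ^ c * W ^ d) := by ring
      _ ≤ (1 + ∑ i : Fin r, ∑ k ∈ Finset.range (c + 1), S k i) * (((n : ℝ) + 1) ^ c * W ^ d) :=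
          mul_le_mul_of_nonneg_right h5 h6
      _ = _ := by ring

end Pool.Agent.H.MP_31a675_nt.G
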