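import Pool.Agent.H.MP_31a675_nt.Orbit

/-!
# Rational self-maps of the plane and of the product of a line and a projective line: definitions
-/

namespace Pool.Agent.H.MP_31a675_nt.G

open MvPolynomial

variable {K : Type*} [Field K]

/-- The forms `F i` of the same degree define a birational self-map of the projective plane: there
are forms `G i` of the same degree with `G (F) = H (X 0, X 1, X 2)` and `H ≠ 0`. -/
def Birational (F : Fin 3 → MvPolynomial (Fin 3) K) : Prop :=
  ∃ (e : ℕ) (G : Fin 3 → MvPolynomial (Fin 3) K) (H : MvPolynomial (Fin 3) K),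
    (∀ i, (G i).IsHomogeneous e) ∧ H ≠ 0 ∧ ∀ i, aeval F (G i) = H * X i

/-- The orbit of the point `x` of the projective plane is Zariski dense: only the zero form
vanishes on it. -/
def DensePlane (F : Fin 3 → MvPolynomial (Fin 3) K) (x : Fin 3 → K) : Prop :=
  ∀ (k : ℕ) (P : MvPolynomial (Fin 3) K), P.IsHomogeneous k → (∀ n, eval (orb F x n) P = 0) → P = 0

/-- The weights of the variables `t, y_0, y_1`: a polynomial is weighted homogeneous of degree `k`
if it is homogeneous of degree `k` in `(y_0, y_1)`. -/
def wY : Fin 3 → ℕ := ![0, 1, 1]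

/-- The orbit of `(t, [y_0 : y_1])` under `(t, [y]) ↦ (t + 1, [F (t, y)])` is Zariski dense in the
product of the affine line and the projective line: only the zero polynomial among the polynomials
in `t, y_0, y_1` which are homogeneous in `(y_0, y_1)` vanishes on it. -/
def DenseLine (F : Fin 2 → MvPolynomial (Fin 3) K) (x : Fin 3 → K) : Prop :=
  ∀ (k : ℕ) (P : MvPolynomial (Fin 3) K), IsWeightedHomogeneous wY P k →
    (∀ n, eval (orb (skew F) x n) P = 0) → P = 0

/-- The height of the point `([1 : t], [y_0 : y_1])`, `x = (t, y_0, y_1)`, relative to `K`. -/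
noncomputable def htLine [NumberField K] (x : Fin 3 → K) : ℝ :=
  Height.logHeight₁ (x 0) + Height.logHeight (Fin.tail x)

/-- The degree of the `n`-th iterate of `(t, [y]) ↦ (t + 1, [F (t, y)])`: the least `m` such that
its last two components, after division by a common factor, have total degree at most `m`. -/
noncomputable def degLine (F : Fin 2 → MvPolynomial (Fin 3) K) (n : ℕ) : ℕ :=
  sInf {m | ∃ (c : MvPolynomial (Fin 3) K) (G : Fin 2 → MvPolynomial (Fin 3) K), c ≠ 0 ∧
    ∀ i, itp (skew F) n i.succ = c * G i ∧ (G i).totalDegree ≤ m}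

end Pool.Agent.H.MP_31a675_nt.G
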