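import Pool.Agent.H.MP_31a675_nt.G.PP

/-!
# Trivial relations between the coordinates over a skew product
-/

namespace Pool.Agent.H.MP_31a675_nt.G

open MvPolynomial

variable {K : Type*} [Field K]

theorem nrb_skew0 (F : Fin 2 → MvPolynomial (Fin 3) K) : skew F 0 = X 0 + 1 := by
  unfold skew
  rw [Fin.cons_zero]

theorem nrb_skew1 (F : Fin 2 → MvPolynomial (Fin 3) K) : skew F 1 = F 0 := by
  unfold skew
  rw [show (1 : Fin 3) = Fin.succ 0 from rfl, Fin.cons_succ]

theorem nrb_skew2 (F : Fin 2 → MvPolynomial (Fin 3) K) : skew F 2 = F 1 := by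
  unfold skew
  rw [show (2 : Fin 3) = Fin.succ 1 from rfl, Fin.cons_succ]

/-- The substitution `skew F` multiplies the degree in `(y_0, y_1)` by `d`. -/
theorem skew_hom (F : Fin 2 → MvPolynomial (Fin 3) K) (d : ℕ)
    (hF : ∀ i, IsWeightedHomogeneous wY (F i) d) (A : MvPolynomial (Fin 3) K) (k : ℕ)
    (hA : IsWeightedHomogeneous wY A k) : IsWeightedHomogeneous wY (aeval (skew F) A) (k * d) := by
  rw [aeval_def, eval₂_eq']
  apply IsWeightedHomogeneous.sum
  intro m hm
  rw [algebraMap_eq]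
  apply IsWeightedHomogeneous.C_mul
  rw [Fin.prod_univ_three, nrb_skew0, nrb_skew1, nrb_skew2]
  have h0 : IsWeightedHomogeneous wY (X 0 + 1 : MvPolynomial (Fin 3) K) 0 :=
    (isWeightedHomogeneous_X K wY 0).add (isWeightedHomogeneous_one K wY)
  have h1 := ((h0.pow (m 0)).mul ((hF 0).pow (m 1))).mul ((hF 1).pow (m 2))
  have h2 := hA (mem_support_iff.1 hm)
  rw [syl_weight] at h2
  have h3 : m 0 • 0 + m 1 • d + m 2 • d = k * d := by
    rw [← h2]
    simp only [smul_eq_mul]
    ring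
  rw [h3] at h1
  exact h1

/-- `A = a (t) y_0 ^ k + y_1 A'`. -/
theorem nrb_split (k : ℕ) (A : MvPolynomial (Fin 3) K) (hA : IsWeightedHomogeneous wY A k) :
    ∃ (a : Polynomial K) (A' : MvPolynomial (Fin 3) K),
      A = Polynomial.aeval (X 0) a * X 1 ^ k + X 2 * A' ∧
      IsWeightedHomogeneous wY A' (k - 1) ∧ (k = 0 → A' = 0) := by
  induction hA using IsWeightedHomogeneous.induction_on with
  | zero =>
    refine ⟨0, 0, ?_, isWeightedHomogeneous_zero K wY _, fun _ => rfl⟩
    rw [map_zero, zero_mul, mul_zero, add_zero]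
  | add p q hp hq h1 h2 =>
    obtain ⟨a, A', h3, h4, h5⟩ := h1
    obtain ⟨b, B', h6, h7, h8⟩ := h2
    refine ⟨a + b, A' + B', ?_, h4.add h7, fun h => ?_⟩
    · rw [map_add]
      linear_combination h3 + h6
    · rw [h5 h, h8 h, add_zero]
  | monomial m r hm =>
    rw [syl_weight] at hm
    rcases Nat.eq_zero_or_pos (m 2) with h2 | h2
    · refine ⟨Polynomial.C r * Polynomial.X ^ (m 0), 0, ?_, isWeightedHomogeneous_zero K wY _,
        fun _ => rfl⟩
      rw [mul_zero, add_zero, map_mul, map_pow, Polynomial.aeval_X, Polynomial.aeval_C,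
        monomial_eq, algebraMap_eq, Finsupp.prod_fintype _ _ (by simp), Fin.prod_univ_three, h2,
        pow_zero, mul_one, mul_assoc]
      rw [h2, add_zero] at hm
      rw [hm]
    · have h3 : Finsupp.single 2 1 + (m - Finsupp.single 2 1) = m := by
        refine add_tsub_cancel_of_le ?_
        rw [Finsupp.single_le_iff]
        exact h2
      refine ⟨0, monomial (m - Finsupp.single 2 1) r, ?_, ?_, fun h => ?_⟩
      · rw [map_zero, zero_mul, zero_add, X, monomial_mul, one_mul, h3]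
      · refine isWeightedHomogeneous_monomial _ _ _ ?_
        rw [syl_weight]
        simp
        omega
      · omega

theorem nrb_shift (F : Fin 2 → MvPolynomial (Fin 3) K) (p : Polynomial K) :
    aeval (skew F) (Polynomial.aeval (X 0 : MvPolynomial (Fin 3) K) p) =
      Polynomial.aeval (X 0) (p.comp (Polynomial.X + Polynomial.C 1)) := by
  rw [← Polynomial.aeval_algHom_apply, aeval_X, Polynomial.aeval_comp, map_add,
    Polynomial.aeval_X, Polynomial.aeval_C, map_one]
  congr 1

/-- The substitution `skew F` is injective on polynomials which are homogeneous in `(y_0, y_1)`.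
Induction on the degree `k`. For `k = 0`, `A = a (t)` and `a (t + 1) = 0`. For `k ≥ 1`, write
`A = a (t) y_0 ^ k + y_1 A'`: then `F 1` divides `a (t + 1) (F 0) ^ k`, hence `a (t + 1)`; as `F 1` has
positive degree in `(y_0, y_1)`, `a = 0`; then `F 1` times the image of `A'` is zero. -/
theorem skew_inj (F : Fin 2 → MvPolynomial (Fin 3) K) (d : ℕ) (hd : 1 ≤ d)
    (hF : ∀ i, IsWeightedHomogeneous wY (F i) d) (hF0 : ∀ i, F i ≠ 0)
    (hcop : IsRelPrime (F 0) (F 1)) (A : MvPolynomial (Fin 3) K)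
    (k : ℕ) (hA : IsWeightedHomogeneous wY A k) (h : aeval (skew F) A = 0) : A = 0 := by
  induction k generalizing A with
  | zero =>
    obtain ⟨a, A', h1, h2, h3⟩ := nrb_split 0 A hA
    rw [h3 rfl, mul_zero, add_zero, pow_zero, mul_one] at h1
    rw [h1, nrb_shift] at h
    have h4 : a = 0 := by
      by_contra h5
      exact pp_ne_zero _ ((Polynomial.comp_X_add_C_ne_zero_iff).2 h5) h
    rw [h1, h4, map_zero]
  | succ k ih =>
    obtain ⟨a, A', h1, h2, h3⟩ := nrb_split (k + 1) A hA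
    have h4 := h
    rw [h1, map_add, map_mul, map_mul, map_pow, aeval_X, aeval_X, nrb_skew1, nrb_skew2,
      nrb_shift] at h4
    have h5 : F 1 ∣ Polynomial.aeval (X 0 : MvPolynomial (Fin 3) K)
        (a.comp (Polynomial.X + Polynomial.C 1)) * F 0 ^ (k + 1) := by
      refine ⟨- aeval (skew F) A', ?_⟩
      linear_combination h4
    have h6 : F 1 ∣ Polynomial.aeval (X 0 : MvPolynomial (Fin 3) K)
        (a.comp (Polynomial.X + Polynomial.C 1)) :=
      IsRelPrime.dvd_of_dvd_mul_right (hcop.symm.pow_right) h5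
    have h7 : a = 0 := by
      by_contra h8
      have h9 := pp_ne_zero _ ((Polynomial.comp_X_add_C_ne_zero_iff).2 h8 : a.comp (Polynomial.X + Polynomial.C 1) ≠ 0)
      obtain ⟨V, hV⟩ := h6
      have h10 := syl_hom_aeval (a.comp (Polynomial.X + Polynomial.C 1))
      rw [hV] at h9 h10
      obtain ⟨u, v, huv, hu, hv⟩ := hom_factor wY (F 1) V 0 h9 h10
      have h11 := IsWeightedHomogeneous.inj_right (hF0 1) hu (hF 1)
      omega
    rw [h7] at h1 h4
    rw [map_zero, zero_mul, zero_add] at h1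
    rw [Polynomial.zero_comp, map_zero, zero_mul, zero_add] at h4
    rcases mul_eq_zero.1 h4 with h12 | h12
    · exact absurd h12 (hF0 1)
    · rw [h1, ih A' h2 h12, mul_zero]

theorem nrb_X1 : IsWeightedHomogeneous wY (X 1 : MvPolynomial (Fin 3) K) 1 :=
  isWeightedHomogeneous_X K wY 1

theorem nrb_X2 : IsWeightedHomogeneous wY (X 2 : MvPolynomial (Fin 3) K) 1 :=
  isWeightedHomogeneous_X K wY 2

/-- The relations `y_0 A(t + 1, F) + y_1 B(t + 1, F) = 0` are trivial. If not, both `A`, `B` are not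
zero (`skew_inj`); divide by their greatest common factor (`exists_reduced_factors`, `hom_factor`).
Then the images have the common factor `U` with `A(t + 1, F) = y_1 U`, `B(t + 1, F) = - y_0 U`, of
degree zero in `(y_0, y_1)` by `pp_comp`, `pp_factor`; so `k d = 1`, a contradiction. -/
theorem nr_line (F : Fin 2 → MvPolynomial (Fin 3) K) (d : ℕ) (hd : 2 ≤ d)
    (hF : ∀ i, IsWeightedHomogeneous wY (F i) d) (hF0 : ∀ i, F i ≠ 0)
    (hcop : IsRelPrime (F 0) (F 1)) (k : ℕ)
    (A B : MvPolynomial (Fin 3) K) (hA : IsWeightedHomogeneous wY A k)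
    (hB : IsWeightedHomogeneous wY B k)
    (h : X 1 * aeval (skew F) A + X 2 * aeval (skew F) B = 0) : A = 0 ∧ B = 0 := by
  have hinj : ∀ (P : MvPolynomial (Fin 3) K) (j : ℕ), IsWeightedHomogeneous wY P j →
      aeval (skew F) P = 0 → P = 0 := fun P j hP hP0 =>
    skew_inj F d (by omega) hF hF0 hcop P j hP hP0
  by_cases hA0 : A = 0
  · refine ⟨hA0, ?_⟩
    rw [hA0, map_zero, mul_zero, zero_add] at h
    rcases mul_eq_zero.1 h with h1 | h1
    · exact absurd h1 (X_ne_zero _)
    · exact hinj B k hB h1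
  by_cases hB0 : B = 0
  · refine ⟨?_, hB0⟩
    rw [hB0, map_zero, mul_zero, add_zero] at h
    rcases mul_eq_zero.1 h with h1 | h1
    · exact absurd h1 (X_ne_zero _)
    · exact hinj A k hA h1
  exfalso
  obtain ⟨A1, B1, C1, hrel, hCA, hCB⟩ := UniqueFactorizationMonoid.exists_reduced_factors A hA0 B
  have hC0 : C1 ≠ 0 := by
    rintro rfl
    exact hA0 (by rw [← hCA, zero_mul])
  have hA10 : A1 ≠ 0 := by
    rintro rfl
    exact hA0 (by rw [← hCA, mul_zero])
  have hB10 : B1 ≠ 0 := by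
    rintro rfl
    exact hB0 (by rw [← hCB, mul_zero])
  obtain ⟨c, a, hca, hc, ha⟩ := hom_factor wY C1 A1 k (mul_ne_zero hC0 hA10) (by rw [hCA]; exact hA)
  obtain ⟨c', b, hcb, hc', hb⟩ := hom_factor wY C1 B1 k (mul_ne_zero hC0 hB10)
    (by rw [hCB]; exact hB)
  have hcc := IsWeightedHomogeneous.inj_right hC0 hc hc'
  have hab : a = b := by omega
  subst hab
  have h1 : X 1 * aeval (skew F) A1 + X 2 * aeval (skew F) B1 = 0 := by
    have h2 : aeval (skew F) C1 * (X 1 * aeval (skew F) A1 + X 2 * aeval (skew F) B1) = 0 := by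
      rw [← hCA, ← hCB, map_mul, map_mul] at h
      linear_combination h
    rcases mul_eq_zero.1 h2 with h3 | h3
    · exact absurd (hinj C1 c hc h3) hC0
    · exact h3
  have h2 : (X 2 : MvPolynomial (Fin 3) K) ∣ X 1 * aeval (skew F) A1 :=
    ⟨- aeval (skew F) B1, by linear_combination h1⟩
  have h3 : (X 2 : MvPolynomial (Fin 3) K) ∣ aeval (skew F) A1 := by
    rcases (X_prime (R := K) (i := (2 : Fin 3))).2.2 _ _ h2 with h4 | h4
    · exfalso
      rw [X_dvd_X] at h4
      exact absurd h4 (by decide)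
    · exact h4
  obtain ⟨U, hU⟩ := h3
  have h4 : aeval (skew F) B1 = U * (- X 1) := by
    have h5 : (X 2 : MvPolynomial (Fin 3) K) * (aeval (skew F) B1 + U * X 1) = 0 := by
      rw [hU] at h1
      linear_combination h1
    rcases mul_eq_zero.1 h5 with h6 | h6
    · exact absurd h6 (X_ne_zero _)
    · linear_combination h6
  have hPF : PP (F 0) (F 1) := pp_of_isRelPrime _ _ ⟨d, hF 0⟩ ⟨d, hF 1⟩ (hF0 0) (hF0 1) hcop
  have hPA : PP A1 B1 := pp_of_isRelPrime _ _ ⟨a, ha⟩ ⟨a, hb⟩ hA10 hB10 hrel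
  have hP := pp_comp F hPF A1 B1 hPA
  have hAs := skew_hom F d hF A1 a ha
  have hAs0 : aeval (skew F) A1 ≠ 0 := fun h5 => hA10 (hinj A1 a ha h5)
  rw [hU] at hAs hAs0
  obtain ⟨x, u, hxu, hx, hu⟩ := hom_factor wY (X 2) U (a * d) hAs0 hAs
  have hx1 := IsWeightedHomogeneous.inj_right (X_ne_zero _) hx nrb_X2
  have hu0 := pp_factor _ _ U hP ⟨X 2, by rw [hU, mul_comm]⟩ ⟨- X 1, h4⟩ u hu
  have h6 : a * d = 1 := by omega
  have h7 := Nat.eq_one_of_mul_eq_one_left h6
  omega

end Pool.Agent.H.MP_31a675_nt.G
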