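import Pool.Agent.H.MP_31a675_nt.DegLim
import Pool.Agent.H.MP_31a675_nt.G.NRB

/-!
# The first dynamical degree
-/

namespace Pool.Agent.H.MP_31a675_nt.G

open MvPolynomial Filter Topology

variable {K : Type*} [Field K]

theorem degB_itp_succ' (F : Fin 2 → MvPolynomial (Fin 3) K) (n : ℕ) (i : Fin 3) :
    itp (skew F) (n + 1) i = aeval (skew F) (itp (skew F) n i) := by
  unfold itp
  rw [Function.iterate_succ_apply']

theorem degB_itp_zero' (F : Fin 2 → MvPolynomial (Fin 3) K) (i : Fin 3) :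
    itp (skew F) 0 i = X i := rfl

/-- The weight of a monomial is its degree in `y`. -/
theorem degB_weight (m : Fin 3 →₀ ℕ) : Finsupp.weight wY m = yd m := by
  rw [Finsupp.weight_apply, Finsupp.sum_fintype _ _ (fun _ => by simp)]
  unfold yd wY
  simp [Fin.sum_univ_succ]

/-- The last components of the iterates are homogeneous of degree `d ^ n` in `(y_0, y_1)`. -/
theorem itp_line_hom (F : Fin 2 → MvPolynomial (Fin 3) K) (d : ℕ)
    (hF : ∀ i, IsWeightedHomogeneous wY (F i) d) (n : ℕ) (i : Fin 2) :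
    IsWeightedHomogeneous wY (itp (skew F) n i.succ) (d ^ n) := by
  induction n with
  | zero =>
    rw [degB_itp_zero', pow_zero]
    have h := isWeightedHomogeneous_X K wY i.succ
    have h1 : wY i.succ = 1 := by
      fin_cases i <;> rfl
    rwa [h1] at h
  | succ n ih =>
    rw [degB_itp_succ', pow_succ]
    exact skew_hom F d hF _ _ ih

/-- The last components of the iterates have no common zeros over the generic fibre: `pp_comp`. -/
theorem itp_pp (F : Fin 2 → MvPolynomial (Fin 3) K) (hF : PP (F 0) (F 1)) (n : ℕ) :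
    PP (itp (skew F) n 1) (itp (skew F) n 2) := by
  induction n with
  | zero =>
    rw [degB_itp_zero', degB_itp_zero']
    refine ⟨1, 1, one_ne_zero, fun j => ?_⟩
    rw [map_one, one_mul, pow_one]
    fin_cases j
    · exact Ideal.subset_span (by simp)
    · exact Ideal.subset_span (by simp)
  | succ n ih =>
    rw [degB_itp_succ', degB_itp_succ']
    exact pp_comp F hF _ _ ih

/-- A pair as in `PP` is not zero. -/
theorem degB_pp_ne (A B : MvPolynomial (Fin 3) K) (h : PP A B) : A ≠ 0 ∨ B ≠ 0 := by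
  by_contra hcon
  push Not at hcon
  obtain ⟨hA, hB⟩ := hcon
  obtain ⟨c, N, hc, h1⟩ := h
  have h2 := h1 0
  rw [hA, hB] at h2
  have h3 : Ideal.span {(0 : MvPolynomial (Fin 3) K), 0} = ⊥ := by
    simp
  rw [h3, Ideal.mem_bot] at h2
  rcases mul_eq_zero.1 h2 with h4 | h4
  · have h5 : Transcendental K (X 0 : MvPolynomial (Fin 3) K) := transcendental_X K 0
    exact hc ((transcendental_iff.1 h5) c h4)
  · exact pow_ne_zero N (X_ne_zero _) h4

/-- The total degree of a weighted homogeneous polynomial. -/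
theorem degB_totalDegree (P : MvPolynomial (Fin 3) K) (k : ℕ) (h : IsWeightedHomogeneous wY P k)
    (h0 : P ≠ 0) : k ≤ P.totalDegree := by
  obtain ⟨m, hm⟩ := ne_zero_iff.1 h0
  have h1 := h hm
  rw [degB_weight] at h1
  have h2 := le_totalDegree (mem_support_iff.2 hm)
  rw [Finsupp.sum_fintype _ _ (fun _ => rfl), Fin.sum_univ_succ] at h2
  unfold yd at h1
  omega

/-- The degree of the `n`-th iterate is at least `d ^ n`: a common factor has degree zero in
`(y_0, y_1)` (`hom_factor`, `pp_factor`). -/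
theorem degLine_ge (F : Fin 2 → MvPolynomial (Fin 3) K) (d : ℕ)
    (hF : ∀ i, IsWeightedHomogeneous wY (F i) d) (hF0 : ∀ i, F i ≠ 0)
    (hcop : IsRelPrime (F 0) (F 1)) (n : ℕ) : d ^ n ≤ degLine F n := by
  have hpp : PP (F 0) (F 1) :=
    pp_of_isRelPrime (F 0) (F 1) ⟨d, hF 0⟩ ⟨d, hF 1⟩ (hF0 0) (hF0 1) hcop
  have hpn := itp_pp F hpp n
  have hne : {m | ∃ (c : MvPolynomial (Fin 3) K) (G : Fin 2 → MvPolynomial (Fin 3) K), c ≠ 0 ∧
    ∀ i, itp (skew F) n i.succ = c * G i ∧ (G i).totalDegree ≤ m}.Nonempty := by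
    refine ⟨degIt (skew F) n, 1, fun i => itp (skew F) n i.succ, one_ne_zero, fun i => ⟨?_, ?_⟩⟩
    · rw [one_mul]
    · exact Finset.le_sup (f := fun i => (itp (skew F) n i).totalDegree) (Finset.mem_univ i.succ)
  obtain ⟨c, G, hc, hG⟩ := Nat.sInf_mem hne
  have key : ∀ i : Fin 2, itp (skew F) n i.succ ≠ 0 → d ^ n ≤ degLine F n := by
    intro i hi
    have h1 := itp_line_hom F d hF n i
    rw [(hG i).1] at h1 hi
    obtain ⟨a, b, hab, ha, hb⟩ := hom_factor wY c (G i) (d ^ n) hi h1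
    have h2 : a = 0 := by
      refine pp_factor _ _ c hpn ?_ ?_ a ha
      · exact ⟨G 0, (hG 0).1⟩
      · exact ⟨G 1, (hG 1).1⟩
    have h3 : b ≤ (G i).totalDegree :=
      degB_totalDegree _ _ hb (right_ne_zero_of_mul hi)
    have h4 : (G i).totalDegree ≤ degLine F n := (hG i).2
    omega
  rcases degB_pp_ne _ _ hpn with h | h
  · exact key 0 h
  · exact key 1 h

/-- It is at most the total degree of the components: `degIt_le`. -/
theorem degLine_le (F : Fin 2 → MvPolynomial (Fin 3) K) (d : ℕ) (hd : 2 ≤ d)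
    (hF : ∀ i, IsWeightedHomogeneous wY (F i) d) :
    ∃ B : ℝ, 0 ≤ B ∧ ∀ n, (degLine F n : ℝ) ≤ B * (d : ℝ) ^ n := by
  have hY : ∀ i, YLe d (F i) := by
    intro i m hm
    have h1 := hF i (mem_support_iff.1 hm)
    rw [degB_weight] at h1
    exact h1.le
  obtain ⟨B, hB0, hB⟩ := degIt_le F d hd hY
  refine ⟨B, hB0, fun n => ?_⟩
  refine le_trans ?_ (hB n)
  have h1 : degLine F n ≤ degIt (skew F) n := by
    refine Nat.sInf_le ⟨1, fun i => itp (skew F) n i.succ, one_ne_zero, fun i => ⟨?_, ?_⟩⟩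
    · rw [one_mul]
    · exact Finset.le_sup (f := fun i => (itp (skew F) n i).totalDegree) (Finset.mem_univ i.succ)
  exact_mod_cast h1

/-- The first dynamical degree is `d`: `root_lim`. -/
theorem degLine_lim (F : Fin 2 → MvPolynomial (Fin 3) K) (d : ℕ) (hd : 2 ≤ d)
    (hF : ∀ i, IsWeightedHomogeneous wY (F i) d) (hF0 : ∀ i, F i ≠ 0)
    (hcop : IsRelPrime (F 0) (F 1)) :
    Tendsto (fun n : ℕ => (degLine F n : ℝ) ^ ((1 : ℝ) / n)) atTop (𝓝 (d : ℝ)) := by
  obtain ⟨B, _, hB⟩ := degLine_le F d hd hF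
  have hge : ∀ n, ((d : ℝ) ^ n) ≤ (degLine F n : ℝ) := by
    intro n
    exact_mod_cast degLine_ge F d hF hF0 hcop n
  have h := root_lim d hd (fun n => (degLine F n : ℝ)) 1 B one_pos 0
    (fun n _ => by rw [one_mul]; exact hge n) hB
  refine h.congr fun n => ?_
  have h1 : (1 : ℝ) ≤ (degLine F n : ℝ) := by
    have hd1 : (1 : ℝ) ≤ (d : ℝ) := by exact_mod_cast (by omega : 1 ≤ d)
    exact (one_le_pow₀ hd1).trans (hge n)
  rw [max_eq_left h1]

end Pool.Agent.H.MP_31a675_nt.G
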