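import Mathlib

/-!
# Factors of weighted homogeneous polynomials
-/

namespace Pool.Agent.H.MP_31a675_nt.G

open MvPolynomial

variable {K : Type*} [Field K] {N : ℕ}

/-- The grading homomorphism `X i ↦ X i * T ^ w i`. -/
noncomputable def hfacTheta (w : Fin N → ℕ) :
    MvPolynomial (Fin N) K →ₐ[K] Polynomial (MvPolynomial (Fin N) K) :=
  aeval (fun i => Polynomial.C (X i) * Polynomial.X ^ w i)

theorem hfacTheta_monomial (w : Fin N → ℕ) (d : Fin N →₀ ℕ) (r : K) :
    hfacTheta w (monomial d r) = Polynomial.monomial (Finsupp.weight w d) (monomial d r) := by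
  rw [hfacTheta, aeval_monomial, ← Polynomial.C_mul_X_pow_eq_monomial]
  have h1 : (d.prod fun i k => (Polynomial.C (X i : MvPolynomial (Fin N) K) *
      Polynomial.X ^ w i) ^ k) =
      Polynomial.C (d.prod fun i k => (X i : MvPolynomial (Fin N) K) ^ k) *
        Polynomial.X ^ (Finsupp.weight w d) := by
    simp only [Finsupp.prod, mul_pow, Finset.prod_mul_distrib, map_prod, map_pow]
    congr 1
    rw [Finsupp.weight_apply, Finsupp.sum, ← Finset.prod_pow_eq_pow_sum]
    refine Finset.prod_congr rfl fun i _ => ?_
    rw [← pow_mul, smul_eq_mul, mul_comm]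
  rw [h1, ← mul_assoc]
  congr 1
  rw [monomial_eq, Polynomial.C_mul]
  rfl

theorem hfacTheta_coeff (w : Fin N → ℕ) (P : MvPolynomial (Fin N) K) (m : ℕ) :
    (hfacTheta w P).coeff m = weightedHomogeneousComponent w m P := by
  induction P using MvPolynomial.induction_on' with
  | monomial d r =>
    rw [hfacTheta_monomial, Polynomial.coeff_monomial]
    split_ifs with h
    · exact ((isWeightedHomogeneous_monomial w d r h).weightedHomogeneousComponent_same).symm
    · exact ((isWeightedHomogeneous_monomial w d r rfl).weightedHomogeneousComponent_ne _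
        (fun hh => h hh.symm)).symm
  | add p q hp hq => rw [map_add, Polynomial.coeff_add, hp, hq, map_add]

theorem hfacTheta_ne (w : Fin N → ℕ) (P : MvPolynomial (Fin N) K) (hP : P ≠ 0) :
    hfacTheta w P ≠ 0 := by
  intro h
  apply hP
  rw [← finsum_weightedHomogeneousComponent w P]
  apply finsum_eq_zero_of_forall_eq_zero
  intro m
  rw [← hfacTheta_coeff, h, Polynomial.coeff_zero]

theorem hfac_hom (w : Fin N → ℕ) (A : MvPolynomial (Fin N) K)
    (h : (hfacTheta w A).natTrailingDegree = (hfacTheta w A).natDegree) :
    IsWeightedHomogeneous w A (hfacTheta w A).natDegree := by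
  have h1 : ∀ m, m ≠ (hfacTheta w A).natDegree → weightedHomogeneousComponent w m A = 0 := by
    intro m hm
    rw [← hfacTheta_coeff]
    rcases lt_or_gt_of_ne hm with h2 | h2
    · exact Polynomial.coeff_eq_zero_of_lt_natTrailingDegree (h ▸ h2)
    · exact Polynomial.coeff_eq_zero_of_natDegree_lt h2
  have h2 : A = weightedHomogeneousComponent w (hfacTheta w A).natDegree A := by
    conv_lhs => rw [← finsum_weightedHomogeneousComponent w A]
    exact finsum_eq_single _ _ h1
  generalize (hfacTheta w A).natDegree = a at *
  rw [h2]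
  exact weightedHomogeneousComponent_isWeightedHomogeneous a A

/-- A factor of a nonzero weighted homogeneous polynomial is weighted homogeneous. Consider the
homomorphism `θ` to the polynomial ring in `T` over `MvPolynomial (Fin N) K` with
`θ (X i) = C (X i) * T ^ w i`: a polynomial `P` is weighted homogeneous of degree `n` if and only if
`θ P = C P * T ^ n`. If `θ A * θ B` is a monomial in `T` then so are `θ A` and `θ B` (compare
`natDegree` and `natTrailingDegree`), and the coefficient is found by `T = 1`. -/
theorem hom_factor (w : Fin N → ℕ) (A B : MvPolynomial (Fin N) K) (n : ℕ) (h0 : A * B ≠ 0)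
    (h : IsWeightedHomogeneous w (A * B) n) :
    ∃ a b, a + b = n ∧ IsWeightedHomogeneous w A a ∧ IsWeightedHomogeneous w B b := by
  classical
  have hA : hfacTheta w A ≠ 0 := hfacTheta_ne w A (left_ne_zero_of_mul h0)
  have hB : hfacTheta w B ≠ 0 := hfacTheta_ne w B (right_ne_zero_of_mul h0)
  have h1 : hfacTheta w A * hfacTheta w B = Polynomial.monomial n (A * B) := by
    rw [← map_mul]
    ext1 m
    rw [hfacTheta_coeff, Polynomial.coeff_monomial]
    split_ifs with hm
    · subst hm
      exact h.weightedHomogeneousComponent_same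
    · exact h.weightedHomogeneousComponent_ne _ (fun hh => hm hh.symm)
  have h2 : (hfacTheta w A).natDegree + (hfacTheta w B).natDegree = n := by
    rw [← Polynomial.natDegree_mul hA hB, h1, Polynomial.natDegree_monomial, if_neg h0]
  have h3 : (hfacTheta w A).natTrailingDegree + (hfacTheta w B).natTrailingDegree = n := by
    rw [← Polynomial.natTrailingDegree_mul hA hB, h1, Polynomial.natTrailingDegree_monomial h0]
  have h4 := Polynomial.natTrailingDegree_le_natDegree (hfacTheta w A)
  have h5 := Polynomial.natTrailingDegree_le_natDegree (hfacTheta w B)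
  exact ⟨_, _, h2, hfac_hom w A (by omega), hfac_hom w B (by omega)⟩

/-- A polynomial of total degree zero which is not zero is a unit. -/
theorem isUnit_of_totalDegree (A : MvPolynomial (Fin N) K) (h0 : A ≠ 0)
    (h : A.totalDegree = 0) : IsUnit A := by
  rw [totalDegree_eq_zero_iff_eq_C] at h
  rw [h] at h0 ⊢
  have h1 : coeff 0 A ≠ 0 := fun hh => h0 (by rw [hh, C_0])
  exact (IsUnit.mk0 _ h1).map C

end Pool.Agent.H.MP_31a675_nt.G
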