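import Pool.Agent.H.MP_31a675_nt.Basic
import Pool.Agent.H.MP_31a675_nt.G.Hfac

/-!
# From a polynomial of small degree vanishing at many points of the orbit to an invariant curve
-/

namespace Pool.Agent.H.MP_31a675_nt.G

open MvPolynomial

variable {K : Type*} [Field K] {N : ℕ}

/-- One step of the orbit. -/
theorem endg_step (φ : Fin N → MvPolynomial (Fin N) K) (x : Fin N → K) (n : ℕ)
    (G : MvPolynomial (Fin N) K) :
    eval (orb φ x (n + 1)) G = eval (orb φ x n) (aeval φ G) := by
  rw [eval_aeval]
  have h : orb φ x (n + 1) = ev φ (orb φ x n) := by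
    unfold orb
    rw [Function.iterate_succ_apply']
  rw [h]

/-- The property which is descended. -/
def EndgP (w : Fin N → ℕ) (φ : Fin N → MvPolynomial (Fin N) K) (x : Fin N → K) (D M T : ℕ)
    (G : MvPolynomial (Fin N) K) : Prop :=
  G ≠ 0 ∧ (∃ k, IsWeightedHomogeneous w G k) ∧ G.totalDegree ≤ D ∧
    ∃ S : Finset ℕ, S.card ≤ (D - G.totalDegree) * M ∧
      ∀ n ≤ T, eval (orb φ x n) G ≠ 0 → ∃ j ≤ D - G.totalDegree, n + j ∈ S ∨ n + j = T + 1

/-- Counting. -/
theorem endg_count (D T c : ℕ) (S : Finset ℕ) (hS : S.card ≤ c) (hT : (D + 1) * (c + 1) ≤ T)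
    (h : ∀ n ≤ T, ∃ j ≤ D, n + j ∈ S ∨ n + j = T + 1) : False := by
  classical
  have h1 : Finset.range (T + 1) ⊆
      (Finset.range (D + 1)).biUnion fun j => (insert (T + 1) S).image fun m => m - j := by
    intro n hn
    rw [Finset.mem_range] at hn
    obtain ⟨j, hj, hm⟩ := h n (by omega)
    rw [Finset.mem_biUnion]
    refine ⟨j, Finset.mem_range.mpr (by omega), ?_⟩
    rw [Finset.mem_image]
    refine ⟨n + j, ?_, by omega⟩
    rw [Finset.mem_insert]
    exact hm.symm
  have h2 := Finset.card_le_card h1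
  have h3 : ((Finset.range (D + 1)).biUnion fun j =>
      (insert (T + 1) S).image fun m => m - j).card ≤ (D + 1) * (c + 1) := by
    refine (Finset.card_biUnion_le).trans ?_
    refine (Finset.sum_le_card_nsmul _ _ (c + 1) ?_).trans ?_
    · intro j _
      refine Finset.card_image_le.trans ?_
      exact (Finset.card_insert_le _ _).trans (by omega)
    · rw [Finset.card_range, smul_eq_mul]
  rw [Finset.card_range] at h2
  omega

/-- `x n` is the orbit, `E` bounds the factor by which the substitution `φ` raises total degrees, and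
two relatively prime weighted homogeneous polynomials vanish simultaneously at at most
`4 (deg A) (deg B)` of the `x n`. If a nonzero weighted homogeneous polynomial of total degree at
most `D` vanishes at all `x n` with `n ≤ T`, and `T` is large, then some nonzero weighted homogeneous
polynomial `G` vanishes at all `x n` with `n ≥ n₀`.

Proof. Let `M = 4 E D ^ 2`. Among the weighted homogeneous `G ≠ 0` of total degree at most `D` for
which there is a finite set `S` with at most `(D - deg G) M` elements such that for every `n ≤ T` with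
`G (x n) ≠ 0` some `n + j` with `j ≤ D - deg G` lies in `S ∪ {T + 1}`, take one of least degree.
Write `G = H A`, `G ∘ φ = H B` with `A`, `B` relatively prime
(`UniqueFactorizationMonoid.exists_reduced_factors`, `hom_factor`). If `A` is not a unit then `H` has
smaller degree and `H` has the property with `S` enlarged by the `n ≤ T` with `A (x n) = B (x n) = 0`
(if `n ≤ T` and `H (x n) ≠ 0` then `G (x n) ≠ 0`, or `n = T`, or `G (x (n + 1)) ≠ 0`, or
`A (x n) = B (x n) = 0`). So `A` is a unit and `G` divides `G ∘ φ`. By counting,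
`G (x n) = 0` for some `n ≤ T`, hence for all larger `n`. -/
theorem endgame (w : Fin N → ℕ) (φ : Fin N → MvPolynomial (Fin N) K) (x : Fin N → K)
    (E : ℕ) (hE : 1 ≤ E)
    (hφ : ∀ G : MvPolynomial (Fin N) K, G ≠ 0 → (∃ k, IsWeightedHomogeneous w G k) →
      aeval φ G ≠ 0 ∧ (∃ k, IsWeightedHomogeneous w (aeval φ G) k) ∧
        (aeval φ G).totalDegree ≤ E * G.totalDegree)
    (hB : ∀ A B : MvPolynomial (Fin N) K, A ≠ 0 → B ≠ 0 → IsRelPrime A B →
      (∃ k, IsWeightedHomogeneous w A k) → (∃ k, IsWeightedHomogeneous w B k) →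
      ∀ S : Finset ℕ, (∀ n ∈ S, eval (orb φ x n) A = 0 ∧ eval (orb φ x n) B = 0) →
        S.card ≤ 4 * (A.totalDegree * B.totalDegree))
    (D T : ℕ) (Φ : MvPolynomial (Fin N) K) (hΦ : Φ ≠ 0) (hΦw : ∃ k, IsWeightedHomogeneous w Φ k)
    (hΦD : Φ.totalDegree ≤ D) (hv : ∀ n ≤ T, eval (orb φ x n) Φ = 0)
    (hT : (D + 1) * (D * (4 * (E * D ^ 2)) + 1) ≤ T) :
    ∃ G : MvPolynomial (Fin N) K, G ≠ 0 ∧ (∃ k, IsWeightedHomogeneous w G k) ∧
      ∃ n₀, ∀ n, n₀ ≤ n → eval (orb φ x n) G = 0 := by
  classical
  set M : ℕ := 4 * (E * D ^ 2) with hM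
  have hex : ∃ d, ∃ G : MvPolynomial (Fin N) K, EndgP w φ x D M T G ∧ G.totalDegree = d := by
    refine ⟨Φ.totalDegree, Φ, ⟨hΦ, hΦw, hΦD, ∅, by simp, ?_⟩, rfl⟩
    intro n hn h
    exact absurd (hv n hn) h
  obtain ⟨G, hG, hGd⟩ := Nat.find_spec hex
  have hmin : ∀ H : MvPolynomial (Fin N) K, EndgP w φ x D M T H →
      G.totalDegree ≤ H.totalDegree := by
    intro H hH
    rw [hGd]
    exact Nat.find_min' hex ⟨H, hH, rfl⟩
  obtain ⟨hG0, ⟨k, hk⟩, hGD, S, hS, hSn⟩ := hG
  obtain ⟨hφ0, ⟨k', hk'⟩, hφd⟩ := hφ G hG0 ⟨k, hk⟩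
  obtain ⟨A, B, H, hrel, hA, hBB⟩ :=
    UniqueFactorizationMonoid.exists_reduced_factors G hG0 (aeval φ G)
  have hHA0 : H * A ≠ 0 := by rw [hA]; exact hG0
  have hHB0 : H * B ≠ 0 := by rw [hBB]; exact hφ0
  have hH0 : H ≠ 0 := left_ne_zero_of_mul hHA0
  have hA0 : A ≠ 0 := right_ne_zero_of_mul hHA0
  have hB0 : B ≠ 0 := right_ne_zero_of_mul hHB0
  obtain ⟨a, b, -, hHw, hAw⟩ := hom_factor w H A k hHA0 (by rw [hA]; exact hk)
  obtain ⟨a', b', -, -, hBw⟩ := hom_factor w H B k' hHB0 (by rw [hBB]; exact hk')
  have hdA : G.totalDegree = H.totalDegree + A.totalDegree := by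
    rw [← hA]
    exact totalDegree_mul_of_isDomain hH0 hA0
  have hdB : (aeval φ G).totalDegree = H.totalDegree + B.totalDegree := by
    rw [← hBB]
    exact totalDegree_mul_of_isDomain hH0 hB0
  have hunit : IsUnit A := by
    by_contra hnu
    have hA1 : 1 ≤ A.totalDegree := by
      by_contra h
      exact hnu (isUnit_of_totalDegree A hA0 (by omega))
    have hHG : H.totalDegree < G.totalDegree := by omega
    have hP : EndgP w φ x D M T H := by
      refine ⟨hH0, ⟨a, hHw⟩, by omega, ?_⟩
      set Z : Finset ℕ := (Finset.range (T + 1)).filter fun n =>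
        eval (orb φ x n) A = 0 ∧ eval (orb φ x n) B = 0 with hZ
      have hZc : Z.card ≤ M := by
        refine (hB A B hA0 hB0 hrel ⟨b, hAw⟩ ⟨b', hBw⟩ Z ?_).trans ?_
        · intro n hn
          exact (Finset.mem_filter.mp hn).2
        · rw [hM]
          refine Nat.mul_le_mul_left 4 ?_
          have h1 : A.totalDegree ≤ D := by omega
          have h2 : B.totalDegree ≤ E * D := by
            have : E * G.totalDegree ≤ E * D := Nat.mul_le_mul_left E hGD
            omega
          calc A.totalDegree * B.totalDegree ≤ D * (E * D) := Nat.mul_le_mul h1 h2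
            _ = E * D ^ 2 := by ring
      refine ⟨S ∪ Z, ?_, ?_⟩
      · refine (Finset.card_union_le _ _).trans ?_
        have h1 : (D - G.totalDegree) * M + M ≤ (D - H.totalDegree) * M := by
          have h2 : (D - G.totalDegree) + 1 ≤ D - H.totalDegree := by omega
          calc (D - G.totalDegree) * M + M = ((D - G.totalDegree) + 1) * M := by ring
            _ ≤ (D - H.totalDegree) * M := Nat.mul_le_mul_right M h2
        omega
      · intro n hn hne
        by_cases hAn : eval (orb φ x n) A = 0
        · by_cases hBn : eval (orb φ x n) B = 0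
          · refine ⟨0, Nat.zero_le _, Or.inl ?_⟩
            rw [Nat.add_zero, Finset.mem_union]
            right
            rw [hZ, Finset.mem_filter]
            exact ⟨Finset.mem_range.mpr (by omega), hAn, hBn⟩
          · rcases Nat.eq_or_lt_of_le hn with hnT | hnT
            · exact ⟨1, by omega, Or.inr (by omega)⟩
            · have hG1 : eval (orb φ x (n + 1)) G ≠ 0 := by
                rw [endg_step, ← hBB, map_mul]
                exact mul_ne_zero hne hBn
              obtain ⟨j, hj, hm⟩ := hSn (n + 1) (by omega) hG1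
              refine ⟨j + 1, by omega, ?_⟩
              have he : n + (j + 1) = n + 1 + j := by ring
              rw [he]
              rcases hm with hm | hm
              · exact Or.inl (Finset.mem_union_left _ hm)
              · exact Or.inr hm
        · have hGn : eval (orb φ x n) G ≠ 0 := by
            rw [← hA, map_mul]
            exact mul_ne_zero hne hAn
          obtain ⟨j, hj, hm⟩ := hSn n hn hGn
          refine ⟨j, by omega, ?_⟩
          rcases hm with hm | hm
          · exact Or.inl (Finset.mem_union_left _ hm)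
          · exact Or.inr hm
    have := hmin H hP
    omega
  -- `G` divides `G ∘ φ`
  have hdvd : G ∣ aeval φ G := by
    have h : H * A ∣ H * B := mul_dvd_mul_left H hunit.dvd
    rwa [hA, hBB] at h
  obtain ⟨C, hC⟩ := hdvd
  have hstep : ∀ n, eval (orb φ x n) G = 0 → eval (orb φ x (n + 1)) G = 0 := by
    intro n hn
    rw [endg_step, hC, map_mul, hn, zero_mul]
  refine ⟨G, hG0, ⟨k, hk⟩, ?_⟩
  have hex2 : ∃ n ≤ T, eval (orb φ x n) G = 0 := by
    by_contra hno
    push Not at hno
    refine endg_count D T (D * M) S ?_ hT ?_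
    · exact hS.trans (Nat.mul_le_mul_right M (Nat.sub_le _ _))
    · intro n hn
      obtain ⟨j, hj, hm⟩ := hSn n hn (hno n hn)
      exact ⟨j, by omega, hm⟩
  obtain ⟨n₀, -, hn₀⟩ := hex2
  refine ⟨n₀, ?_⟩
  intro n hn
  induction n, hn using Nat.le_induction with
  | base => exact hn₀
  | succ m _ ih => exact hstep m ih

end Pool.Agent.H.MP_31a675_nt.G
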