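import Pool.Agent.H.MP_31a675_nt.G.Defs

/-!
# Heights of values of a family of polynomials
-/

namespace Pool.Agent.H.MP_31a675_nt.G

open MvPolynomial Height

variable {K : Type*} [Field K] [NumberField K]

/-- The exponent vector of `t ^ i * y_0 ^ j * y_1 ^ (M - j)`. -/
private noncomputable def htfMon (M E : ℕ) (p : Fin (M + 1) × Fin (E + 1)) : Fin 3 →₀ ℕ :=
  Finsupp.equivFunOnFinite.symm ![(p.2 : ℕ), (p.1 : ℕ), M - (p.1 : ℕ)]

private theorem htfMon_zero (M E : ℕ) (p : Fin (M + 1) × Fin (E + 1)) :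
    htfMon M E p 0 = p.2 := rfl

private theorem htfMon_one (M E : ℕ) (p : Fin (M + 1) × Fin (E + 1)) :
    htfMon M E p 1 = p.1 := rfl

private theorem htfMon_two (M E : ℕ) (p : Fin (M + 1) × Fin (E + 1)) :
    htfMon M E p 2 = M - p.1 := rfl

private theorem htfMon_inj (M E : ℕ) : Function.Injective (htfMon M E) := by
  intro p p' h
  have h0 := congrArg (fun f : Fin 3 →₀ ℕ => f 0) h
  have h1 := congrArg (fun f : Fin 3 →₀ ℕ => f 1) h
  simp only [htfMon_zero, htfMon_one] at h0 h1
  exact Prod.ext (Fin.ext h1) (Fin.ext h0)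

/-- The value of a polynomial which is homogeneous of degree `M` in `y`. -/
private theorem htf_eval (p : MvPolynomial (Fin 3) K) (M E : ℕ)
    (hp : IsWeightedHomogeneous wY p M) (hE : p.totalDegree ≤ E) (t : K) (y : Fin 2 → K) :
    eval (Fin.cons t y) p = ∑ j : Fin (M + 1),
      (∑ i : Fin (E + 1), coeff (htfMon M E (j, i)) p * t ^ (i : ℕ)) *
        (y 0 ^ (j : ℕ) * y 1 ^ (M - (j : ℕ))) := by
  classical
  rw [eval_eq']
  have h1 : ∀ j : Fin (M + 1),
      (∑ i : Fin (E + 1), coeff (htfMon M E (j, i)) p * t ^ (i : ℕ)) *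
        (y 0 ^ (j : ℕ) * y 1 ^ (M - (j : ℕ))) =
      ∑ i : Fin (E + 1), (fun d : Fin 3 →₀ ℕ => coeff d p *
        ∏ i, (Fin.cons t y : Fin 3 → K) i ^ d i) (htfMon M E (j, i)) := by
    intro j
    rw [Finset.sum_mul]
    refine Finset.sum_congr rfl fun i _ => ?_
    show _ = coeff (htfMon M E (j, i)) p *
        ∏ l, (Fin.cons t y : Fin 3 → K) l ^ htfMon M E (j, i) l
    rw [Fin.prod_univ_three, htfMon_zero, htfMon_one, htfMon_two]
    show _ = coeff (htfMon M E (j, i)) p *
        (t ^ (i : ℕ) * y 0 ^ (j : ℕ) * y 1 ^ (M - (j : ℕ)))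
    ring
  rw [Finset.sum_congr rfl fun j _ => h1 j, ← Fintype.sum_prod_type'
    (f := fun j i => (fun d : Fin 3 →₀ ℕ => coeff d p *
        ∏ i, (Fin.cons t y : Fin 3 → K) i ^ d i) (htfMon M E (j, i)))]
  rw [← Finset.sum_image (s := Finset.univ) (g := htfMon M E)
    (f := fun d : Fin 3 →₀ ℕ => coeff d p * ∏ i, (Fin.cons t y : Fin 3 → K) i ^ d i)
    (fun a _ b _ h => htfMon_inj M E h)]
  refine Finset.sum_subset ?_ ?_
  · intro d hd
    rw [mem_support_iff] at hd
    have hw := hp hd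
    have hw' : d 1 + d 2 = M := by
      rw [← hw, Finsupp.weight_apply, Finsupp.sum_fintype _ _ (fun i => by simp),
        Fin.sum_univ_three]
      simp [wY]
    have hd0 : d 0 ≤ E := by
      refine le_trans ?_ hE
      refine le_trans ?_ (le_totalDegree (mem_support_iff.2 hd))
      rw [Finsupp.sum_fintype _ _ (fun i => rfl), Fin.sum_univ_three]
      omega
    rw [Finset.mem_image]
    refine ⟨(⟨d 1, by omega⟩, ⟨d 0, by omega⟩), Finset.mem_univ _, ?_⟩
    ext l
    fin_cases l
    · rfl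
    · rfl
    · show M - d 1 = d 2
      omega
  · intro d _ hd
    rw [notMem_support_iff] at hd
    rw [hd, zero_mul]

/-- The height of the values at `(t, y)` of a family of polynomials homogeneous of degree `M` in `y`.
The values are the product of a matrix, whose entries are polynomials in `t`, and the vector of the
monomials of degree `M` in `y`: `logHeight_linearMap_apply_le`, and `logHeight_eval_le'` for the
monomials and for the entries, made homogeneous of some degree `E` in `(1, t)`. -/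
theorem ht_family {ι : Type} [Fintype ι] [Nonempty ι] (q : ι → MvPolynomial (Fin 3) K) (M : ℕ)
    (hq : ∀ a, IsWeightedHomogeneous wY (q a) M) :
    ∃ C E : ℝ, 0 ≤ C ∧ 0 ≤ E ∧ ∀ (t : K) (y : Fin 2 → K),
      logHeight (fun a => eval (Fin.cons t y) (q a)) ≤ C + E * logHeight₁ t + M * logHeight y := by
  classical
  set E : ℕ := Finset.univ.sup fun a => (q a).totalDegree with hE
  have hEa : ∀ a, (q a).totalDegree ≤ E := fun a =>
    Finset.le_sup (f := fun a => (q a).totalDegree) (Finset.mem_univ a)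
  -- the monomials in `y`
  have hy : ∀ j : Fin (M + 1), (X 0 ^ (j : ℕ) * X 1 ^ (M - (j : ℕ)) :
      MvPolynomial (Fin 2) K).IsHomogeneous M := by
    intro j
    have h := (isHomogeneous_X_pow (R := K) (0 : Fin 2) (j : ℕ)).mul
      (isHomogeneous_X_pow (R := K) (1 : Fin 2) (M - (j : ℕ)))
    have hj : (j : ℕ) + (M - (j : ℕ)) = M := by omega
    rwa [hj] at h
  obtain ⟨C₁, hC₁⟩ := logHeight_eval_le' (K := K) hy
  -- the powers of `t`
  have ht : ∀ j : Fin (E + 1), (X 0 ^ (j : ℕ) * X 1 ^ (E - (j : ℕ)) :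
      MvPolynomial (Fin 2) K).IsHomogeneous E := by
    intro j
    have h := (isHomogeneous_X_pow (R := K) (0 : Fin 2) (j : ℕ)).mul
      (isHomogeneous_X_pow (R := K) (1 : Fin 2) (E - (j : ℕ)))
    have hj : (j : ℕ) + (E - (j : ℕ)) = E := by omega
    rwa [hj] at h
  obtain ⟨C₂, hC₂⟩ := logHeight_eval_le' (K := K) ht
  set B : (ι × Fin (M + 1)) × Fin (E + 1) → K := fun p =>
    coeff (htfMon M E (p.1.2, p.2)) (q p.1.1) with hB
  set C : ℝ := (totalWeight K : ℝ) * Real.log (Nat.card (Fin (M + 1))) +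
    ((totalWeight K : ℝ) * Real.log (Nat.card (Fin (E + 1))) + logHeight B + C₂) + C₁
    with hC
  refine ⟨max C 0, E, le_max_right _ _, Nat.cast_nonneg _, fun t y => ?_⟩
  set A : ι × Fin (M + 1) → K := fun p => ∑ i : Fin (E + 1), B (p, i) * t ^ (i : ℕ) with hA
  have e1 : (fun a => eval (Fin.cons t y) (q a)) =
      fun a => ∑ j : Fin (M + 1), A (a, j) * (y 0 ^ (j : ℕ) * y 1 ^ (M - (j : ℕ))) := by
    funext a
    exact htf_eval (q a) M E (hq a) (hEa a) t y
  have h1 := logHeight_linearMap_apply_le (K := K) A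
    (fun j : Fin (M + 1) => y 0 ^ (j : ℕ) * y 1 ^ (M - (j : ℕ)))
  have h2 := logHeight_linearMap_apply_le (K := K) B (fun i : Fin (E + 1) => t ^ (i : ℕ))
  have h3 := hC₁ y
  have h4 := hC₂ ![t, 1]
  simp only [map_mul, map_pow, eval_X, Matrix.cons_val_zero, Matrix.cons_val_one, one_pow,
    mul_one] at h3 h4
  rw [← logHeight₁_eq_logHeight] at h4
  rw [e1]
  have h5 : C ≤ max C 0 := le_max_left _ _
  rw [hC] at h5
  have h6 : logHeight A = logHeight (fun j => ∑ i, B (j, i) * t ^ (i : ℕ)) := rfl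
  linarith

end Pool.Agent.H.MP_31a675_nt.G
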