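import Pool.Agent.H.MP_31a675_nt.G.Syl
import Pool.Agent.H.MP_31a675_nt.G.HtFam
import Pool.Agent.H.MP_31a675_nt.PolyC

/-!
# The recursion for the heights
-/

namespace Pool.Agent.H.MP_31a675_nt.G

open MvPolynomial Height

variable {K : Type*} [Field K] [NumberField K]

theorem htrec_one_eq (t : K) : ht (one t) = logHeight₁ t := by
  rw [logHeight₁_eq_logHeight, logHeight_swap]
  unfold ht
  congr 1
  funext i
  refine Fin.cases ?_ (fun j => ?_) i
  · rfl
  · have hj : j = 0 := Subsingleton.elim _ _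
    subst hj
    rfl

/-- The values of a family along the orbit. -/
theorem htrec_family {ι : Type} [Fintype ι] [Nonempty ι] (q : ι → MvPolynomial (Fin 3) K) (M : ℕ)
    (hq : ∀ a, IsWeightedHomogeneous wY (q a) M) (t : K) (C₀ : ℝ) (hC₀ : 0 ≤ C₀) :
    ∃ C : ℝ, 0 ≤ C ∧ ∀ (n : ℕ) (y : Fin 2 → K),
      C₀ + logHeight (fun a => eval (Fin.cons (t + n) y) (q a)) ≤
        M * logHeight y + C * Real.log ((n : ℝ) + 2) := by
  obtain ⟨C, E, hC, hE, h⟩ := ht_family q M hq
  obtain ⟨C', hC', h'⟩ := ht_add_nat t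
  have hl2 : 0 < Real.log 2 := Real.log_pos (by norm_num)
  refine ⟨(C₀ + C) / Real.log 2 + E * C', by positivity, fun n y => ?_⟩
  have h1 := h (t + n) y
  have h2 := h' n
  rw [htrec_one_eq] at h2
  have hlog : Real.log 2 ≤ Real.log ((n : ℝ) + 2) :=
    Real.log_le_log (by norm_num) (by linarith [(Nat.cast_nonneg n : (0 : ℝ) ≤ n)])
  have h3 : C₀ + C ≤ (C₀ + C) / Real.log 2 * Real.log ((n : ℝ) + 2) := by
    rw [div_mul_eq_mul_div, le_div_iff₀ hl2]
    exact mul_le_mul_of_nonneg_left hlog (by linarith)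
  have h4 : E * logHeight₁ (t + n) ≤ E * (C' * Real.log ((n : ℝ) + 2)) :=
    mul_le_mul_of_nonneg_left h2 hE
  nlinarith [h1, h3, h4]

/-- The upper bound for the height of the next point: `ht_family` and `ht_add_nat`. -/
theorem upperLine (F : Fin 2 → MvPolynomial (Fin 3) K) (d : ℕ)
    (hF : ∀ i, IsWeightedHomogeneous wY (F i) d) (x : Fin 3 → K) :
    ∃ C : ℝ, 0 ≤ C ∧ ∀ n : ℕ, logHeight (yo F x (n + 1)) ≤
      d * logHeight (yo F x n) + C * Real.log ((n : ℝ) + 2) := by
  obtain ⟨C, hC, h⟩ := htrec_family F d hF (x 0) 0 le_rfl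
  refine ⟨C, hC, fun n => ?_⟩
  have h1 := h n (yo F x n)
  have h2 : yo F x (n + 1) = fun a => eval (Fin.cons (x 0 + n) (yo F x n)) (F a) :=
    funext fun i => yo_succ F x n i
  rw [h2]
  linarith

omit [NumberField K] in
theorem htrec_other (i : Fin 2) (f : Fin 2 → K) : f i * f (i + 1) = f 0 * f 1 := by
  refine Fin.cases rfl (fun j => ?_) i
  have hj : j = 0 := Subsingleton.elim _ _
  subst hj
  exact mul_comm _ _

/-- The lower bound, for the `n` with `c (t + n) ≠ 0` where `c` is the product of the two polynomials of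
`syl` for `j = 0, 1` (with the second factor moved into `P` and `Q`): the vector
`(c (t_n) y_j ^ (2 d))_j` is the product of the matrix with entries `P_j`, `Q_j` at `(t_n, y)` and the
vector `yo F x (n + 1)`, and its height is `2 d` times that of `y` (`logHeight_smul_eq_logHeight`,
`logHeight_pow`). Use `logHeight_linearMap_apply_le` and `ht_family` with `M = d`. -/
theorem lowerLine (F : Fin 2 → MvPolynomial (Fin 3) K) (d : ℕ)
    (hF : ∀ i, IsWeightedHomogeneous wY (F i) d) (hF0 : ∀ i, F i ≠ 0)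
    (hcop : IsRelPrime (F 0) (F 1)) (x : Fin 3 → K) (hx : ∀ n, yo F x n ≠ 0) :
    ∃ (C : ℝ) (n₀ : ℕ), 0 ≤ C ∧ ∀ n : ℕ, n₀ ≤ n →
      d * logHeight (yo F x n) ≤
        logHeight (yo F x (n + 1)) + C * Real.log ((n : ℝ) + 2) := by
  choose c P Q hc _ hP hQ hid using fun j : Fin 2 =>
    syl (F 0) (F 1) d d (hF 0) (hF 1) (hF0 0) (hF0 1) hcop j
  set q : Fin 2 × Fin 2 → MvPolynomial (Fin 3) K := fun a =>
    Polynomial.aeval (X 0) (c (a.1 + 1)) * (![P a.1, Q a.1] : Fin 2 → MvPolynomial (Fin 3) K) a.2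
    with hqdef
  have hq : ∀ a, IsWeightedHomogeneous wY (q a) d := by
    rintro ⟨j, i⟩
    have h0 := syl_hom_aeval (c (j + 1))
    have h1 : IsWeightedHomogeneous wY
        ((![P j, Q j] : Fin 2 → MvPolynomial (Fin 3) K) i) d := by
      refine Fin.cases (hP j) (fun k => ?_) i
      have hk : k = 0 := Subsingleton.elim _ _
      subst hk
      exact hQ j
    have h2 := h0.mul h1
    rwa [zero_add] at h2
  obtain ⟨C, hC, h⟩ := htrec_family q d hq (x 0) (totalWeight K * Real.log (Nat.card (Fin 2)))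
    (mul_nonneg (Nat.cast_nonneg _) (Real.log_natCast_nonneg _))
  obtain ⟨n₀, hn₀⟩ := eventually_ne (c 0 * c 1) (mul_ne_zero (hc 0) (hc 1)) (x 0)
  refine ⟨C, n₀, hC, fun n hn => ?_⟩
  have hne := hn₀ n hn
  rw [Polynomial.eval_mul] at hne
  set t : K := x 0 + n with ht
  set y : Fin 2 → K := yo F x n with hy
  have hyo : ∀ i, yo F x (n + 1) i = eval (Fin.cons t y) (F i) := fun i => yo_succ F x n i
  have hev : ∀ p : Polynomial K, eval (Fin.cons t y : Fin 3 → K)
      (Polynomial.aeval (X 0 : MvPolynomial (Fin 3) K) p) = p.eval t := by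
    intro p
    have h1 := Polynomial.aeval_algHom_apply (aeval (Fin.cons t y : Fin 3 → K))
      (X 0 : MvPolynomial (Fin 3) K) p
    rw [aeval_X, Fin.cons_zero] at h1
    rw [← Polynomial.coe_aeval_eq_eval, h1]
    rfl
  have hkey : (fun j => ∑ i, (fun a => eval (Fin.cons t y) (q a)) (j, i) * yo F x (n + 1) i) =
      ((c 0).eval t * (c 1).eval t) • y ^ (d + d) := by
    funext j
    have h1 := congrArg (eval (Fin.cons t y : Fin 3 → K)) (hid j)
    rw [map_mul, map_add, map_mul, map_mul, hev, map_pow, eval_X, Fin.cons_succ, ← hyo, ← hyo] at h1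
    rw [Fin.sum_univ_two]
    simp only [hqdef, map_mul, hev]
    have h2 := htrec_other j (fun j => (c j).eval t)
    rw [Pi.smul_apply, Pi.pow_apply, smul_eq_mul, ← h2]
    calc _ = (c (j + 1)).eval t * (eval (Fin.cons t y) (P j) * yo F x (n + 1) 0 +
          eval (Fin.cons t y) (Q j) * yo F x (n + 1) 1) := by
            simp only [Matrix.cons_val_zero, Matrix.cons_val_one]
            ring
      _ = _ := by
            rw [← h1]
            ring
  have h1 := logHeight_linearMap_apply_le (fun a => eval (Fin.cons t y) (q a)) (yo F x (n + 1))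
  rw [hkey, logHeight_smul_eq_logHeight _ hne, logHeight_pow] at h1
  have h2 := h n y
  push_cast at h1
  rw [← ht] at h2
  push_cast at h2
  nlinarith [h1, h2]

end Pool.Agent.H.MP_31a675_nt.G
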