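import Pool.Agent.H.MP_31a675_nt.Basic

/-!
# Linear independence of products of iterated coordinates
-/

namespace Pool.Agent.H.MP_31a675_nt.G

open MvPolynomial

/-- The product of `s + 1` iterated coordinates, split at the first one. -/
theorem indep_prod_cons {K : Type*} [Field K] {N : ℕ} (φ : Fin N → MvPolynomial (Fin N) K)
    (sel : Fin 2 → Fin N) (s : ℕ) (a : Fin 2) (J : Fin s → Fin 2) :
    ∏ i : Fin (s + 1), itp φ i (sel ((Fin.cons a J : Fin (s + 1) → Fin 2) i)) =
      X (sel a) * aeval φ (∏ i : Fin s, itp φ i (sel (J i))) := by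
  rw [Fin.prod_univ_succ, map_prod]
  congr 1
  refine Finset.prod_congr rfl fun i _ => ?_
  rw [Fin.cons_succ, Fin.val_succ]
  show (aeval φ : MvPolynomial (Fin N) K →ₐ[K] MvPolynomial (Fin N) K)^[(i : ℕ) + 1]
    (X (sel (J i))) = _
  rw [Function.iterate_succ_apply']
  rfl

/-- The sum over all index vectors of length `s + 1`, split according to the first entry. -/
theorem indep_sum_cons {K : Type*} [Field K] {N : ℕ} (φ : Fin N → MvPolynomial (Fin N) K)
    (sel : Fin 2 → Fin N) (s : ℕ) (ξ : (Fin (s + 1) → Fin 2) → K) :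
    ∑ J, C (ξ J) * ∏ i : Fin (s + 1), itp φ i (sel (J i)) =
      X (sel 0) * aeval φ (∑ J : Fin s → Fin 2,
          C (ξ (Fin.cons 0 J)) * ∏ i : Fin s, itp φ i (sel (J i))) +
        X (sel 1) * aeval φ (∑ J : Fin s → Fin 2,
          C (ξ (Fin.cons 1 J)) * ∏ i : Fin s, itp φ i (sel (J i))) := by
  rw [← (Fin.consEquiv fun _ : Fin (s + 1) => Fin 2).sum_comp, Fintype.sum_prod_type,
    Fin.sum_univ_two]
  have h : ∀ a : Fin 2, ∑ J : Fin s → Fin 2,
      C (ξ ((Fin.consEquiv fun _ : Fin (s + 1) => Fin 2) (a, J))) *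
        ∏ i : Fin (s + 1), itp φ i (sel ((Fin.consEquiv fun _ : Fin (s + 1) => Fin 2) (a, J) i)) =
      X (sel a) * aeval φ (∑ J : Fin s → Fin 2,
          C (ξ (Fin.cons a J)) * ∏ i : Fin s, itp φ i (sel (J i))) := by
    intro a
    rw [map_sum, Finset.mul_sum]
    refine Finset.sum_congr rfl fun J _ => ?_
    have h1 := indep_prod_cons φ sel s a J
    have h2 : (Fin.consEquiv fun _ : Fin (s + 1) => Fin 2) (a, J) =
        (Fin.cons a J : Fin (s + 1) → Fin 2) := rfl
    rw [h2, h1, map_mul, ← algebraMap_eq, AlgHom.commutes, algebraMap_eq]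
    ring
  rw [h 0, h 1]

/-- Suppose that `X_a A(φ) + X_b B(φ) = 0` implies `A = B = 0` for `A`, `B` in the submodules `S s`,
which contain the products of `s` iterated coordinates. Then the products of `s` iterated
coordinates are linearly independent. Induction on `s` (`Fin.consEquiv`, `Fin.prod_univ_succ`): split
the sum according to `J 0`; `itp φ 0 j = X j` and `itp φ (i + 1) j = aeval φ (itp φ i j)`
(`Function.iterate_succ_apply'`). -/
theorem indep {K : Type*} [Field K] {N : ℕ} (φ : Fin N → MvPolynomial (Fin N) K)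
    (sel : Fin 2 → Fin N) (S : ℕ → Submodule K (MvPolynomial (Fin N) K))
    (hmem : ∀ s (J : Fin s → Fin 2), ∏ i : Fin s, itp φ i (sel (J i)) ∈ S s)
    (hNR : ∀ s, ∀ A ∈ S s, ∀ B ∈ S s,
      X (sel 0) * aeval φ A + X (sel 1) * aeval φ B = 0 → A = 0 ∧ B = 0)
    (s : ℕ) (ξ : (Fin s → Fin 2) → K)
    (h : ∑ J, C (ξ J) * ∏ i : Fin s, itp φ i (sel (J i)) = 0) : ξ = 0 := by
  induction s with
  | zero =>
    rw [Fintype.sum_unique] at h
    simp only [Finset.univ_eq_empty, Finset.prod_empty, mul_one] at h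
    funext J
    apply C_injective (Fin N) K
    rw [Pi.zero_apply, C_0, ← h]
    exact congrArg (fun J' => C (ξ J')) (Subsingleton.elim _ _)
  | succ s ih =>
    have hA : ∀ a : Fin 2, (∑ J : Fin s → Fin 2,
        C (ξ (Fin.cons a J)) * ∏ i : Fin s, itp φ i (sel (J i))) ∈ S s := by
      intro a
      refine Submodule.sum_mem _ fun J _ => ?_
      rw [C_mul']
      exact Submodule.smul_mem _ _ (hmem s J)
    rw [indep_sum_cons] at h
    obtain ⟨h0, h1⟩ := hNR s _ (hA 0) _ (hA 1) h
    have e0 := ih (fun J => ξ (Fin.cons 0 J)) h0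
    have e1 := ih (fun J => ξ (Fin.cons 1 J)) h1
    funext J
    rw [← Fin.cons_self_tail J]
    have hJ : J 0 = 0 ∨ J 0 = 1 := by
      rcases (J 0) with ⟨v, hv⟩
      interval_cases v
      · exact Or.inl rfl
      · exact Or.inr rfl
    rcases hJ with hJ | hJ
    · rw [hJ]
      exact congrFun e0 (Fin.tail J)
    · rw [hJ]
      exact congrFun e1 (Fin.tail J)

end Pool.Agent.H.MP_31a675_nt.G
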