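import Mathlib

/-!
# Prime ideals above rational primes; norms and houses
-/

namespace Pool.Agent.H.MP_31a675_nt.G

open NumberField

variable (K : Type*) [Field K] [NumberField K]

/-- A maximal ideal above `p`. Its absolute norm divides the norm of the ideal `(p)`, which is
`p ^ [K : Q]`; it is not `1`, so `p` divides it, and it divides the norm of every element of the
ideal (`Ideal.absNorm_dvd_absNorm_of_le`, `Ideal.absNorm_span_singleton`). -/
theorem exists_over (p : ℕ) (hp : p.Prime) :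
    ∃ P : Ideal (𝓞 K), P.IsMaximal ∧ (p : 𝓞 K) ∈ P ∧ Finite (𝓞 K ⧸ P) ∧
      Nat.card (𝓞 K ⧸ P) ≤ p ^ Module.finrank ℚ K ∧
      ∀ x ∈ P, (p : ℤ) ∣ Algebra.norm ℤ x := by
  have hfr : Module.finrank ℤ (𝓞 K) = Module.finrank ℚ K := RingOfIntegers.rank K
  have hnorm : Ideal.absNorm (Ideal.span {(p : 𝓞 K)}) = p ^ Module.finrank ℚ K := by
    rw [Ideal.absNorm_span_natCast, hfr]
  have hne : Ideal.span {(p : 𝓞 K)} ≠ ⊤ := by
    intro h
    have h1 : Ideal.absNorm (Ideal.span {(p : 𝓞 K)}) = 1 := Ideal.absNorm_eq_one_iff.mpr h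
    rw [hnorm] at h1
    have h2 : Module.finrank ℚ K ≠ 0 := (Module.finrank_pos).ne'
    have h3 : 1 < p ^ Module.finrank ℚ K := Nat.one_lt_pow h2 hp.one_lt
    omega
  obtain ⟨P, hP, hle⟩ := Ideal.exists_le_maximal _ hne
  have hmem : (p : 𝓞 K) ∈ P := hle (Ideal.mem_span_singleton_self _)
  have hdvd : Ideal.absNorm P ∣ p ^ Module.finrank ℚ K := by
    rw [← hnorm]; exact Ideal.absNorm_dvd_absNorm_of_le hle
  have hpos : 0 < p ^ Module.finrank ℚ K := pow_pos hp.pos _
  have hn0 : Ideal.absNorm P ≠ 0 := fun h => by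
    rw [h, zero_dvd_iff] at hdvd
    exact hpos.ne' hdvd
  have hfin : Finite (𝓞 K ⧸ P) := (Ideal.absNorm_ne_zero_iff P).mp hn0
  have hcard : Nat.card (𝓞 K ⧸ P) = Ideal.absNorm P := by
    rw [Ideal.absNorm_apply, Submodule.cardQuot_apply]
  refine ⟨P, hP, hmem, hfin, ?_, ?_⟩
  · rw [hcard]
    exact Nat.le_of_dvd hpos hdvd
  · intro x hx
    have h1 : Ideal.absNorm P ≠ 1 := fun h => hP.ne_top (Ideal.absNorm_eq_one_iff.mp h)
    obtain ⟨k, hk, hk'⟩ := (Nat.dvd_prime_pow hp).mp hdvd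
    have hk0 : k ≠ 0 := by
      rintro rfl
      exact h1 (by simpa using hk')
    have h2 : p ∣ Ideal.absNorm P := by
      rw [hk']; exact dvd_pow_self p hk0
    exact (Int.natCast_dvd_natCast.mpr h2).trans (Ideal.absNorm_dvd_norm_of_mem hx)

/-- The norm is the product of the conjugates, each at most the house in absolute value. -/
theorem norm_le_house (x : 𝓞 K) :
    |((Algebra.norm ℤ x : ℤ) : ℝ)| ≤ house (x : K) ^ Module.finrank ℚ K := by
  classical
  have h1 : ((Algebra.norm ℤ x : ℤ) : ℚ) = Algebra.norm ℚ (x : K) := Algebra.coe_norm_int x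
  have h2 : |((Algebra.norm ℤ x : ℤ) : ℝ)| = ‖Algebra.norm ℚ (x : K)‖ := by
    rw [← h1, ← Rat.norm_cast_real, Real.norm_eq_abs]
    norm_cast
  rw [h2]
  obtain ⟨σ⟩ : Nonempty (K →+* ℂ) := inferInstance
  refine (norm_norm_le_norm_mul_house_pow (x : K) σ).trans ?_
  have h3 : Module.finrank ℚ K ≠ 0 := (Module.finrank_pos).ne'
  obtain ⟨n, hn⟩ := Nat.exists_eq_succ_of_ne_zero h3
  rw [hn, Nat.succ_sub_one, Nat.succ_eq_add_one, pow_succ']
  exact mul_le_mul_of_nonneg_right (norm_embedding_le_house (x : K) σ)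
    (pow_nonneg (house_nonneg _) _)

/-- If all primes up to `Q` divide the norm of `x ≠ 0`, then so does their product, and
`θ (Q) ≤ log |norm|`. -/
theorem theta_le (x : 𝓞 K) (hx : x ≠ 0) (Q : ℕ)
    (h : ∀ p ≤ Q, p.Prime → (p : ℤ) ∣ Algebra.norm ℤ x) :
    Chebyshev.theta Q ≤ Module.finrank ℚ K * Real.log (house (x : K)) := by
  have hN : Algebra.norm ℤ x ≠ 0 := Algebra.norm_ne_zero_iff.mpr hx
  have hdvd : primorial Q ∣ (Algebra.norm ℤ x).natAbs := by
    unfold primorial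
    refine Finset.prod_primes_dvd _ ?_ ?_
    · intro p hp
      exact (Finset.mem_filter.mp hp).2.prime
    · intro p hp
      obtain ⟨hp1, hp2⟩ := Finset.mem_filter.mp hp
      exact Int.natCast_dvd.mp (h p (by have := Finset.mem_range.mp hp1; omega) hp2)
  have hle : primorial Q ≤ (Algebra.norm ℤ x).natAbs :=
    Nat.le_of_dvd (Int.natAbs_pos.mpr hN) hdvd
  have hpos : 0 < primorial Q := by
    rcases Nat.eq_zero_or_pos (primorial Q) with h0 | h0
    · rw [h0, zero_dvd_iff] at hdvd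
      exact absurd (Int.natAbs_eq_zero.mp hdvd) hN
    · exact h0
  rw [Chebyshev.theta_eq_log_primorial, Nat.floor_natCast, ← Real.log_pow]
  refine Real.log_le_log (by exact_mod_cast hpos) ?_
  calc ((primorial Q : ℕ) : ℝ) ≤ (((Algebra.norm ℤ x).natAbs : ℕ) : ℝ) := by exact_mod_cast hle
    _ = |((Algebra.norm ℤ x : ℤ) : ℝ)| := by
        rw [Nat.cast_natAbs, Int.cast_abs]
    _ ≤ _ := norm_le_house K x

end Pool.Agent.H.MP_31a675_nt.G
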