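import Pool.Agent.H.MP_31a675_nt.Sieg
import Pool.Agent.H.MP_31a675_nt.G.Prm

/-!
# Interpolation at one representative of every state modulo every small prime
-/

namespace Pool.Agent.H.MP_31a675_nt.G

open NumberField

/-- Vectors `M n` of algebraic integers, and for every prime `p ≤ Q` a prime ideal `P p` above `p`
and a state `σ p n < N` such that `M n` and `M m` are proportional modulo `P p` if `n` and `m` have
the same state and `β n`, `β m` are not in `P p`. Then some nonzero `ξ` is orthogonal to all `M n`,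
`n ≤ T`. Proof: for every `p ≤ Q` and every state choose, if there is one, an `m ≤ T` with this
state and `β m ∉ P p`; the equations `∑ J, M m J * ξ J = 0` for these `m` have a small solution
(`siegel`). For `n ≤ T` let `V = ∑ J, M n J * ξ J`. For every prime `p ≤ Q` the product `β n * V`
lies in `P p`. If `V ≠ 0` then `theta_le` gives a contradiction. -/
theorem interp (K : Type*) [Field K] [NumberField K] :
    ∃ c : ℝ, 1 ≤ c ∧ ∀ (ι : Type) [Fintype ι] (M : ℕ → ι → 𝓞 K) (β : ℕ → 𝓞 K)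
      (P : ℕ → Ideal (𝓞 K)) (N : ℕ) (σ : ℕ → ℕ → Fin N) (T Q : ℕ) (A B : ℝ),
      1 ≤ A → 1 ≤ B → 0 < N → 2 * ((Q + 1) * N) ≤ Fintype.card ι →
      (∀ p ≤ Q, p.Prime → (P p).IsPrime ∧ ∀ x ∈ P p, (p : ℤ) ∣ Algebra.norm ℤ x) →
      (∀ n ≤ T, ∀ J, house ((M n J : 𝓞 K) : K) ≤ A) →
      (∀ n ≤ T, β n ≠ 0 ∧ house ((β n : 𝓞 K) : K) ≤ B) →
      (∀ p ≤ Q, p.Prime → ∀ n ≤ T, ∀ m ≤ T, σ p n = σ p m → β n ∉ P p → β m ∉ P p →
        ∃ a ∉ P p, ∃ b, ∀ J, a * M n J - b * M m J ∈ P p) →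
      Module.finrank ℚ K *
        (Real.log B + Real.log (c * (Fintype.card ι : ℝ) ^ 2 * A ^ 2)) < Chebyshev.theta Q →
      ∃ ξ : ι → 𝓞 K, ξ ≠ 0 ∧ ∀ n ≤ T, ∑ J, M n J * ξ J = 0 := by
  classical
  obtain ⟨c, hc1, hc⟩ := siegel K
  refine ⟨c, hc1, fun ι _ M β P N σ T Q A B hA hB hN hcard hP hM hβ hprop hθ => ?_⟩
  obtain ⟨rep, hrep⟩ : ∃ rep : ℕ → Fin N → ℕ, ∀ p s,
      (∃ m ≤ T, σ p m = s ∧ β m ∉ P p) →
        rep p s ≤ T ∧ σ p (rep p s) = s ∧ β (rep p s) ∉ P p := by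
    refine ⟨fun p s => if h : ∃ m ≤ T, σ p m = s ∧ β m ∉ P p then h.choose else 0,
      fun p s h => ?_⟩
    simp only [dif_pos h]
    exact h.choose_spec
  obtain ⟨a, ha⟩ : ∃ a : Matrix (Fin (Q + 1) × Fin N) ι (𝓞 K), ∀ k J,
      a k J = if rep k.1 k.2 ≤ T then M (rep k.1 k.2) J else 0 := ⟨_, fun k J => rfl⟩
  have haA : ∀ k J, house ((a k J : 𝓞 K) : K) ≤ A := by
    intro k J
    rw [ha]
    split_ifs with h
    · exact hM _ h J
    · have h1 := house_intCast (K := K) 0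
      have h2 : house (((0 : 𝓞 K) : 𝓞 K) : K) = 0 := by simpa using h1
      rw [h2]
      linarith
  obtain ⟨ξ, hξ0, hξ, hξb⟩ := hc (Fin (Q + 1) × Fin N) ι a A hA
    (by
      rw [Fintype.card_prod, Fintype.card_fin, Fintype.card_fin]
      exact Nat.mul_pos (by omega) hN)
    (by
      rw [Fintype.card_prod, Fintype.card_fin, Fintype.card_fin]
      exact hcard) haA
  refine ⟨ξ, hξ0, fun n hn => ?_⟩
  by_contra hV
  obtain ⟨V, hVdef⟩ : ∃ V : 𝓞 K, V = ∑ J, M n J * ξ J := ⟨_, rfl⟩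
  rw [← hVdef] at hV
  have hne : β n * V ≠ 0 := mul_ne_zero (hβ n hn).1 hV
  -- all primes divide the norm
  have hdiv : ∀ p ≤ Q, p.Prime → (p : ℤ) ∣ Algebra.norm ℤ (β n * V) := by
    intro p hp hpp
    obtain ⟨hprime, hnorm⟩ := hP p hp hpp
    apply hnorm
    by_cases hb : β n ∈ P p
    · exact Ideal.mul_mem_right _ _ hb
    · obtain ⟨h1, h2, h3⟩ := hrep p (σ p n) ⟨n, hn, rfl, hb⟩
      obtain ⟨x, hx, y, hxy⟩ := hprop p hp hpp n hn (rep p (σ p n)) h1 h2.symm hb h3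
      have h4 : ∑ J, M (rep p (σ p n)) J * ξ J = 0 := by
        have h5 := congrFun hξ (⟨p, by omega⟩, σ p n)
        have h6 : ∑ J, a (⟨p, by omega⟩, σ p n) J * ξ J = 0 := h5
        rw [← h6]
        refine Finset.sum_congr rfl fun J _ => ?_
        rw [ha]
        simp only
        rw [if_pos h1]
      have h5 : x * V = ∑ J, (x * M n J - y * M (rep p (σ p n)) J) * ξ J := by
        have h6 : ∑ J, (x * M n J - y * M (rep p (σ p n)) J) * ξ J =
            x * (∑ J, M n J * ξ J) - y * (∑ J, M (rep p (σ p n)) J * ξ J) := by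
          rw [Finset.mul_sum, Finset.mul_sum, ← Finset.sum_sub_distrib]
          refine Finset.sum_congr rfl fun J _ => ?_
          ring
        rw [h6, h4, hVdef]
        ring
      have h6 : x * V ∈ P p := by
        rw [h5]
        exact Ideal.sum_mem _ fun J _ => Ideal.mul_mem_right _ _ (hxy J)
      rcases hprime.mem_or_mem h6 with h7 | h7
      · exact absurd h7 hx
      · exact Ideal.mul_mem_left _ _ h7
  have h1 := theta_le K (β n * V) hne Q hdiv
  -- the size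
  have hcardpos : (1 : ℝ) ≤ (Fintype.card ι : ℝ) := by
    have h2 : 0 < (Q + 1) * N := Nat.mul_pos (by omega) hN
    have : 1 ≤ Fintype.card ι := by omega
    exact_mod_cast this
  have hVh : house ((V : 𝓞 K) : K) ≤ c * (Fintype.card ι : ℝ) ^ 2 * A ^ 2 := by
    have h2 : ((V : 𝓞 K) : K) = ∑ J, ((M n J : 𝓞 K) : K) * ((ξ J : 𝓞 K) : K) := by
      have h3 : algebraMap (𝓞 K) K V = ∑ J, algebraMap (𝓞 K) K (M n J) *
          algebraMap (𝓞 K) K (ξ J) := by
        rw [hVdef, map_sum]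
        exact Finset.sum_congr rfl fun J _ => map_mul _ _ _
      exact h3
    rw [h2]
    refine (house_sum_le_sum_house _ _).trans ?_
    have h3 : ∀ J ∈ (Finset.univ : Finset ι),
        house (((M n J : 𝓞 K) : K) * ((ξ J : 𝓞 K) : K)) ≤ A * (c * (Fintype.card ι : ℝ) * A) := by
      intro J _
      refine (house_mul_le _ _).trans ?_
      exact mul_le_mul (hM n hn J) (hξb J) (house_nonneg _) (by linarith)
    refine (Finset.sum_le_sum h3).trans (le_of_eq ?_)
    rw [Finset.sum_const, Finset.card_univ, nsmul_eq_mul]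
    ring
  have hbig : 1 ≤ c * (Fintype.card ι : ℝ) ^ 2 * A ^ 2 := by
    have h2 : 1 ≤ (Fintype.card ι : ℝ) ^ 2 := one_le_pow₀ hcardpos
    have h3 : 1 ≤ A ^ 2 := one_le_pow₀ hA
    have h4 : 1 ≤ c * (Fintype.card ι : ℝ) ^ 2 := one_le_mul_of_one_le_of_one_le hc1 h2
    exact one_le_mul_of_one_le_of_one_le h4 h3
  have hle : house (((β n * V : 𝓞 K) : 𝓞 K) : K) ≤
      B * (c * (Fintype.card ι : ℝ) ^ 2 * A ^ 2) := by
    have h2 : (((β n * V : 𝓞 K) : 𝓞 K) : K) = ((β n : 𝓞 K) : K) * ((V : 𝓞 K) : K) :=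
      map_mul (algebraMap (𝓞 K) K) _ _
    rw [h2]
    refine (house_mul_le _ _).trans ?_
    exact mul_le_mul (hβ n hn).2 hVh (house_nonneg _) (by linarith)
  -- the logarithm
  have hlog : Real.log (house (((β n * V : 𝓞 K) : 𝓞 K) : K)) ≤
      Real.log B + Real.log (c * (Fintype.card ι : ℝ) ^ 2 * A ^ 2) := by
    rw [← Real.log_mul (by linarith) (by linarith)]
    rcases (house_nonneg (((β n * V : 𝓞 K) : 𝓞 K) : K)).eq_or_lt with h2 | h2
    · rw [← h2, Real.log_zero]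
      exact Real.log_nonneg (one_le_mul_of_one_le_of_one_le hB hbig)
    · exact Real.log_le_log h2 hle
  have h2 : (Module.finrank ℚ K : ℝ) * Real.log (house (((β n * V : 𝓞 K) : 𝓞 K) : K)) ≤
      Module.finrank ℚ K * (Real.log B + Real.log (c * (Fintype.card ι : ℝ) ^ 2 * A ^ 2)) :=
    mul_le_mul_of_nonneg_left hlog (Nat.cast_nonneg _)
  linarith

end Pool.Agent.H.MP_31a675_nt.G
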