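import Mathlib

/-!
# The choice of the parameters
-/

namespace Pool.Agent.H.MP_31a675_nt.G

/-- The polynomial inequality behind the choice of the parameters. -/
theorem params_poly (A B : ℝ) (hA : 0 ≤ A) (hB : 0 ≤ B) (u : ℝ) (hu : 4 * A + 8 * B + 20 ≤ u) :
    A * u * (u ^ 4 + B * u) + u + 2 * u ^ 4 * u < (u ^ 8 - 1) * (1 / 2) := by
  have hu1 : 1 ≤ u := by linarith
  have h2 : A * u * (u ^ 4 + B * u) ≤ A * (1 + B) * u ^ 5 := by
    have h3 : u * u ≤ u ^ 5 := by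
      have : u ^ 2 ≤ u ^ 5 := pow_le_pow_right₀ hu1 (by norm_num)
      nlinarith
    have h4 : A * B * (u * u) ≤ A * B * u ^ 5 := by
      apply mul_le_mul_of_nonneg_left h3 (by positivity)
    nlinarith
  have h5 : u ≤ u ^ 5 := by
    have : u ^ 1 ≤ u ^ 5 := pow_le_pow_right₀ hu1 (by norm_num)
    simpa using this
  have h6 : (A * (1 + B) + 4) * 2 ≤ u ^ 3 := by
    have h7 : 4 * A ≤ u := by linarith
    have h8 : 8 * B + 20 ≤ u := by linarith
    have h9 : (4 * A + 1) * (8 * B + 19) ≤ u * u := by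
      apply mul_le_mul
      · linarith
      · linarith
      · positivity
      · linarith
    have h10 : u * u ≤ u ^ 3 := by
      have : u ^ 2 ≤ u ^ 3 := pow_le_pow_right₀ hu1 (by norm_num)
      nlinarith
    nlinarith [mul_nonneg hA hB]
  have h11 : (A * (1 + B) + 4) * 2 * u ^ 5 ≤ u ^ 3 * u ^ 5 := by
    apply mul_le_mul_of_nonneg_right h6 (by positivity)
  have h12 : u ^ 3 * u ^ 5 = u ^ 8 := by ring
  have h13 : 1 ≤ u ^ 5 := one_le_pow₀ hu1
  nlinarith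

/-- With `e = Nat.clog 2 E`, `γ = 1 / (16 κ e)`, take `Q = ⌊T ^ (1 / (8 κ e))⌋` and
`s = κ * Nat.clog 2 (Q + 1) + 1`, so that `2 ^ s ≤ 2 (2 (Q + 1)) ^ κ` and `E ^ s ≤ (2 ^ s) ^ e`; use
`Chebyshev.theta_ge`. -/
theorem params (κ E : ℕ) (hκ : 1 ≤ κ) (hE : 2 ≤ E) (C : ℝ) (hC : 1 ≤ C) :
    ∃ T₀ : ℕ, ∀ T, T₀ ≤ T → ∃ s Q : ℕ, 1 ≤ s ∧ 2 * s ≤ T ∧ 2 * (Q + 1) ^ κ ≤ 2 ^ s ∧
      (E ^ s + 1) * (E ^ s * (4 * (E * (E ^ s) ^ 2)) + 1) ≤ T - s ∧
      C * (s + 1) * ((T : ℝ) ^ (1 / (16 * (κ : ℝ) * Nat.clog 2 E)) + Real.log (T + 2)) <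
        Chebyshev.theta Q := by
  obtain ⟨e, he⟩ : ∃ e, e = Nat.clog 2 E := ⟨_, rfl⟩
  rw [← he]
  have hEe : E ≤ 2 ^ e := by rw [he]; exact Nat.le_pow_clog (by norm_num) E
  have he1 : 1 ≤ e := by
    rcases Nat.eq_zero_or_pos e with h0 | h0
    · rw [h0] at hEe; simp at hEe; omega
    · exact h0
  have hκr : (1 : ℝ) ≤ κ := by exact_mod_cast hκ
  have her : (1 : ℝ) ≤ e := by exact_mod_cast he1
  set a : ℝ := 1 / (8 * (κ : ℝ) * e) with ha
  have hden : (1 : ℝ) ≤ (κ : ℝ) * e := by nlinarith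
  have ha0 : 0 < a := by rw [ha]; positivity
  have ha1 : a ≤ 1 := by
    rw [ha, div_le_one (by positivity)]
    nlinarith
  -- constants
  set A : ℝ := C * (4 * κ + 2) with hA
  set B : ℝ := 2 + 8 * (κ : ℝ) * e with hB
  set C3 : ℝ := 10 * E * 2 ^ (4 * e) * 4 ^ (4 * κ * e) with hC3
  have hC30 : 0 < C3 := by
    rw [hC3]
    have : (0 : ℝ) < E := by exact_mod_cast (by omega : 0 < E)
    positivity
  have hA0 : 0 ≤ A := by rw [hA]; positivity
  have hB0 : 0 ≤ B := by rw [hB]; positivity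
  -- y₀
  have hlog : ∀ᶠ y : ℝ in Filter.atTop, Real.log y ≤ y ^ ((1 : ℝ) / 8) := by
    have h := (isLittleO_log_rpow_atTop (by norm_num : (0 : ℝ) < 1 / 8)).bound
      (by norm_num : (0 : ℝ) < 1)
    filter_upwards [h, Filter.eventually_ge_atTop 1] with y hy hy1
    have h1 : 0 ≤ Real.log y := Real.log_nonneg hy1
    have h2 : 0 ≤ y ^ ((1 : ℝ) / 8) := by positivity
    rw [Real.norm_of_nonneg h1, Real.norm_of_nonneg h2, one_mul] at hy
    exact hy
  have hU : ∀ᶠ y : ℝ in Filter.atTop, 4 * A + 8 * B + 20 + 16 * κ ≤ y ^ ((1 : ℝ) / 8) :=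
    (tendsto_rpow_atTop (by norm_num : (0 : ℝ) < 1 / 8)).eventually_ge_atTop _
  obtain ⟨y₀, hy₀⟩ := Filter.eventually_atTop.1 (hlog.and hU)
  have hT1 : ∀ᶠ T : ℕ in Filter.atTop, max y₀ 1 ≤ (T : ℝ) ^ a :=
    ((tendsto_rpow_atTop ha0).comp tendsto_natCast_atTop_atTop).eventually_ge_atTop _
  have hT2 : ∀ᶠ T : ℕ in Filter.atTop, 4 * C3 ^ 2 + 1 ≤ (T : ℝ) :=
    tendsto_natCast_atTop_atTop.eventually_ge_atTop _
  obtain ⟨T₀, hT₀⟩ := Filter.eventually_atTop.1 (hT1.and hT2)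
  refine ⟨T₀, fun T hT => ?_⟩
  obtain ⟨h1, h2⟩ := hT₀ T hT
  have hTr1 : (1 : ℝ) ≤ T := by nlinarith [sq_nonneg C3]
  have hTr0 : (0 : ℝ) < T := by linarith
  set Q : ℕ := ⌊(T : ℝ) ^ a⌋₊ with hQ
  set s : ℕ := κ * Nat.clog 2 (Q + 1) + 1 with hs
  have hQle : (Q : ℝ) ≤ (T : ℝ) ^ a := Nat.floor_le (by positivity)
  have hQlt : (T : ℝ) ^ a < (Q : ℝ) + 1 := Nat.lt_floor_add_one _
  have hq1 : (1 : ℝ) ≤ (Q : ℝ) + 1 := by
    have : (0 : ℝ) ≤ Q := Nat.cast_nonneg _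
    linarith
  obtain ⟨hy1, hy2⟩ := hy₀ ((Q : ℝ) + 1) (by linarith [le_max_left y₀ 1])
  set u : ℝ := ((Q : ℝ) + 1) ^ ((1 : ℝ) / 8) with hu
  have hu8 : u ^ 8 = (Q : ℝ) + 1 := by
    rw [hu, ← Real.rpow_natCast, ← Real.rpow_mul (by linarith)]
    norm_num
  have hu0 : 0 ≤ u := by rw [hu]; positivity
  have hu1 : 1 ≤ u := by linarith
  have hsq1 : Real.sqrt ((Q : ℝ) + 1) = u ^ 4 := by
    rw [← hu8, show u ^ 8 = (u ^ 4) ^ 2 by ring, Real.sqrt_sq (by positivity)]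
  have hL0 : 0 ≤ Real.log ((Q : ℝ) + 1) := Real.log_nonneg hq1
  have hQT : (Q : ℝ) + 1 ≤ 2 * (T : ℝ) ^ a := by linarith [le_max_right y₀ 1]
  have hTaT : (T : ℝ) ^ a ≤ T := by
    calc (T : ℝ) ^ a ≤ (T : ℝ) ^ (1 : ℝ) := Real.rpow_le_rpow_of_exponent_le hTr1 ha1
      _ = T := Real.rpow_one _
  -- clog
  have hcl : 2 ^ Nat.clog 2 (Q + 1) ≤ 2 * (Q + 1) := by
    rcases Nat.eq_zero_or_pos Q with h0 | h0
    · rw [h0]; simp
    · have := Nat.pow_pred_clog_lt_self (b := 2) (by norm_num) (x := Q + 1) (by omega)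
      have hpos : 0 < Nat.clog 2 (Q + 1) := Nat.clog_pos (by norm_num) (by omega)
      obtain ⟨m, hm⟩ : ∃ m, Nat.clog 2 (Q + 1) = m + 1 := ⟨Nat.clog 2 (Q + 1) - 1, by omega⟩
      rw [hm] at this ⊢
      simp only [Nat.pred_succ, Nat.add_sub_cancel] at this
      rw [pow_succ]
      omega
  have hcl2 : Q + 1 ≤ 2 ^ Nat.clog 2 (Q + 1) := Nat.le_pow_clog (by norm_num) _
  have hlog2 : (1 : ℝ) / 2 ≤ Real.log 2 := by
    have := Real.log_two_gt_d9
    linarith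
  have hclr : (Nat.clog 2 (Q + 1) : ℝ) ≤ 2 * (1 + u) := by
    have h3 : Real.log ((2 : ℝ) ^ Nat.clog 2 (Q + 1)) ≤ Real.log (2 * ((Q : ℝ) + 1)) := by
      apply Real.log_le_log (by positivity)
      exact_mod_cast hcl
    rw [Real.log_pow, Real.log_mul (by norm_num) (by linarith)] at h3
    have h4 : Real.log 2 ≤ 1 := by
      have := Real.log_two_lt_d9
      linarith
    have h5 : (0 : ℝ) ≤ Nat.clog 2 (Q + 1) := Nat.cast_nonneg _
    nlinarith
  have hsr : (s : ℝ) + 1 ≤ (4 * κ + 2) * u := by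
    rw [hs]
    push_cast
    nlinarith
  have hs1 : 1 ≤ s := by rw [hs]; omega
  have h2s : 2 * (s : ℝ) ≤ T := by
    have h3 : u ^ 8 ≤ 2 * T := by rw [hu8]; linarith
    have h4 : u * u ≤ u ^ 8 := by
      have : u ^ 2 ≤ u ^ 8 := pow_le_pow_right₀ hu1 (by norm_num)
      nlinarith
    have h5 : 16 * (κ : ℝ) + 8 ≤ u := by linarith
    nlinarith
  have h2s' : 2 * s ≤ T := by exact_mod_cast h2s
  refine ⟨s, Q, hs1, h2s', ?_, ?_, ?_⟩
  · calc 2 * (Q + 1) ^ κ ≤ 2 * (2 ^ Nat.clog 2 (Q + 1)) ^ κ := by gcongr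
      _ = 2 ^ s := by rw [hs, pow_succ, pow_mul, ← pow_mul, ← pow_mul, mul_comm κ, mul_comm 2]
  · -- the power inequality
    have hX1 : 1 ≤ E ^ s := Nat.one_le_pow _ _ (by omega)
    have h3 : (E ^ s + 1) * (E ^ s * (4 * (E * (E ^ s) ^ 2)) + 1) ≤ 10 * E * (E ^ s) ^ 4 := by
      set X := E ^ s with hX
      have h4 : X + 1 ≤ 2 * X := by omega
      have h5 : X * (4 * (E * X ^ 2)) + 1 ≤ 5 * E * X ^ 3 := by
        have h6 : 1 ≤ E * X ^ 3 := Nat.one_le_iff_ne_zero.2 (by positivity)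
        nlinarith
      calc (X + 1) * (X * (4 * (E * X ^ 2)) + 1) ≤ (2 * X) * (5 * E * X ^ 3) :=
            Nat.mul_le_mul h4 h5
        _ = 10 * E * X ^ 4 := by ring
    have h4 : (E ^ s) ^ 4 ≤ 2 ^ (4 * e) * (2 * (Q + 1)) ^ (4 * κ * e) := by
      have h5 : E ^ s ≤ (2 ^ s) ^ e := by
        calc E ^ s ≤ (2 ^ e) ^ s := Nat.pow_le_pow_left hEe s
          _ = (2 ^ s) ^ e := by rw [← pow_mul, ← pow_mul, mul_comm]
      have h6 : 2 ^ s ≤ 2 * (2 * (Q + 1)) ^ κ := by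
        rw [hs, pow_succ, mul_comm κ, pow_mul, mul_comm]
        gcongr
      calc (E ^ s) ^ 4 ≤ ((2 ^ s) ^ e) ^ 4 := Nat.pow_le_pow_left h5 4
        _ ≤ ((2 * (2 * (Q + 1)) ^ κ) ^ e) ^ 4 :=
            Nat.pow_le_pow_left (Nat.pow_le_pow_left h6 e) 4
        _ = 2 ^ (4 * e) * (2 * (Q + 1)) ^ (4 * κ * e) := by
            rw [mul_pow, mul_pow, ← pow_mul, ← pow_mul, ← pow_mul]
            congr 2 <;> ring
    have h5 : ((10 * E * (E ^ s) ^ 4 : ℕ) : ℝ) ≤ (T : ℝ) / 2 := by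
      have h6 : ((10 * E * (E ^ s) ^ 4 : ℕ) : ℝ) ≤
          10 * E * (2 ^ (4 * e) * (2 * ((Q : ℝ) + 1)) ^ (4 * κ * e)) := by
        have := Nat.mul_le_mul_left (10 * E) h4
        exact_mod_cast this
      have h7 : (2 * ((Q : ℝ) + 1)) ^ (4 * κ * e) ≤ 4 ^ (4 * κ * e) * Real.sqrt T := by
        calc (2 * ((Q : ℝ) + 1)) ^ (4 * κ * e) ≤ (4 * (T : ℝ) ^ a) ^ (4 * κ * e) := by
              apply pow_le_pow_left₀ (by positivity)
              linarith
          _ = 4 ^ (4 * κ * e) * ((T : ℝ) ^ a) ^ (4 * κ * e) := by rw [mul_pow]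
          _ = 4 ^ (4 * κ * e) * Real.sqrt T := by
              congr 1
              rw [← Real.rpow_natCast, ← Real.rpow_mul hTr0.le, Real.sqrt_eq_rpow]
              congr 1
              rw [ha]
              push_cast
              field_simp
              norm_num
      have h8 : Real.sqrt T * Real.sqrt T = T := Real.mul_self_sqrt hTr0.le
      have h9 : 2 * C3 ≤ Real.sqrt T := by
        apply Real.le_sqrt_of_sq_le
        nlinarith
      have h10 : (0 : ℝ) ≤ E := Nat.cast_nonneg _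
      calc ((10 * E * (E ^ s) ^ 4 : ℕ) : ℝ)
          ≤ 10 * E * (2 ^ (4 * e) * (2 * ((Q : ℝ) + 1)) ^ (4 * κ * e)) := h6
        _ ≤ 10 * E * (2 ^ (4 * e) * (4 ^ (4 * κ * e) * Real.sqrt T)) := by gcongr
        _ = C3 * Real.sqrt T := by rw [hC3]; ring
        _ ≤ (T : ℝ) / 2 := by nlinarith [Real.sqrt_nonneg (T : ℝ)]
    have h6 : 2 * (10 * E * (E ^ s) ^ 4) ≤ T := by
      have : ((2 * (10 * E * (E ^ s) ^ 4) : ℕ) : ℝ) ≤ (T : ℝ) := by
        push_cast at h5 ⊢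
        linarith
      exact_mod_cast this
    omega
  · -- the analytic inequality
    have hexp : (T : ℝ) ^ (1 / (16 * (κ : ℝ) * e)) ≤ u ^ 4 := by
      have h3 : (T : ℝ) ^ (1 / (16 * (κ : ℝ) * e)) = Real.sqrt ((T : ℝ) ^ a) := by
        rw [Real.sqrt_eq_rpow, ← Real.rpow_mul hTr0.le, ha]
        congr 1
        field_simp
        norm_num
      rw [h3, ← hsq1]
      exact Real.sqrt_le_sqrt hQlt.le
    have hlogT : Real.log (T + 2) ≤ B * u := by
      have h3 : Real.log T * a ≤ u := by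
        have h4 : Real.log ((T : ℝ) ^ a) ≤ Real.log ((Q : ℝ) + 1) :=
          Real.log_le_log (by positivity) hQlt.le
        rw [Real.log_rpow hTr0] at h4
        linarith
      have h5 : Real.log T ≤ 8 * κ * e * u := by
        have h6 : Real.log T = (Real.log T * a) * (8 * κ * e) := by
          rw [ha]; field_simp
        rw [h6]
        calc (Real.log T * a) * (8 * κ * e) ≤ u * (8 * κ * e) := by
              apply mul_le_mul_of_nonneg_right h3 (by positivity)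
          _ = 8 * κ * e * u := by ring
      have h7 : Real.log (T + 2) ≤ Real.log (3 * T) := Real.log_le_log (by positivity) (by linarith)
      rw [Real.log_mul (by norm_num) hTr0.ne'] at h7
      have h8 : Real.log 3 ≤ 2 := by
        have := Real.log_le_sub_one_of_pos (by norm_num : (0 : ℝ) < 3)
        linarith
      rw [hB]
      nlinarith
    have hth := Chebyshev.theta_ge Q
    have hsqQ : Real.sqrt Q ≤ u ^ 4 := by
      rw [← hsq1]
      exact Real.sqrt_le_sqrt (by linarith)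
    have hlogQ : Real.log Q ≤ u := by
      rcases Nat.eq_zero_or_pos Q with h0 | h0
      · rw [h0]; simp; exact hu0
      · have : Real.log Q ≤ Real.log ((Q : ℝ) + 1) :=
          Real.log_le_log (by exact_mod_cast h0) (by linarith)
        linarith
    have hlogQ0 : 0 ≤ Real.log Q := Real.log_natCast_nonneg Q
    have hprod : 2 * Real.sqrt Q * Real.log Q ≤ 2 * u ^ 4 * u := by
      have h3 : Real.sqrt Q * Real.log Q ≤ u ^ 4 * u := by
        apply mul_le_mul hsqQ hlogQ hlogQ0 (by positivity)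
      linarith
    have hlhs : C * (s + 1) * ((T : ℝ) ^ (1 / (16 * (κ : ℝ) * e)) + Real.log (T + 2)) ≤
        A * u * (u ^ 4 + B * u) := by
      apply mul_le_mul
      · rw [hA, mul_assoc]
        apply mul_le_mul_of_nonneg_left hsr (by linarith)
      · linarith
      · have : 0 ≤ Real.log (T + 2) := Real.log_nonneg (by linarith)
        positivity
      · positivity
    have hpoly := params_poly A B hA0 hB0 u (by linarith)
    have hQ8 : (Q : ℝ) = u ^ 8 - 1 := by linarith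
    have hQ0 : (0 : ℝ) ≤ Q := Nat.cast_nonneg _
    have hmain : (u ^ 8 - 1) * (1 / 2) ≤ (Q : ℝ) * Real.log 2 := by
      rw [← hQ8]
      exact mul_le_mul_of_nonneg_left hlog2 hQ0
    linarith
end Pool.Agent.H.MP_31a675_nt.G
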