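import Pool.Agent.H.MP_31a675_nt.Den

/-!
# Integral representatives of points of projective space
-/

namespace Pool.Agent.H.MP_31a675_nt.G

open NumberField Height

/-- A nonzero vector `x` over `K` is proportional to a vector `w` of algebraic integers whose houses
are at most `mulHeight x ^ (r + 1)`. Divide by a coordinate `x j ≠ 0`; `mulHeight₁ (x i / x j)` is
at most `mulHeight x` (`mulHeight₁_div_eq_mulHeight`, `mulHeight_comp_le`); take the common
denominator `exists_den` and use `house_le_mulHeight`. -/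
theorem exists_repr {K : Type*} [Field K] [NumberField K] {r : ℕ} (x : Fin r → K) (hx : x ≠ 0) :
    ∃ (c : K) (w : Fin r → 𝓞 K), c ≠ 0 ∧ (∀ i, ((w i : 𝓞 K) : K) = c * x i) ∧
      ∀ i, house ((w i : 𝓞 K) : K) ≤ Real.exp ((r + 1) * logHeight x) := by
  obtain ⟨j, hj⟩ := Function.ne_iff.1 hx
  rw [Pi.zero_apply] at hj
  have h1 : (1 : ℝ) ≤ mulHeight x := one_le_mulHeight x
  have h0 : (0 : ℝ) ≤ mulHeight x := by linarith
  have hE : ∀ i, mulHeight₁ (x i / x j) ≤ mulHeight x := by
    intro i
    rw [mulHeight₁_div_eq_mulHeight]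
    have h2 : (![x i, x j] : Fin 2 → K) = x ∘ ![i, j] := by
      funext k
      fin_cases k <;> rfl
    rw [h2]
    exact mulHeight_comp_le _ _
  obtain ⟨q, hq0, hq1, hq2⟩ := exists_den (fun i => x i / x j) (mulHeight x) hE
  have hqK : (q : K) ≠ 0 := Nat.cast_ne_zero.2 hq0
  refine ⟨(q : K) / x j, fun i => ⟨(q : K) * (x i / x j), hq2 i⟩, div_ne_zero hqK hj,
    fun i => ?_, fun i => ?_⟩
  · show (q : K) * (x i / x j) = _
    ring
  · show house ((q : K) * (x i / x j)) ≤ _
    have h3 : house ((q : K) * (x i / x j)) = (q : ℝ) * house (x i / x j) :=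
      house_nat_mul (K := K) (x i / x j) q
    have h4 : Real.exp ((r + 1) * logHeight x) = mulHeight x ^ (r + 1) := by
      rw [logHeight_eq_log_mulHeight]
      have h5 : ((r : ℝ) + 1) = ((r + 1 : ℕ) : ℝ) := by push_cast; ring
      rw [h5, Real.exp_nat_mul, Real.exp_log (by linarith)]
    rw [h3, h4, pow_succ]
    exact mul_le_mul hq1 ((house_le_mulHeight _).trans (hE i)) (house_nonneg _)
      (pow_nonneg h0 _)

end Pool.Agent.H.MP_31a675_nt.G
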