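import Mathlib

/-!
# Vectors proportional modulo a prime ideal
-/

namespace Pool.Agent.H.MP_31a675_nt.G

open MvPolynomial

variable {R : Type*} [CommRing R] {r : ℕ}

/-- The vectors `a` and `b` are proportional modulo `P`, by factors which are not in `P`. -/
def Prp {ι : Type*} (P : Ideal R) (a b : ι → R) : Prop :=
  ∃ u ∉ P, ∃ v ∉ P, ∀ i, u * a i - v * b i ∈ P

theorem prp_one_notMem (P : Ideal R) [hP : P.IsPrime] : (1 : R) ∉ P :=
  fun h => hP.ne_top ((Ideal.eq_top_iff_one P).2 h)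

theorem Prp.refl {ι : Type*} {P : Ideal R} [P.IsPrime] (a : ι → R) : Prp P a a :=
  ⟨1, prp_one_notMem P, 1, prp_one_notMem P, fun i => by rw [sub_self]; exact P.zero_mem⟩

theorem Prp.symm {ι : Type*} {P : Ideal R} {a b : ι → R} (h : Prp P a b) : Prp P b a := by
  obtain ⟨u, hu, v, hv, huv⟩ := h
  exact ⟨v, hv, u, hu, fun i => by rw [← neg_sub]; exact P.neg_mem (huv i)⟩

theorem Prp.trans {ι : Type*} {P : Ideal R} [hP : P.IsPrime] {a b c : ι → R} (h : Prp P a b)
    (h' : Prp P b c) : Prp P a c := by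
  obtain ⟨u, hu, v, hv, huv⟩ := h
  obtain ⟨u', hu', v', hv', huv'⟩ := h'
  refine ⟨u' * u, fun hm => (hP.mem_or_mem hm).elim hu' hu, v * v',
    fun hm => (hP.mem_or_mem hm).elim hv hv', fun i => ?_⟩
  have e : u' * u * a i - v * v' * c i = u' * (u * a i - v * b i) + v * (u' * b i - v' * c i) := by
    ring
  rw [e]
  exact P.add_mem (P.mul_mem_left _ (huv i)) (P.mul_mem_left _ (huv' i))

/-- Congruent vectors. -/
theorem Prp.of_sub {ι : Type*} {P : Ideal R} [P.IsPrime] {a b : ι → R} (h : ∀ i, a i - b i ∈ P) :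
    Prp P a b :=
  ⟨1, prp_one_notMem P, 1, prp_one_notMem P, fun i => by rw [one_mul, one_mul]; exact h i⟩

/-- Proportional vectors, not zero modulo `P`: `u = b j`, `v = a j` with `b j ∉ P`; then
`a j ∉ P` too. -/
theorem Prp.of_cross {ι : Type*} {P : Ideal R} [hP : P.IsPrime] {a b : ι → R}
    (h : ∀ i j, a i * b j = a j * b i) (ha : ∃ i, a i ∉ P) (hb : ∃ i, b i ∉ P) : Prp P a b := by
  obtain ⟨i, hi⟩ := ha
  obtain ⟨j, hj⟩ := hb
  refine ⟨b j, hj, a j, fun hm => ?_, fun l => ?_⟩
  · have h1 : a i * b j ∈ P := by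
      rw [h i j]; exact P.mul_mem_right _ hm
    exact (hP.mem_or_mem h1).elim hi hj
  · rw [mul_comm (b j), h l j, sub_self]
    exact P.zero_mem

theorem prp_mk_eval (P : Ideal R) (a : Fin r → R) (G : MvPolynomial (Fin r) R) :
    Ideal.Quotient.mk P (MvPolynomial.eval a G) =
      eval₂ (Ideal.Quotient.mk P) (fun i => Ideal.Quotient.mk P (a i)) G := by
  have h := eval₂_comp_left (Ideal.Quotient.mk P) (RingHom.id R) a G
  rw [RingHom.comp_id] at h
  exact h

theorem prp_eval_smul {d : ℕ} {G : MvPolynomial (Fin r) R} (hG : G.IsHomogeneous d) (u : R)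
    (a : Fin r → R) :
    MvPolynomial.eval (fun i => u * a i) G = u ^ d * MvPolynomial.eval a G := by
  rw [eval_eq', eval_eq', Finset.mul_sum]
  apply Finset.sum_congr rfl
  intro m hm
  have hd : ∑ i, m i = d := by
    have := hG (mem_support_iff.1 hm)
    rw [Finsupp.weight_apply, Finsupp.sum_fintype _ _ (by simp)] at this
    simpa using this
  simp only [mul_pow]
  rw [Finset.prod_mul_distrib, Finset.prod_pow_eq_pow_sum, hd]
  ring

/-- The values of forms of degree `d` at proportional vectors, when the coefficients of the forms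
are congruent: use `u ^ d`, `v ^ d`. -/
theorem Prp.eval {P : Ideal R} [hP : P.IsPrime] {d : ℕ} {G G' : Fin r → MvPolynomial (Fin r) R}
    (hG : ∀ i, (G i).IsHomogeneous d) (hG' : ∀ i, (G' i).IsHomogeneous d)
    (hc : ∀ (z : Fin r → R) i, MvPolynomial.eval z (G i) - MvPolynomial.eval z (G' i) ∈ P)
    {a b : Fin r → R} (h : Prp P a b) :
    Prp P (fun i => MvPolynomial.eval a (G i)) (fun i => MvPolynomial.eval b (G' i)) := by
  obtain ⟨u, hu, v, hv, huv⟩ := h
  refine ⟨u ^ d, fun hm => hu (hP.mem_of_pow_mem _ hm), v ^ d,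
    fun hm => hv (hP.mem_of_pow_mem _ hm), fun i => ?_⟩
  rw [← prp_eval_smul (hG i), ← prp_eval_smul (hG' i)]
  have h1 : MvPolynomial.eval (fun i => u * a i) (G i) - MvPolynomial.eval (fun i => v * b i) (G i)
      ∈ P := by
    rw [← Ideal.Quotient.mk_eq_mk_iff_sub_mem, prp_mk_eval, prp_mk_eval]
    congr 1
    funext l
    exact (Ideal.Quotient.mk_eq_mk_iff_sub_mem _ _).2 (huv l)
  have e : MvPolynomial.eval (fun i => u * a i) (G i) - MvPolynomial.eval (fun i => v * b i) (G' i)
      = (MvPolynomial.eval (fun i => u * a i) (G i) - MvPolynomial.eval (fun i => v * b i) (G i)) +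
        (MvPolynomial.eval (fun i => v * b i) (G i) -
          MvPolynomial.eval (fun i => v * b i) (G' i)) := by ring
  rw [e]
  exact P.add_mem h1 (hc _ i)

/-- Products of coordinates of proportional vectors. -/
theorem Prp.prod {P : Ideal R} [hP : P.IsPrime] {s : ℕ} {a b : Fin s → Fin r → R}
    (h : ∀ i, Prp P (a i) (b i)) (sel : Fin 2 → Fin r) :
    Prp P (fun J : Fin s → Fin 2 => ∏ i, a i (sel (J i)))
      (fun J : Fin s → Fin 2 => ∏ i, b i (sel (J i))) := by
  choose u hu v hv huv using h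
  refine ⟨∏ i, u i, fun hm => ?_, ∏ i, v i, fun hm => ?_, fun J => ?_⟩
  · obtain ⟨i, -, hi⟩ := (Ideal.IsPrime.prod_mem_iff (p := P)).1 hm
    exact hu i hi
  · obtain ⟨i, -, hi⟩ := (Ideal.IsPrime.prod_mem_iff (p := P)).1 hm
    exact hv i hi
  · rw [← Ideal.Quotient.mk_eq_mk_iff_sub_mem]
    simp only
    rw [← Finset.prod_mul_distrib, ← Finset.prod_mul_distrib, map_prod, map_prod]
    apply Finset.prod_congr rfl
    intro i _
    exact (Ideal.Quotient.mk_eq_mk_iff_sub_mem _ _).2 (huv i (sel (J i)))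

/-- Values of forms of positive degree at a vector which is zero modulo `P` are zero modulo `P`. -/
theorem eval_mem {P : Ideal R} {d : ℕ} (hd : 1 ≤ d) {G : MvPolynomial (Fin r) R}
    (hG : G.IsHomogeneous d) {a : Fin r → R} (ha : ∀ i, a i ∈ P) : MvPolynomial.eval a G ∈ P := by
  rw [← Ideal.Quotient.eq_zero_iff_mem, prp_mk_eval]
  have h1 : (fun i => Ideal.Quotient.mk P (a i)) = fun _ => 0 := by
    funext i
    exact Ideal.Quotient.eq_zero_iff_mem.2 (ha i)
  rw [h1, eval₂_zero'_apply, constantCoeff_eq]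
  have h2 : G.coeff 0 = 0 := by
    by_contra hne
    have := hG hne
    rw [map_zero] at this
    omega
  rw [h2, map_zero]

end Pool.Agent.H.MP_31a675_nt.G
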