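import Pool.Agent.H.MP_31a675_nt.G.Interp
import Pool.Agent.H.MP_31a675_nt.G.Norm
import Pool.Agent.H.MP_31a675_nt.G.Clear
import Pool.Agent.H.MP_31a675_nt.G.Prop

/-!
# A relation between products of coordinates along a slow orbit
-/

namespace Pool.Agent.H.MP_31a675_nt.G

open MvPolynomial NumberField Height

/-- Scaling of the variables of a form. -/
theorem win_eval_mul {R : Type*} [CommRing R] {r d : ℕ} {p : MvPolynomial (Fin r) R}
    (hp : p.IsHomogeneous d) (c : R) (x : Fin r → R) :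
    eval (fun i => c * x i) p = c ^ d * eval x p := by
  rw [eval_eq', eval_eq', Finset.mul_sum]
  refine Finset.sum_congr rfl fun m hm => ?_
  have h1 : ∑ i, m i = d := by
    have h2 := hp (mem_support_iff.1 hm)
    rw [Finsupp.weight_apply, Finsupp.sum_fintype _ _ (by simp)] at h2
    simpa using h2
  simp only [mul_pow, Finset.prod_mul_distrib]
  rw [Finset.prod_pow_eq_pow_sum, h1]
  ring

/-- The forms of the recursion at time `n`. -/
noncomputable def winForm {R : Type*} [CommRing R] {r : ℕ} (c : ℕ)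
    (G : ℕ → Fin r → MvPolynomial (Fin r) R) (n : ℕ) (i : Fin r) : MvPolynomial (Fin r) R :=
  ∑ k ∈ Finset.range (c + 1), C ((n : R) ^ k) * G k i

theorem winForm_hom {R : Type*} [CommRing R] {r d : ℕ} (c : ℕ)
    {G : ℕ → Fin r → MvPolynomial (Fin r) R} (hG : ∀ k i, (G k i).IsHomogeneous d) (n : ℕ)
    (i : Fin r) : (winForm c G n i).IsHomogeneous d :=
  IsHomogeneous.sum _ _ _ fun k _ => (hG k i).C_mul _

theorem winForm_eval {R : Type*} [CommRing R] {r : ℕ} (c : ℕ)
    (G : ℕ → Fin r → MvPolynomial (Fin r) R) (n : ℕ) (i : Fin r) (z : Fin r → R) :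
    eval z (winForm c G n i) = ∑ k ∈ Finset.range (c + 1), (n : R) ^ k * eval z (G k i) := by
  simp only [winForm, map_sum, map_mul, eval_C]

/-- The house of a product. -/
theorem win_house_prod {K : Type*} [Field K] [NumberField K] {ι : Type*} (S : Finset ι)
    (f : ι → 𝓞 K) (A : ℝ) (hA : 0 ≤ A) (h : ∀ i ∈ S, house ((f i : 𝓞 K) : K) ≤ A) :
    house (((∏ i ∈ S, f i : 𝓞 K) : 𝓞 K) : K) ≤ A ^ S.card := by
  classical
  induction S using Finset.induction_on with
  | empty =>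
    have h1 : house ((1 : ℤ) : K) = |(1 : ℤ)| := house_intCast 1
    simp only [Finset.prod_empty, Finset.card_empty, pow_zero, map_one]
    simp only [Int.cast_one, abs_one] at h1
    exact h1.le
  | insert a S ha ih =>
    rw [Finset.prod_insert ha, Finset.card_insert_of_notMem ha, RingOfIntegers.coe_eq_algebraMap,
      map_mul, pow_succ']
    refine (house_mul_le _ _).trans ?_
    exact mul_le_mul (h a (Finset.mem_insert_self _ _))
      (ih fun i hi => h i (Finset.mem_insert_of_mem hi)) (house_nonneg _) hA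

/-- The states modulo a prime ideal. -/
theorem win_state {K : Type*} [Field K] [NumberField K] {r : ℕ} (w : ℕ → Fin r → 𝓞 K) {p Q : ℕ}
    (hp : p.Prime) (hpQ : p ≤ Q) (P : Ideal (𝓞 K)) (hfin : Finite (𝓞 K ⧸ P))
    (hcard : Nat.card (𝓞 K ⧸ P) ≤ p ^ Module.finrank ℚ K) :
    ∃ σ : ℕ → Fin ((Q + 1) ^ (r * Module.finrank ℚ K + 1)), ∀ n m, σ n = σ m →
      n % p = m % p ∧ ∀ i, w n i - w m i ∈ P := by
  classical
  have := Fintype.ofFinite (𝓞 K ⧸ P)
  have hp0 : 0 < p := hp.pos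
  have hle : Fintype.card (Fin p × (Fin r → 𝓞 K ⧸ P)) ≤
      Fintype.card (Fin ((Q + 1) ^ (r * Module.finrank ℚ K + 1))) := by
    rw [Fintype.card_prod, Fintype.card_fin, Fintype.card_fin, Fintype.card_fun, Fintype.card_fin,
      ← Nat.card_eq_fintype_card]
    calc p * Nat.card (𝓞 K ⧸ P) ^ r ≤ p * (p ^ Module.finrank ℚ K) ^ r :=
          Nat.mul_le_mul_left _ (Nat.pow_le_pow_left hcard r)
      _ = p ^ (r * Module.finrank ℚ K + 1) := by
          rw [← pow_mul, pow_succ', mul_comm (Module.finrank ℚ K) r]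
      _ ≤ (Q + 1) ^ (r * Module.finrank ℚ K + 1) := Nat.pow_le_pow_left (by omega) _
  obtain ⟨e⟩ := Function.Embedding.nonempty_of_card_le hle
  refine ⟨fun n => e (⟨n % p, Nat.mod_lt _ hp0⟩, fun i => Ideal.Quotient.mk P (w n i)),
    fun n m h => ?_⟩
  have h1 := e.injective h
  rw [Prod.mk.injEq] at h1
  refine ⟨by simpa using h1.1, fun i => ?_⟩
  have h2 := congrFun h1.2 i
  exact Ideal.Quotient.eq.1 h2

/-- Prime ideals and states for all primes up to `Q`. -/
theorem win_states (K : Type*) [Field K] [NumberField K] {r : ℕ} (w : ℕ → Fin r → 𝓞 K) (Q : ℕ) :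
    ∃ (P : ℕ → Ideal (𝓞 K)) (σ : ℕ → ℕ → Fin ((Q + 1) ^ (r * Module.finrank ℚ K + 1))),
      ∀ p ≤ Q, p.Prime → (P p).IsPrime ∧ (∀ x ∈ P p, (p : ℤ) ∣ Algebra.norm ℤ x) ∧
        (p : 𝓞 K) ∈ P p ∧
        ∀ n m, σ p n = σ p m → n % p = m % p ∧ ∀ i, w n i - w m i ∈ P p := by
  have h : ∀ p : ℕ, ∃ (P : Ideal (𝓞 K)) (σ : ℕ → Fin ((Q + 1) ^ (r * Module.finrank ℚ K + 1))),
      p ≤ Q → p.Prime → P.IsPrime ∧ (∀ x ∈ P, (p : ℤ) ∣ Algebra.norm ℤ x) ∧
        (p : 𝓞 K) ∈ P ∧ ∀ n m, σ n = σ m → n % p = m % p ∧ ∀ i, w n i - w m i ∈ P := by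
    intro p
    by_cases hp : p ≤ Q ∧ p.Prime
    · obtain ⟨P, hP, hmem, hfin, hcard, hnorm⟩ := exists_over K p hp.2
      obtain ⟨σ, hσ⟩ := win_state w hp.2 hp.1 P hfin hcard
      exact ⟨P, σ, fun _ _ => ⟨hP.isPrime, hnorm, hmem, hσ⟩⟩
    · exact ⟨⊤, fun _ => ⟨0, pow_pos (Nat.succ_pos _) _⟩, fun h1 h2 => absurd ⟨h1, h2⟩ hp⟩
  choose P σ h using h
  exact ⟨P, σ, fun p h1 h2 => h p h1 h2⟩

/-- Two segments of the orbit with the same state at the start are proportional modulo `P`. -/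
theorem win_prp {R : Type*} [CommRing R] {r d c : ℕ} {G : ℕ → Fin r → MvPolynomial (Fin r) R}
    (hG : ∀ k i, (G k i).IsHomogeneous d) (w : ℕ → Fin r → R) (j : ℕ → Fin r)
    (hcross : ∀ n i i', eval (w n) (winForm c G n i) * w (n + 1) i' =
      eval (w n) (winForm c G n i') * w (n + 1) i)
    {P : Ideal R} [P.IsPrime] {n m s : ℕ} (hnm : (n : R) - m ∈ P) (h0 : ∀ i, w n i - w m i ∈ P)
    (hn : ∀ i < s, w (n + i) (j (n + i)) ∉ P ∧
      eval (w (n + i)) (winForm c G (n + i) (j (n + i + 1))) ∉ P)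
    (hm : ∀ i < s, w (m + i) (j (m + i)) ∉ P ∧
      eval (w (m + i)) (winForm c G (m + i) (j (m + i + 1))) ∉ P) :
    ∀ i < s, Prp P (w (n + i)) (w (m + i)) := by
  intro i
  induction i with
  | zero => exact fun _ => Prp.of_sub h0
  | succ i ih =>
    intro hi
    have hi' : i < s := by omega
    have h1 := ih hi'
    have h2 : Prp P (fun i' => eval (w (n + i)) (winForm c G (n + i) i'))
        (fun i' => eval (w (m + i)) (winForm c G (m + i) i')) := by
      refine Prp.eval (winForm_hom c hG _) (winForm_hom c hG _) (fun z i' => ?_) h1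
      rw [winForm_eval, winForm_eval, ← Finset.sum_sub_distrib]
      refine Ideal.sum_mem _ fun k _ => ?_
      rw [← sub_mul]
      refine Ideal.mul_mem_right _ _ ?_
      refine Ideal.mem_of_dvd _ (sub_dvd_pow_sub_pow _ _ k) ?_
      have e : ((n + i : ℕ) : R) - ((m + i : ℕ) : R) = (n : R) - m := by
        push_cast
        ring
      rw [e]
      exact hnm
    have h3 : Prp P (fun i' => eval (w (n + i)) (winForm c G (n + i) i')) (w (n + (i + 1))) :=
      Prp.of_cross (fun a b => hcross (n + i) a b) ⟨_, (hn i hi').2⟩ ⟨_, (hn (i + 1) hi).1⟩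
    have h4 : Prp P (fun i' => eval (w (m + i)) (winForm c G (m + i) i')) (w (m + (i + 1))) :=
      Prp.of_cross (fun a b => hcross (m + i) a b) ⟨_, (hm i hi').2⟩ ⟨_, (hm (i + 1) hi).1⟩
    exact (h3.symm.trans h2).trans h4

/-- The numerical condition. -/
theorem win_num {D R1 d c s T L lC lc lT : ℝ} (hD : 0 ≤ D) (hR : 0 ≤ R1) (hd : 0 ≤ d) (hc : 0 ≤ c)
    (hs : 0 ≤ s) (hL : 0 ≤ L) (hlC : 0 ≤ lC) (hlc : 0 ≤ lc) (hlT : 1 ≤ lT) (hT : T ≤ lT) :
    D * (s * (lC + c * T + (d + 1) * (R1 * L)) + (lc + 2 * (s * Real.log 2) + 2 * (s * (R1 * L)))) ≤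
      (D * (R1 * (d + 1) + lC + c + lc + 2 + 2 * R1)) * (s + 1) * (L + lT) := by
  have h2 : Real.log 2 ≤ 1 := by
    have := Real.log_two_lt_d9
    linarith
  have h20 : 0 ≤ Real.log 2 := Real.log_nonneg (by norm_num)
  have e1 : s * lC ≤ lC * ((s + 1) * (L + lT)) := by
    have : s * 1 ≤ (s + 1) * (L + lT) := mul_le_mul (by linarith) (by linarith) (by norm_num) (by linarith)
    nlinarith
  have hST : 0 ≤ (s + 1) * (L + lT) := by positivity
  have e2 : s * (c * T) ≤ c * ((s + 1) * (L + lT)) := by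
    have h3 : s * T ≤ (s + 1) * (L + lT) := by
      have h4 : s * T ≤ s * lT := mul_le_mul_of_nonneg_left hT hs
      nlinarith
    nlinarith
  have e3 : s * (R1 * L) ≤ R1 * ((s + 1) * (L + lT)) := by
    have h3 : s * L ≤ (s + 1) * (L + lT) := by nlinarith
    nlinarith
  have e4 : lc ≤ lc * ((s + 1) * (L + lT)) := by
    have h3 : 1 ≤ (s + 1) * (L + lT) := by nlinarith
    nlinarith
  have e5 : s * Real.log 2 ≤ (s + 1) * (L + lT) := by
    have : s * Real.log 2 ≤ s * 1 := mul_le_mul_of_nonneg_left h2 hs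
    nlinarith
  have e6 : (d + 1) * (s * (R1 * L)) ≤ (d + 1) * (R1 * ((s + 1) * (L + lT))) :=
    mul_le_mul_of_nonneg_left e3 (by linarith)
  have h : s * (lC + c * T + (d + 1) * (R1 * L)) +
      (lc + 2 * (s * Real.log 2) + 2 * (s * (R1 * L))) ≤
      (R1 * (d + 1) + lC + c + lc + 2 + 2 * R1) * ((s + 1) * (L + lT)) := by
    have e7 : s * (lC + c * T + (d + 1) * (R1 * L)) = s * lC + s * (c * T) +
      (d + 1) * (s * (R1 * L)) := by ring
    rw [e7]
    nlinarith
  calc _ ≤ D * ((R1 * (d + 1) + lC + c + lc + 2 + 2 * R1) * ((s + 1) * (L + lT))) :=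
        mul_le_mul_of_nonneg_left h hD
    _ = _ := by ring

/-- The forms `F n = ∑ k ≤ c, n ^ k G k` of degree `d` define a recursion `x (n + 1) = F n (x n)`.
If the heights of the `x n` with `n ≤ T + s` are at most `L` and `θ (Q)` is larger than a constant
times `(s + 1) (L + log (T + s + 2))`, then some combination of the `2 ^ s` products of coordinates
of `x n, ..., x (n + s - 1)` vanishes for all `n ≤ T`. -/
theorem window {K : Type*} [Field K] [NumberField K] {r : ℕ} (d c : ℕ)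
    (G : ℕ → Fin r → MvPolynomial (Fin r) K) (hd : 1 ≤ d)
    (hG : ∀ k i, (G k i).IsHomogeneous d) :
    ∃ C : ℝ, 1 ≤ C ∧ ∀ x : ℕ → Fin r → K, (∀ n, x n ≠ 0) →
      (∀ n i, x (n + 1) i = ∑ k ∈ Finset.range (c + 1), (n : K) ^ k * eval (x n) (G k i)) →
      ∀ (sel : Fin 2 → Fin r) (T s Q : ℕ) (L : ℝ), 0 ≤ L →
        (∀ n ≤ T + s, logHeight (x n) ≤ L) → 1 ≤ s →
        2 * (Q + 1) ^ (r * Module.finrank ℚ K + 2) ≤ 2 ^ s →
        C * (s + 1) * (L + Real.log (T + s + 2)) < Chebyshev.theta Q →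
        ∃ ξ : (Fin s → Fin 2) → K, ξ ≠ 0 ∧
          ∀ n ≤ T, ∑ J, ξ J * ∏ i : Fin s, x (n + i) (sel (J i)) = 0 := by
  classical
  obtain ⟨q, G', hq, hG', hmap⟩ := clear (c := c) G hG
  obtain ⟨C1, hC1, hval⟩ := house_value c G' hG'
  obtain ⟨c0, hc0, hint⟩ := interp K
  have hlC1 : 0 ≤ Real.log C1 := Real.log_nonneg hC1
  have hlc0 : 0 ≤ Real.log c0 := Real.log_nonneg hc0
  have hD1 : (1 : ℝ) ≤ Module.finrank ℚ K := by
    exact_mod_cast (Module.finrank_pos : 0 < Module.finrank ℚ K)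
  refine ⟨Module.finrank ℚ K * (((r : ℝ) + 1) * ((d : ℝ) + 1) + Real.log C1 + c + Real.log c0 + 2 +
    2 * ((r : ℝ) + 1)), ?_, ?_⟩
  · have h1 : (1 : ℝ) ≤ ((r : ℝ) + 1) * ((d : ℝ) + 1) + Real.log C1 + c + Real.log c0 + 2 +
        2 * ((r : ℝ) + 1) := by
      have h2 : 0 ≤ ((r : ℝ) + 1) * ((d : ℝ) + 1) := by positivity
      have h3 : (0 : ℝ) ≤ c := Nat.cast_nonneg c
      have h4 : (0 : ℝ) ≤ r := Nat.cast_nonneg r
      linarith
    nlinarith
  intro x hx hrec sel T s Q L hL hht hs hcard htheta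
  choose cc w hcc hw hhouse using fun n => exists_repr (x n) (hx n)
  have hwa : ∀ n i, algebraMap (𝓞 K) K (w n i) = cc n * x n i := hw
  have hj : ∀ n, ∃ j, x n j ≠ 0 := fun n => by
    by_contra hcon
    push Not at hcon
    exact hx n (funext hcon)
  choose j hj using hj
  have hwj : ∀ n, w n (j n) ≠ 0 := fun n h => by
    have h1 := hwa n (j n)
    rw [h, map_zero] at h1
    exact mul_ne_zero (hcc n) (hj n) h1.symm
  have hq' : (q : K) ≠ 0 := by exact_mod_cast hq
  -- the values of the forms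
  have hF : ∀ n i, algebraMap (𝓞 K) K (eval (w n) (winForm c G' n i)) =
      q * cc n ^ d * x (n + 1) i := by
    intro n i
    rw [winForm_eval, hrec n i, map_sum, Finset.mul_sum]
    refine Finset.sum_congr rfl fun k hk => ?_
    have hk' : k ≤ c := by
      have := Finset.mem_range.1 hk
      omega
    have e1 : algebraMap (𝓞 K) K (eval (w n) (G' k i)) = q * (cc n ^ d * eval (x n) (G k i)) := by
      rw [map_eval, hmap k hk' i, map_mul, eval_C]
      have e2 : (⇑(algebraMap (𝓞 K) K) ∘ w n) = fun a => cc n * x n a := funext fun a => hw n a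
      rw [e2, win_eval_mul (hG k i)]
    rw [map_mul, map_pow, map_natCast, e1]
    ring
  have hcross : ∀ n i i', eval (w n) (winForm c G' n i) * w (n + 1) i' =
      eval (w n) (winForm c G' n i') * w (n + 1) i := by
    intro n i i'
    apply RingOfIntegers.coe_injective
    rw [map_mul, map_mul, hF, hF, hwa, hwa]
    ring
  have hfne : ∀ n, eval (w n) (winForm c G' n (j (n + 1))) ≠ 0 := fun n h => by
    have h1 := hF n (j (n + 1))
    rw [h, map_zero] at h1
    exact mul_ne_zero (mul_ne_zero hq' (pow_ne_zero _ (hcc n))) (hj (n + 1)) h1.symm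
  -- houses
  set W : ℝ := Real.exp (((r : ℝ) + 1) * L) with hWdef
  have hW1 : 1 ≤ W := Real.one_le_exp (by positivity)
  have hW0 : 0 ≤ W := by linarith
  have hwW : ∀ n ≤ T + s, ∀ i, house ((w n i : 𝓞 K) : K) ≤ W := by
    intro n hn i
    refine (hhouse n i).trans (Real.exp_le_exp.2 ?_)
    exact mul_le_mul_of_nonneg_left (hht n hn) (by positivity)
  set B1 : ℝ := C1 * ((T : ℝ) + s + 1) ^ c * W ^ (d + 1) with hB1def
  have hTs : (1 : ℝ) ≤ (T : ℝ) + s + 1 := by
    have h3 : (0 : ℝ) ≤ T := Nat.cast_nonneg T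
    have h4 : (0 : ℝ) ≤ s := Nat.cast_nonneg s
    linarith
  have hB11 : 1 ≤ B1 := by
    rw [hB1def]
    have h1 : (1 : ℝ) ≤ ((T : ℝ) + s + 1) ^ c := one_le_pow₀ hTs
    have h2 : (1 : ℝ) ≤ W ^ (d + 1) := one_le_pow₀ hW1
    exact one_le_mul_of_one_le_of_one_le (one_le_mul_of_one_le_of_one_le hC1 h1) h2
  have hfac : ∀ n ≤ T + s, house (((w n (j n) * eval (w n) (winForm c G' n (j (n + 1))) :
      𝓞 K) : 𝓞 K) : K) ≤ B1 := by
    intro n hn
    rw [RingOfIntegers.coe_eq_algebraMap, map_mul]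
    refine (house_mul_le _ _).trans ?_
    have h1 := hwW n hn (j n)
    have h2 := hval n (w n) W hW1 (hwW n hn) (j (n + 1))
    rw [← winForm_eval] at h2
    have h3 : C1 * ((n : ℝ) + 1) ^ c * W ^ d ≤ C1 * ((T : ℝ) + s + 1) ^ c * W ^ d := by
      have h4 : (n : ℝ) + 1 ≤ (T : ℝ) + s + 1 := by
        have : (n : ℝ) ≤ ((T + s : ℕ) : ℝ) := by exact_mod_cast hn
        push_cast at this
        linarith
      gcongr
    calc house ((w n (j n) : 𝓞 K) : K) *
          house ((eval (w n) (winForm c G' n (j (n + 1))) : 𝓞 K) : K)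
        ≤ W * (C1 * ((T : ℝ) + s + 1) ^ c * W ^ d) :=
          mul_le_mul h1 (h2.trans h3) (house_nonneg _) hW0
      _ = B1 := by rw [hB1def]; ring
  -- states
  obtain ⟨P, σ, hPσ⟩ := win_states K w Q
  set β : ℕ → 𝓞 K := fun n => ∏ i ∈ Finset.range s,
    (w (n + i) (j (n + i)) * eval (w (n + i)) (winForm c G' (n + i) (j (n + i + 1)))) with hβ
  have hβP : ∀ (I : Ideal (𝓞 K)) n, β n ∉ I → ∀ i < s, w (n + i) (j (n + i)) ∉ I ∧
      eval (w (n + i)) (winForm c G' (n + i) (j (n + i + 1))) ∉ I := by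
    intro I n h i hi
    have hdvd := Finset.dvd_prod_of_mem (fun i => w (n + i) (j (n + i)) *
      eval (w (n + i)) (winForm c G' (n + i) (j (n + i + 1)))) (Finset.mem_range.2 hi)
    refine ⟨fun h1 => h (Ideal.mem_of_dvd _ hdvd (Ideal.mul_mem_right _ _ h1)),
      fun h1 => h (Ideal.mem_of_dvd _ hdvd (Ideal.mul_mem_left _ _ h1))⟩
  have k1 : 2 * ((Q + 1) * (Q + 1) ^ (r * Module.finrank ℚ K + 1)) ≤ Fintype.card (Fin s → Fin 2) := by
    -- number of states
    simp only [Fintype.card_fun, Fintype.card_fin]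
    refine le_trans (le_of_eq ?_) hcard
    ring
  have k2 : ∀ n ≤ T, ∀ J : Fin s → Fin 2, house (((∏ i : Fin s, w (n + i) (sel (J i)) : 𝓞 K) : 𝓞 K) : K) ≤ W ^ s := by
    -- houses of `M`
    intro n hn J
    have h1 := win_house_prod (K := K) (Finset.univ : Finset (Fin s))
      (fun i => w (n + i) (sel (J i))) W hW0 (fun i _ => hwW _ (by have := i.2; omega) _)
    rwa [Finset.card_univ, Fintype.card_fin] at h1
  have k3 : ∀ n ≤ T, β n ≠ 0 ∧ house ((β n : 𝓞 K) : K) ≤ B1 ^ s := by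
    -- `β`
    intro n hn
    refine ⟨Finset.prod_ne_zero_iff.2 fun i _ => mul_ne_zero (hwj _) (hfne _), ?_⟩
    have h1 := win_house_prod (K := K) (Finset.range s)
      (fun i => w (n + i) (j (n + i)) * eval (w (n + i)) (winForm c G' (n + i) (j (n + i + 1))))
      B1 (by linarith) (fun i hi => hfac (n + i) (by have := Finset.mem_range.1 hi; omega))
    rwa [Finset.card_range] at h1
  have k4 : ∀ p ≤ Q, p.Prime → ∀ n ≤ T, ∀ m ≤ T, σ p n = σ p m → β n ∉ P p → β m ∉ P p →
      ∃ a ∉ P p, ∃ b, ∀ J : Fin s → Fin 2, a * (∏ i : Fin s, w (n + i) (sel (J i))) -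
        b * (∏ i : Fin s, w (m + i) (sel (J i))) ∈ P p := by
    -- proportional
    intro p hp hpp n _ m _ hσ hbn hbm
    obtain ⟨hprime, -, hpmem, hst⟩ := hPσ p hp hpp
    obtain ⟨hmod, hwm⟩ := hst n m hσ
    have hnm : (n : 𝓞 K) - m ∈ P p := by
      have h1 : (p : ℤ) ∣ (n : ℤ) - m := by
        have h2 : (m : ℤ) ≡ n [ZMOD p] := by
          rw [Int.ModEq]
          exact_mod_cast hmod.symm
        exact h2.dvd
      obtain ⟨t, ht⟩ := h1
      have h3 : (n : 𝓞 K) - m = p * (t : 𝓞 K) := by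
        have h4 := congrArg (Int.cast : ℤ → 𝓞 K) ht
        push_cast at h4
        exact h4
      rw [h3]
      exact Ideal.mul_mem_right _ _ hpmem
    have h1 := win_prp hG' w j hcross hnm hwm (hβP _ n hbn) (hβP _ m hbm)
    obtain ⟨u, hu, v, -, h2⟩ := Prp.prod (P := P p) (s := s) (a := fun i => w (n + i))
      (b := fun i => w (m + i)) (fun i => h1 i i.2) sel
    exact ⟨u, hu, v, h2⟩
  have k5 : Module.finrank ℚ K * (Real.log (B1 ^ s) + Real.log (c0 * (Fintype.card (Fin s → Fin 2) : ℝ) ^ 2 *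
      (W ^ s) ^ 2)) < Chebyshev.theta Q := by
    -- the numerical condition
    refine lt_of_le_of_lt ?_ htheta
    have hs0 : (0 : ℝ) ≤ s := Nat.cast_nonneg s
    have hT0 : (0 : ℝ) ≤ T := Nat.cast_nonneg T
    have hs1 : (1 : ℝ) ≤ s := by exact_mod_cast hs
    have hlogW : Real.log W = ((r : ℝ) + 1) * L := Real.log_exp _
    have hWp : 0 < W := by linarith
    have hTsp : (0 : ℝ) < (T : ℝ) + s + 1 := by linarith
    have e1 : Real.log (B1 ^ s) = s * (Real.log C1 + c * Real.log ((T : ℝ) + s + 1) +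
        (d + 1) * (((r : ℝ) + 1) * L)) := by
      rw [Real.log_pow, hB1def, Real.log_mul (by positivity) (by positivity),
        Real.log_mul (by positivity) (by positivity), Real.log_pow, Real.log_pow, hlogW]
      push_cast
      ring
    have e2 : Real.log (c0 * (Fintype.card (Fin s → Fin 2) : ℝ) ^ 2 * (W ^ s) ^ 2) =
        Real.log c0 + 2 * (s * Real.log 2) + 2 * (s * (((r : ℝ) + 1) * L)) := by
      rw [Fintype.card_fun, Fintype.card_fin, Fintype.card_fin]
      push_cast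
      rw [Real.log_mul (by positivity) (by positivity), Real.log_mul (by positivity) (by positivity),
        Real.log_pow, Real.log_pow, Real.log_pow, Real.log_pow, hlogW]
      push_cast
      ring
    rw [e1, e2]
    have h3 : 1 ≤ Real.log ((T : ℝ) + s + 2) := by
      rw [Real.le_log_iff_exp_le (by linarith)]
      have := Real.exp_one_lt_d9
      linarith
    have h4 : Real.log ((T : ℝ) + s + 1) ≤ Real.log ((T : ℝ) + s + 2) :=
      Real.log_le_log hTsp (by linarith)
    have h5 := win_num (D := Module.finrank ℚ K) (R1 := (r : ℝ) + 1) (d := d) (c := c) (s := s)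
      (T := Real.log ((T : ℝ) + s + 1)) (L := L) (lC := Real.log C1) (lc := Real.log c0)
      (lT := Real.log ((T : ℝ) + s + 2)) (by linarith) (by positivity) (Nat.cast_nonneg d)
      (Nat.cast_nonneg c) hs0 hL hlC1 hlc0 h3 h4
    exact h5
  obtain ⟨ξ, hξ, hsum⟩ := hint (Fin s → Fin 2)
    (fun n J => ∏ i : Fin s, w (n + i) (sel (J i))) β P _ σ T Q (W ^ s) (B1 ^ s)
    (one_le_pow₀ hW1) (one_le_pow₀ hB11) (pow_pos (Nat.succ_pos _) _) k1
    (fun p hp hpp => ⟨(hPσ p hp hpp).1, (hPσ p hp hpp).2.1⟩) k2 k3 k4 k5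
  refine ⟨fun J => (ξ J : K), ?_, ?_⟩
  · intro h
    apply hξ
    funext J
    have h1 : algebraMap (𝓞 K) K (ξ J) = 0 := congrFun h J
    apply RingOfIntegers.coe_injective
    rw [h1, Pi.zero_apply, map_zero]
  · intro n hn
    have h1 := congrArg (algebraMap (𝓞 K) K) (hsum n hn)
    rw [map_sum, map_zero] at h1
    have h2 : ∀ J : Fin s → Fin 2, algebraMap (𝓞 K) K
        ((∏ i : Fin s, w (n + i) (sel (J i))) * ξ J) =
        (∏ i : Fin s, cc (n + i)) * ((ξ J : K) * ∏ i : Fin s, x (n + i) (sel (J i))) := by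
      intro J
      rw [map_mul, map_prod]
      have h3 : ∏ i : Fin s, algebraMap (𝓞 K) K (w (n + i) (sel (J i))) =
          (∏ i : Fin s, cc (n + i)) * ∏ i : Fin s, x (n + i) (sel (J i)) := by
        rw [← Finset.prod_mul_distrib]
        exact Finset.prod_congr rfl fun i _ => hw _ _
      rw [h3]
      ring
    simp only [h2] at h1
    rw [← Finset.mul_sum] at h1
    exact (mul_eq_zero.1 h1).resolve_left (Finset.prod_ne_zero_iff.2 fun i _ => hcc _)

end Pool.Agent.H.MP_31a675_nt.G
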