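import Pool.Agent.H.MP_31a675_nt.G.AlgA
import Pool.Agent.H.MP_31a675_nt.G.Window
import Pool.Agent.H.MP_31a675_nt.G.Indep
import Pool.Agent.H.MP_31a675_nt.G.Endgame
import Pool.Agent.H.MP_31a675_nt.G.BezP
import Pool.Agent.H.MP_31a675_nt.G.Params

/-!
# Heights along dense orbits of rational self-maps of the plane
-/

namespace Pool.Agent.H.MP_31a675_nt.G

open MvPolynomial NumberField Height

theorem mainA_orb_succ {K : Type*} [Field K] (F : Fin 3 → MvPolynomial (Fin 3) K)
    (x : Fin 3 → K) (n : ℕ) (i : Fin 3) :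
    orb F x (n + 1) i = eval (orb F x n) (F i) := by
  have h : orb F x (n + 1) = ev F (orb F x n) := Function.iterate_succ_apply' _ _ _
  rw [h]
  rfl

/-- Substituting forms of degree `d` in a form of degree `k`. -/
theorem mainA_hom {K : Type*} [Field K] (F : Fin 3 → MvPolynomial (Fin 3) K) (d : ℕ)
    (hF : ∀ i, (F i).IsHomogeneous d) (G : MvPolynomial (Fin 3) K) (k : ℕ)
    (hG : G.IsHomogeneous k) : (aeval F G).IsHomogeneous (d * k) := by
  exact hG.aeval F hF

theorem mainA_geom (d : ℕ) (hd : 2 ≤ d) (s : ℕ) : ∑ i : Fin s, d ^ (i : ℕ) ≤ d ^ s := by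
  rw [Fin.sum_univ_eq_sum_range (fun i => d ^ i) s]
  exact (Nat.geomSum_lt hd (fun k hk => Finset.mem_range.mp hk)).le

/-- **The height gap.** For a dominant rational self-map of the plane over `K` of degree `d ≥ 2`
which is not birational, and every dense orbit, the maximum of the heights of the first `T` points is
larger than `T ^ γ` for all `T ≥ T₀`, where `γ` depends only on `d` and the degree of `K`, and `T₀` only
on the map. -/
theorem gapPlane {K : Type*} [Field K] [NumberField K] (d : ℕ) (hd : 2 ≤ d)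
    (F : Fin 3 → MvPolynomial (Fin 3) K) (hF : ∀ i, (F i).IsHomogeneous d)
    (hdom : AlgebraicIndependent K F) (hbir : ¬ Birational F) :
    ∃ T₀ : ℕ, ∀ x : Fin 3 → K, (∀ n, orb F x n ≠ 0) → DensePlane F x → ∀ T, T₀ ≤ T →
      ∃ n ≤ T, (T : ℝ) ^ (1 / (16 * (3 * (Module.finrank ℚ K : ℝ) + 2) * Nat.clog 2 d)) <
        logHeight (orb F x n) := by
  classical
  obtain ⟨j, hj0, hNR⟩ := exists_pair F hdom hbir
  obtain ⟨C₁, hC₁, hwin⟩ := window (K := K) d 0 (fun _ i => F i) (by omega) (fun _ i => hF i)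
  obtain ⟨T₀, hT₀⟩ := params (3 * Module.finrank ℚ K + 2) d (by omega) hd C₁ hC₁
  refine ⟨T₀, fun x h0 hx T hT => ?_⟩
  by_contra hcon
  push Not at hcon
  obtain ⟨s, Q, hs1, hs2, hQ, hT', hθ⟩ := hT₀ T hT
  have hsT : T - s + s = T := by omega
  set L : ℝ := (T : ℝ) ^ (1 / (16 * (3 * (Module.finrank ℚ K : ℝ) + 2) * Nat.clog 2 d)) with hL
  have hL0 : 0 ≤ L := Real.rpow_nonneg (Nat.cast_nonneg _) _
  obtain ⟨ξ, hξ, hrel⟩ := hwin (orb F x) h0
    (fun n i => by
      rw [mainA_orb_succ]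
      simp)
    ![0, j] (T - s) s Q L hL0
    (fun n hn => hcon n (by omega)) hs1 hQ
    (by
      have h1 : (((T - s : ℕ) : ℝ) + (s : ℝ) + 2) = (T : ℝ) + 2 := by
        rw [← Nat.cast_add, hsT]
      rw [h1, hL]
      push_cast at hθ
      exact hθ)
  set Φ : MvPolynomial (Fin 3) K :=
    ∑ J, C (ξ J) * ∏ i : Fin s, itp F i ((![0, j] : Fin 2 → Fin 3) (J i)) with hΦdef
  have hprod : ∀ (t : ℕ) (J : Fin t → Fin 2),
      (∏ i : Fin t, itp F i ((![0, j] : Fin 2 → Fin 3) (J i))).IsHomogeneous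
        (∑ i : Fin t, d ^ (i : ℕ)) := by
    intro t J
    exact IsHomogeneous.prod _ _ _ (fun i _ => itp_hom F d hF i _)
  have hΦhom : Φ.IsHomogeneous (∑ i : Fin s, d ^ (i : ℕ)) := by
    refine IsHomogeneous.sum _ _ _ (fun J _ => ?_)
    have := (isHomogeneous_C (Fin 3) (ξ J)).mul (hprod s J)
    rwa [zero_add] at this
  have hΦ0 : Φ ≠ 0 := by
    intro h
    apply hξ
    refine indep F ![0, j]
      (fun t => homogeneousSubmodule (Fin 3) K (∑ i : Fin t, d ^ (i : ℕ))) ?_ ?_ s ξ h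
    · intro t J
      rw [mem_homogeneousSubmodule]
      exact hprod t J
    · intro t A hA B hB hAB
      rw [mem_homogeneousSubmodule] at hA hB
      exact hNR _ A B hA hB hAB
  have hΦv : ∀ n ≤ T - s, eval (orb F x n) Φ = 0 := by
    intro n hn
    rw [← hrel n hn, hΦdef, map_sum]
    refine Finset.sum_congr rfl fun J _ => ?_
    rw [map_mul, eval_C, map_prod]
    congr 1
    refine Finset.prod_congr rfl fun i _ => ?_
    rw [eval_itp, orb_add]
  obtain ⟨G, hG0, hGw, n₀, hn₀⟩ := endgame (1 : Fin 3 → ℕ) F x d (by omega)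
    (by
      rintro G hG ⟨k, hk⟩
      have hk' : G.IsHomogeneous k := hk
      have h1 : aeval F G ≠ 0 := by
        intro h
        exact hG ((injective_iff_map_eq_zero _).mp hdom G h)
      refine ⟨h1, ⟨d * k, mainA_hom F d hF G k hk'⟩, ?_⟩
      rw [hk'.totalDegree hG]
      exact (mainA_hom F d hF G k hk').totalDegree_le)
    (by
      rintro A B hA hB hAB ⟨a, ha⟩ ⟨b, hb⟩ S hS
      have ha' : A.IsHomogeneous a := ha
      have hb' : B.IsHomogeneous b := hb
      rw [ha'.totalDegree hA, hb'.totalDegree hB]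
      have := bezout A B a b ha' hb' hA hB hAB S (orb F x) (fun i _ => h0 i)
        (fun i _ j _ hij => dense_inj F d hF x h0 hx i j hij)
        (fun i hi => (hS i hi).1) (fun i hi => (hS i hi).2)
      omega)
    (d ^ s) (T - s) Φ hΦ0 ⟨_, hΦhom⟩ (hΦhom.totalDegree_le.trans (mainA_geom d hd s)) hΦv hT'
  exact not_eventually F x h0 hx G hG0 hGw n₀ hn₀

end Pool.Agent.H.MP_31a675_nt.G
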