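import Pool.Agent.H.MP_31a675_nt.G.Defs

/-!
# Expansion of the values at `t + n` in powers of `n`
-/

namespace Pool.Agent.H.MP_31a675_nt.G

open MvPolynomial

/-- Substitution of `t + X` for the first variable. -/
noncomputable def winBSub {K : Type*} [Field K] (t : K) :
    MvPolynomial (Fin 3) K →ₐ[K] Polynomial (MvPolynomial (Fin 2) K) :=
  aeval (Fin.cons (Polynomial.X + Polynomial.C (C t)) (fun j => Polynomial.C (X j)))

theorem winB_eval₂ {K : Type*} [Field K] (t s : K) (y : Fin 2 → K) (P : MvPolynomial (Fin 3) K) :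
    Polynomial.eval₂ (eval y) s (winBSub t P) = eval (Fin.cons (t + s) y) P := by
  have h : (Polynomial.eval₂RingHom (eval y) s).comp (winBSub t).toRingHom =
      eval (Fin.cons (t + s) y : Fin 3 → K) := by
    apply MvPolynomial.ringHom_ext
    · intro a
      simp [winBSub, Polynomial.algebraMap_apply]
    · intro i
      refine Fin.cases ?_ (fun j => ?_) i
      · simp [winBSub, add_comm]
      · simp [winBSub]
  have h2 := DFunLike.congr_fun h P
  simpa using h2

theorem winB_mono {K : Type*} [Field K] (t a : K) (m : Fin 3 →₀ ℕ) (k : ℕ) :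
    (winBSub t (monomial m a)).coeff k =
      C (t ^ (m 0 - k) * ((m 0).choose k : K) * a) * (X 0 ^ m 1 * X 1 ^ m 2) := by
  have h : winBSub t (monomial m a) =
      (Polynomial.X + Polynomial.C (C t)) ^ m 0 * Polynomial.C (C a * (X 0 ^ m 1 * X 1 ^ m 2)) := by
    rw [winBSub, aeval_monomial, Finsupp.prod_fintype _ _ (by intro i; simp), Fin.prod_univ_three]
    have e1 : (Fin.cons (Polynomial.X + Polynomial.C (C t)) (fun j => Polynomial.C (X j)) :
        Fin 3 → Polynomial (MvPolynomial (Fin 2) K)) 1 = Polynomial.C (X 0) := rfl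
    have e2 : (Fin.cons (Polynomial.X + Polynomial.C (C t)) (fun j => Polynomial.C (X j)) :
        Fin 3 → Polynomial (MvPolynomial (Fin 2) K)) 2 = Polynomial.C (X 1) := rfl
    rw [e1, e2, Fin.cons_zero, Polynomial.algebraMap_apply]
    simp only [MvPolynomial.algebraMap_eq, map_mul, map_pow]
    ring
  rw [h, Polynomial.coeff_mul_C, Polynomial.coeff_X_add_C_pow]
  simp only [map_mul, map_pow, map_natCast]
  ring

theorem winB_coeff {K : Type*} [Field K] (t : K) (P : MvPolynomial (Fin 3) K) (d : ℕ)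
    (hP : IsWeightedHomogeneous wY P d) (k : ℕ) : ((winBSub t P).coeff k).IsHomogeneous d := by
  rw [P.as_sum, map_sum, Polynomial.finset_sum_coeff]
  apply IsHomogeneous.sum
  intro m hm
  rw [winB_mono]
  have hw := hP (mem_support_iff.mp hm)
  rw [Finsupp.weight_apply, Finsupp.sum_fintype _ _ (by intro i; simp), Fin.sum_univ_three] at hw
  have hw2 : m 1 + m 2 = d := by
    simpa [wY] using hw
  have h1 : (C (t ^ (m 0 - k) * ((m 0).choose k : K) * coeff m P) *
      (X 0 ^ m 1 * X 1 ^ m 2) : MvPolynomial (Fin 2) K).IsHomogeneous (0 + (1 * m 1 + 1 * m 2)) :=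
    (isHomogeneous_C _ _).mul (((isHomogeneous_X K (0 : Fin 2)).pow _).mul
      ((isHomogeneous_X K (1 : Fin 2)).pow _))
  rw [← hw2]
  simpa using h1

/-- The values `F (t + n, y)` are polynomials in `n` whose coefficients are forms of degree `d` in
`y`. -/
theorem expand {K : Type*} [Field K] (F : Fin 2 → MvPolynomial (Fin 3) K) (d : ℕ)
    (hF : ∀ i, IsWeightedHomogeneous wY (F i) d) (t : K) :
    ∃ (c : ℕ) (G : ℕ → Fin 2 → MvPolynomial (Fin 2) K), (∀ k i, (G k i).IsHomogeneous d) ∧
      ∀ (n : ℕ) (y : Fin 2 → K) (i : Fin 2), eval (Fin.cons (t + n) y) (F i) =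
        ∑ k ∈ Finset.range (c + 1), (n : K) ^ k * eval y (G k i) := by
  refine ⟨(winBSub t (F 0)).natDegree + (winBSub t (F 1)).natDegree,
    fun k i => (winBSub t (F i)).coeff k, fun k i => winB_coeff t (F i) d (hF i) k, ?_⟩
  intro n y i
  rw [← winB_eval₂, Polynomial.eval₂_eq_sum_range' (eval y)
    (n := (winBSub t (F 0)).natDegree + (winBSub t (F 1)).natDegree + 1)]
  · exact Finset.sum_congr rfl fun k _ => mul_comm _ _
  · fin_cases i
    · simp only [Fin.zero_eta]; omega
    · simp only [Fin.mk_one]; omega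

end Pool.Agent.H.MP_31a675_nt.G
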