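import Pool.Agent.H.MP_31a675_nt.G.Window
import Pool.Agent.H.MP_31a675_nt.G.Indep
import Pool.Agent.H.MP_31a675_nt.G.Endgame
import Pool.Agent.H.MP_31a675_nt.G.Params
import Pool.Agent.H.MP_31a675_nt.G.WinB
import Pool.Agent.H.MP_31a675_nt.G.HtRec
import Pool.Agent.H.MP_31a675_nt.G.DegB
import Pool.Agent.H.MP_31a675_nt.G.AlgB
import Pool.Agent.H.MP_31a675_nt.G.NRB

/-!
# Arithmetic degrees for rational maps over a translation
-/

namespace Pool.Agent.H.MP_31a675_nt.G

open MvPolynomial NumberField Height Filter Topology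

section Algebra

variable {K : Type*} [Field K]

theorem MB_itp_succ (F : Fin 2 → MvPolynomial (Fin 3) K) (n : ℕ) (i : Fin 3) :
    itp (skew F) (n + 1) i = aeval (skew F) (itp (skew F) n i) := by
  unfold itp
  rw [Function.iterate_succ_apply']

theorem MB_itp_totalDegree (F : Fin 2 → MvPolynomial (Fin 3) K) (E : ℕ) (hE : 1 ≤ E)
    (hF : ∀ i, (F i).totalDegree ≤ E) (n : ℕ) (i : Fin 3) :
    (itp (skew F) n i).totalDegree ≤ E ^ n := by
  induction n with
  | zero =>
    show (X i : MvPolynomial (Fin 3) K).totalDegree ≤ E ^ 0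
    rw [totalDegree_X, pow_zero]
  | succ n ih =>
    rw [MB_itp_succ, pow_succ']
    exact (totalDegree_skew F E hE hF _).trans (Nat.mul_le_mul_left _ ih)

/-- The polynomial given by the relation. -/
noncomputable def MB_Phi (F : Fin 2 → MvPolynomial (Fin 3) K) {s : ℕ}
    (ξ : (Fin s → Fin 2) → K) : MvPolynomial (Fin 3) K :=
  ∑ J, C (ξ J) * ∏ i : Fin s, itp (skew F) i (J i).succ

theorem MB_Phi_eval (F : Fin 2 → MvPolynomial (Fin 3) K) {s : ℕ} (ξ : (Fin s → Fin 2) → K)
    (x : Fin 3 → K) (n : ℕ) : eval (orb (skew F) x n) (MB_Phi F ξ) =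
      ∑ J, ξ J * ∏ i : Fin s, yo F x (n + i) (J i) := by
  unfold MB_Phi
  rw [map_sum]
  refine Finset.sum_congr rfl fun J _ => ?_
  rw [map_mul, eval_C, map_prod]
  congr 1
  refine Finset.prod_congr rfl fun i _ => ?_
  rw [eval_itp, ← orb_add]
  rfl

theorem MB_prod_hom (F : Fin 2 → MvPolynomial (Fin 3) K) (d : ℕ)
    (hF : ∀ i, IsWeightedHomogeneous wY (F i) d) (s : ℕ) (J : Fin s → Fin 2) :
    IsWeightedHomogeneous wY (∏ i : Fin s, itp (skew F) i (J i).succ) (∑ i : Fin s, d ^ (i : ℕ)) :=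
  IsWeightedHomogeneous.prod _ _ _ fun i _ => itp_line_hom F d hF i (J i)

theorem MB_Phi_hom (F : Fin 2 → MvPolynomial (Fin 3) K) (d : ℕ)
    (hF : ∀ i, IsWeightedHomogeneous wY (F i) d) {s : ℕ} (ξ : (Fin s → Fin 2) → K) :
    IsWeightedHomogeneous wY (MB_Phi F ξ) (∑ i : Fin s, d ^ (i : ℕ)) := by
  unfold MB_Phi
  exact IsWeightedHomogeneous.sum _ _ _ fun J _ => (MB_prod_hom F d hF s J).C_mul _

theorem MB_Phi_totalDegree (F : Fin 2 → MvPolynomial (Fin 3) K) (E : ℕ) (hE : 2 ≤ E)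
    (hF : ∀ i, (F i).totalDegree ≤ E) {s : ℕ} (ξ : (Fin s → Fin 2) → K) :
    (MB_Phi F ξ).totalDegree ≤ E ^ s := by
  unfold MB_Phi
  refine totalDegree_finsetSum_le fun J _ => ?_
  refine (totalDegree_mul _ _).trans ?_
  rw [totalDegree_C, zero_add]
  refine (totalDegree_finsetProd _ _).trans ?_
  calc ∑ i : Fin s, (itp (skew F) i (J i).succ).totalDegree ≤ ∑ i : Fin s, E ^ (i : ℕ) :=
        Finset.sum_le_sum fun i _ => MB_itp_totalDegree F E (by omega) hF i _
    _ = ∑ i ∈ Finset.range s, E ^ i := (Finset.sum_range fun i => E ^ i).symm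
    _ ≤ E ^ s := (Nat.geomSum_lt hE fun k hk => Finset.mem_range.1 hk).le

theorem MB_Phi_ne (F : Fin 2 → MvPolynomial (Fin 3) K) (d : ℕ) (hd : 2 ≤ d)
    (hF : ∀ i, IsWeightedHomogeneous wY (F i) d) (hcop : IsRelPrime (F 0) (F 1)) {s : ℕ}
    (ξ : (Fin s → Fin 2) → K) (hξ : ξ ≠ 0) : MB_Phi F ξ ≠ 0 := by
  intro h0
  refine hξ (indep (skew F) Fin.succ
    (fun s => weightedHomogeneousSubmodule K wY (∑ i : Fin s, d ^ (i : ℕ)))
    (fun s J => MB_prod_hom F d hF s J) (fun s A hA B hB h => ?_) s ξ h0)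
  exact nr_line F d hd hF (ne_zero_of_isRelPrime F d (by omega) hF hcop) hcop _ A B hA hB h

end Algebra

variable {K : Type*} [Field K] [NumberField K]

/-- Logarithms are eventually smaller than powers. -/
theorem MB_eventually (B S γ : ℝ) (hγ : 0 < γ) :
    ∀ᶠ T : ℕ in atTop, |B| * Real.log ((T : ℝ) + 2) + S ≤ (T : ℝ) ^ γ := by
  have h1 : (fun x : ℝ => 2 * |B| * Real.log x + S) =o[atTop] fun x : ℝ => x ^ γ := by
    refine ((isLittleO_log_rpow_atTop hγ).const_mul_left (2 * |B|)).add ?_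
    exact Asymptotics.isLittleO_const_left.2
      (Or.inr (tendsto_norm_atTop_atTop.comp (tendsto_rpow_atTop hγ)))
  have h2 := h1.bound (show (0 : ℝ) < 1 by norm_num)
  have h3 : ∀ᶠ x : ℝ in atTop, |B| * Real.log (x + 2) + S ≤ x ^ γ := by
    filter_upwards [h2, eventually_ge_atTop (2 : ℝ)] with x hx hx2
    rw [one_mul, Real.norm_eq_abs, Real.norm_eq_abs,
      abs_of_nonneg (Real.rpow_nonneg (by linarith) γ)] at hx
    have h4 : Real.log (x + 2) ≤ 2 * Real.log x := by
      have h5 : (2 : ℝ) * Real.log x = Real.log (x ^ 2) := by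
        rw [Real.log_pow]
        norm_num
      rw [h5]
      exact Real.log_le_log (by linarith) (by nlinarith)
    have h6 : |B| * Real.log (x + 2) ≤ |B| * (2 * Real.log x) :=
      mul_le_mul_of_nonneg_left h4 (abs_nonneg B)
    have h7 := le_abs_self (2 * |B| * Real.log x + S)
    linarith
  exact tendsto_natCast_atTop_atTop.eventually h3

/-- A dense orbit is not slow: if the heights of the `yo F x n` are `O (log n)` then the orbit is not
dense. The proof is that of `gapPlane`: `expand`, `window` with `r = 2`, `params`, `indep` with the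
submodules of polynomials homogeneous in `(y_0, y_1)` and `nr_line`, `endgame` with `bezout_line`,
`not_eventually_line`. -/
theorem slowLine (F : Fin 2 → MvPolynomial (Fin 3) K) (d : ℕ) (hd : 2 ≤ d)
    (hF : ∀ i, IsWeightedHomogeneous wY (F i) d) (hcop : IsRelPrime (F 0) (F 1)) (x : Fin 3 → K)
    (hx : ∀ n, yo F x n ≠ 0) (B : ℝ) (hB : 0 ≤ B) (n₁ : ℕ)
    (h : ∀ n, n₁ ≤ n → logHeight (yo F x n) ≤ B * Real.log ((n : ℝ) + 2)) :
    ¬ DenseLine F x := by
  intro hdense
  have hF0 := ne_zero_of_isRelPrime F d (by omega) hF hcop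
  obtain ⟨c, G, hG, hGe⟩ := expand F d hF (x 0)
  obtain ⟨C, hC, hwin⟩ := window d c G (by omega) hG
  obtain ⟨E, hE2, hEF⟩ : ∃ E : ℕ, 2 ≤ E ∧ ∀ i, (F i).totalDegree ≤ E :=
    ⟨max 2 (max (F 0).totalDegree (F 1).totalDegree), le_max_left _ _, fun i => by
      fin_cases i
      · exact (le_max_left _ _).trans (le_max_right _ _)
      · exact (le_max_right _ _).trans (le_max_right _ _)⟩
  obtain ⟨T₀, hT₀⟩ := params (2 * Module.finrank ℚ K + 2) E (by omega) hE2 C hC
  obtain ⟨γ, hγd⟩ : ∃ γ : ℝ,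
    γ = 1 / (16 * ((2 * Module.finrank ℚ K + 2 : ℕ) : ℝ) * Nat.clog 2 E) := ⟨_, rfl⟩
  have hclog : 0 < Nat.clog 2 E := Nat.clog_pos (by norm_num) hE2
  have hγ : 0 < γ := by
    rw [hγd]
    have h1 : (0 : ℝ) < Nat.clog 2 E := by exact_mod_cast hclog
    positivity
  have hS0 : 0 ≤ ∑ m ∈ Finset.range n₁, logHeight (yo F x m) :=
    Finset.sum_nonneg fun m _ => logHeight_nonneg _
  obtain ⟨T, hT1, hT2⟩ := ((MB_eventually B (∑ m ∈ Finset.range n₁, logHeight (yo F x m)) γ
    hγ).and (eventually_ge_atTop T₀)).exists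
  obtain ⟨s, Q, hs1, hsT, hcard, hdeg, hθ⟩ := hT₀ T hT2
  rw [← hγd] at hθ
  have hheight : ∀ n ≤ T - s + s, logHeight (yo F x n) ≤ (T : ℝ) ^ γ := by
    intro n hn
    have hn' : n ≤ T := by omega
    refine le_trans ?_ hT1
    have h0 : 0 ≤ |B| * Real.log ((T : ℝ) + 2) := mul_nonneg (abs_nonneg B) (Seq_pos' T).le
    rcases le_or_gt n₁ n with h1 | h1
    · have h2 := h n h1
      have h3 : B * Real.log ((n : ℝ) + 2) ≤ |B| * Real.log ((T : ℝ) + 2) := by
        refine mul_le_mul (le_abs_self B) ?_ (Seq_pos' n).le (abs_nonneg B)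
        refine Real.log_le_log (by positivity) ?_
        have : (n : ℝ) ≤ T := by exact_mod_cast hn'
        linarith
      linarith
    · have h2 : logHeight (yo F x n) ≤ ∑ m ∈ Finset.range n₁, logHeight (yo F x m) :=
        Finset.single_le_sum (f := fun m => logHeight (yo F x m))
          (fun m _ => logHeight_nonneg _) (Finset.mem_range.2 h1)
      linarith
  have hcast : ((T - s : ℕ) : ℝ) + s + 2 = T + 2 := by
    rw [Nat.cast_sub (by omega)]
    ring
  obtain ⟨ξ, hξ0, hξ⟩ := hwin (yo F x) hx (fun n i => by rw [yo_succ, hGe]) id (T - s) s Q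
    ((T : ℝ) ^ γ) (by positivity) hheight hs1 hcard (by rw [hcast]; exact hθ)
  obtain ⟨G', hG0, hGw, n₀, hn₀⟩ := endgame wY (skew F) x E (by omega)
    (fun P hP ⟨k, hk⟩ => ⟨fun h0 => hP (skew_inj F d (by omega) hF hF0 hcop P k hk h0),
      ⟨_, skew_hom F d hF P k hk⟩, totalDegree_skew F E (by omega) hEF P⟩)
    (fun A B hA0 hB0 hAB hA hB S hS => bezout_line A B hA hB hA0 hB0 hAB S
      (fun n => orb (skew F) x n) (fun n _ => hx n)
      (fun m _ n _ hmn => by
        have h1 : orb (skew F) x m 0 = orb (skew F) x n 0 := hmn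
        rw [orb_zero, orb_zero] at h1
        exact Nat.cast_injective (add_left_cancel h1))
      (fun n hn => (hS n hn).1) (fun n hn => (hS n hn).2))
    (E ^ s) (T - s) (MB_Phi F ξ) (MB_Phi_ne F d hd hF hcop ξ hξ0) ⟨_, MB_Phi_hom F d hF ξ⟩
    (MB_Phi_totalDegree F E hE2 hEF ξ)
    (fun n hn => by rw [MB_Phi_eval]; exact hξ n hn) hdeg
  exact not_eventually_line F x hdense G' hG0 hGw n₀ hn₀

theorem MB_ht_one (t : K) : ht (one t) = logHeight₁ t := by
  rw [logHeight₁_eq_logHeight, logHeight_swap]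
  unfold ht
  congr 1
  funext i
  refine Fin.cases ?_ (fun j => ?_) i
  · rfl
  · have hj : j = 0 := Subsingleton.elim _ _
    subst hj
    rfl

theorem MB_htLine (F : Fin 2 → MvPolynomial (Fin 3) K) (x : Fin 3 → K) (n : ℕ) :
    htLine (orb (skew F) x n) = ht (one (x 0 + n)) + logHeight (yo F x n) := by
  unfold htLine
  rw [MB_ht_one, orb_zero]
  rfl

/-- **All points**: the arithmetic degree is `d`, or the heights are at most logarithmic and the orbit
is not dense: `upperLine`, `lowerLine`, `seq_one`, `seq_upper`, `root_lim`, `slowLine`. -/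
theorem all_line (F : Fin 2 → MvPolynomial (Fin 3) K) (d : ℕ) (hd : 2 ≤ d)
    (hF : ∀ i, IsWeightedHomogeneous wY (F i) d) (hcop : IsRelPrime (F 0) (F 1)) (x : Fin 3 → K)
    (hx : ∀ n, yo F x n ≠ 0) :
    Tendsto (fun n : ℕ => (max (htLine (orb (skew F) x n)) 1) ^ ((1 : ℝ) / n)) atTop
        (𝓝 (d : ℝ)) ∨
      ((∃ B : ℝ, ∀ n : ℕ, htLine (orb (skew F) x n) ≤ B * Real.log ((n : ℝ) + 2)) ∧
        ¬ DenseLine F x) := by
  have hF0 := ne_zero_of_isRelPrime F d (by omega) hF hcop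
  obtain ⟨C₁, hC₁, hup⟩ := upperLine F d hF x
  obtain ⟨C₂, n₀, hC₂, hlow⟩ := lowerLine F d hF hF0 hcop x hx
  obtain ⟨C₃, hC₃, hadd⟩ := ht_add_nat (x 0)
  rcases seq_one d hd (fun n => logHeight (yo F x n)) C₂ hC₂ n₀ hlow with
    ⟨δ, hδ, n₁, hgr⟩ | ⟨B, n₁, hB, hlog⟩
  · left
    obtain ⟨B, hB, hB'⟩ := seq_upper d hd (fun n => logHeight (yo F x n)) C₁ hC₁ hup
    refine root_lim d hd (fun n => htLine (orb (skew F) x n)) δ (C₃ + B) hδ n₁
      (fun n hn => ?_) fun n => ?_
    · have h1 : δ * (d : ℝ) ^ n ≤ logHeight (yo F x n) := hgr n hn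
      have h2 := ht_nonneg (one (x 0 + n))
      rw [MB_htLine]
      linarith
    · have hlog : Real.log ((n : ℝ) + 2) ≤ (d : ℝ) ^ n := by
        have h3 : Real.log ((n : ℝ) + 2) ≤ (n : ℝ) + 2 - 1 :=
          Real.log_le_sub_one_of_pos (by positivity)
        have h4 : (n : ℝ) + 1 ≤ 2 ^ n := by
          exact_mod_cast Nat.succ_le_of_lt (Nat.lt_two_pow_self (n := n))
        have h5 : (2 : ℝ) ^ n ≤ (d : ℝ) ^ n := by
          apply pow_le_pow_left₀ (by norm_num)
          exact_mod_cast hd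
        linarith
      have h6 : C₃ * Real.log ((n : ℝ) + 2) ≤ C₃ * (d : ℝ) ^ n :=
        mul_le_mul_of_nonneg_left hlog hC₃
      have h7 := hadd n
      have h8 : logHeight (yo F x n) ≤ B * (d : ℝ) ^ n := hB' n
      rw [MB_htLine, add_mul]
      linarith
  · right
    refine ⟨?_, slowLine F d hd hF hcop x hx B hB n₁ hlog⟩
    obtain ⟨S, hS⟩ : ∃ S, S = ∑ m ∈ Finset.range n₁, logHeight (yo F x m) := ⟨_, rfl⟩
    have hS0 : 0 ≤ S := by
      rw [hS]
      exact Finset.sum_nonneg fun m _ => logHeight_nonneg _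
    have hl2 : 0 < Real.log 2 := Real.log_pos (by norm_num)
    refine ⟨C₃ + B + S / Real.log 2, fun n => ?_⟩
    have hlog1 := Seq_pos n
    have hlog0 := (Seq_pos' n).le
    have hS3 : S ≤ S / Real.log 2 * Real.log ((n : ℝ) + 2) := by
      calc S = S / Real.log 2 * Real.log 2 := by field_simp
        _ ≤ S / Real.log 2 * Real.log ((n : ℝ) + 2) :=
          mul_le_mul_of_nonneg_left hlog1 (by positivity)
    have h1 := hadd n
    have hB2 : 0 ≤ B * Real.log ((n : ℝ) + 2) := mul_nonneg hB hlog0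
    have hS4 : 0 ≤ S / Real.log 2 * Real.log ((n : ℝ) + 2) := by positivity
    rw [MB_htLine, add_mul, add_mul]
    rcases le_or_gt n₁ n with hn | hn
    · have h3 : logHeight (yo F x n) ≤ B * Real.log ((n : ℝ) + 2) := hlog n hn
      linarith
    · have h2 : logHeight (yo F x n) ≤ S := by
        rw [hS]
        exact Finset.single_le_sum (f := fun m => logHeight (yo F x m))
          (fun m _ => logHeight_nonneg _) (Finset.mem_range.2 hn)
      linarith

end Pool.Agent.H.MP_31a675_nt.G
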