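import Pool.Agent.H.MP_31a675_nt.G.Syl

/-!
# Pairs without common zeros over the generic fibre
-/

namespace Pool.Agent.H.MP_31a675_nt.G

open MvPolynomial

variable {K : Type*} [Field K]

/-- The ideal `(A, B)` contains `c (t) y_j ^ N` for `j = 0, 1`, with `c ≠ 0`. -/
def PP (A B : MvPolynomial (Fin 3) K) : Prop :=
  ∃ (c : Polynomial K) (N : ℕ), c ≠ 0 ∧
    ∀ j : Fin 2, Polynomial.aeval (X 0) c * X j.succ ^ N ∈ Ideal.span {A, B}

/-- From `syl` for `j = 0, 1`: multiply the two polynomials `c`. -/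
theorem pp_of_isRelPrime (A B : MvPolynomial (Fin 3) K) (hA : ∃ k, IsWeightedHomogeneous wY A k)
    (hB : ∃ k, IsWeightedHomogeneous wY B k) (hA0 : A ≠ 0) (hB0 : B ≠ 0)
    (h : IsRelPrime A B) : PP A B := by
  obtain ⟨a, hA⟩ := hA
  obtain ⟨b, hB⟩ := hB
  obtain ⟨c0, P0, Q0, hc0, -, -, -, h0⟩ := syl A B a b hA hB hA0 hB0 h 0
  obtain ⟨c1, P1, Q1, hc1, -, -, -, h1⟩ := syl A B a b hA hB hA0 hB0 h 1
  refine ⟨c0 * c1, a + b, mul_ne_zero hc0 hc1, fun j => ?_⟩
  rw [Ideal.mem_span_pair]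
  fin_cases j
  · refine ⟨Polynomial.aeval (X 0) c1 * P0, Polynomial.aeval (X 0) c1 * Q0, ?_⟩
    show _ = Polynomial.aeval (X 0) (c0 * c1) * X (Fin.succ 0) ^ (a + b)
    rw [map_mul]
    linear_combination (-Polynomial.aeval (X 0 : MvPolynomial (Fin 3) K) c1) * h0
  · refine ⟨Polynomial.aeval (X 0) c0 * P1, Polynomial.aeval (X 0) c0 * Q1, ?_⟩
    show _ = Polynomial.aeval (X 0) (c0 * c1) * X (Fin.succ 1) ^ (a + b)
    rw [map_mul]
    linear_combination (-Polynomial.aeval (X 0 : MvPolynomial (Fin 3) K) c0) * h1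

theorem pp_pow_mem {R : Type*} [CommRing R] (a b r s : R) (N : ℕ) :
    (r * a + s * b) ^ (2 * N) ∈ Ideal.span {a ^ N, b ^ N} := by
  refine Ideal.add_pow_mem_of_pow_mem_of_le (m := N) (n := N) _ ?_ ?_ (by omega)
  · rw [mul_pow]
    exact Ideal.mul_mem_left _ _ (Ideal.subset_span (by simp))
  · rw [mul_pow]
    exact Ideal.mul_mem_left _ _ (Ideal.subset_span (by simp))

/-- Composition with the skew product. Apply `aeval (skew F)` to the relation for `A`, `B`: the ideal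
of the images contains `c (t + 1) (F j) ^ N`, hence `c (t + 1)` times the power `2 N` of every element
of the ideal `(F 0, F 1)`. -/
theorem pp_comp (F : Fin 2 → MvPolynomial (Fin 3) K) (hF : PP (F 0) (F 1))
    (A B : MvPolynomial (Fin 3) K) (h : PP A B) :
    PP (aeval (skew F) A) (aeval (skew F) B) := by
  obtain ⟨c, N, hc, hN⟩ := hF
  obtain ⟨c', N', hc', hN'⟩ := h
  have hsucc : ∀ j : Fin 2, skew F j.succ = F j := fun j => by
    unfold skew
    rw [Fin.cons_succ]
  have hc2 : ∀ p : Polynomial K, aeval (skew F) (Polynomial.aeval (X 0 : MvPolynomial (Fin 3) K) p) =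
      Polynomial.aeval (X 0) (p.comp (Polynomial.X + Polynomial.C 1)) := by
    intro p
    rw [← Polynomial.aeval_algHom_apply, aeval_X, Polynomial.aeval_comp, map_add,
      Polynomial.aeval_X, Polynomial.aeval_C, map_one]
    congr 1
  have key : ∀ j : Fin 2, Polynomial.aeval (X 0) (c'.comp (Polynomial.X + Polynomial.C 1)) *
      F j ^ N' ∈ Ideal.span {aeval (skew F) A, aeval (skew F) B} := by
    intro j
    obtain ⟨r, s, hrs⟩ := Ideal.mem_span_pair.1 (hN' j)
    have h1 := congrArg (aeval (skew F)) hrs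
    rw [map_add, map_mul, map_mul, map_mul, map_pow, aeval_X, hsucc, hc2] at h1
    exact Ideal.mem_span_pair.2 ⟨_, _, h1⟩
  refine ⟨c'.comp (Polynomial.X + Polynomial.C 1) * c ^ (2 * N'), N * (2 * N'),
    mul_ne_zero ?_ (pow_ne_zero _ hc), fun j => ?_⟩
  · exact (Polynomial.comp_X_add_C_ne_zero_iff).2 hc'
  · obtain ⟨r, s, hrs⟩ := Ideal.mem_span_pair.1 (hN j)
    obtain ⟨u, v, huv⟩ := Ideal.mem_span_pair.1 (pp_pow_mem (F 0) (F 1) r s N')
    have h1 : Polynomial.aeval (X 0 : MvPolynomial (Fin 3) K)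
        (c'.comp (Polynomial.X + Polynomial.C 1) * c ^ (2 * N')) * X j.succ ^ (N * (2 * N')) =
        u * (Polynomial.aeval (X 0) (c'.comp (Polynomial.X + Polynomial.C 1)) * F 0 ^ N') +
        v * (Polynomial.aeval (X 0) (c'.comp (Polynomial.X + Polynomial.C 1)) * F 1 ^ N') := by
      rw [map_mul, map_pow, pow_mul]
      have h2 : (Polynomial.aeval (X 0 : MvPolynomial (Fin 3) K) c) ^ (2 * N') *
          (X j.succ ^ N) ^ (2 * N') = u * F 0 ^ N' + v * F 1 ^ N' := by
        rw [huv, hrs, mul_pow]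
      linear_combination Polynomial.aeval (X 0 : MvPolynomial (Fin 3) K)
        (c'.comp (Polynomial.X + Polynomial.C 1)) * h2
    rw [h1]
    exact Ideal.add_mem _ (Ideal.mul_mem_left _ _ (key 0)) (Ideal.mul_mem_left _ _ (key 1))

theorem pp_degreeOf_aeval (c : Polynomial K) (i : Fin 3) (hi : i ≠ 0) :
    (Polynomial.aeval (X 0 : MvPolynomial (Fin 3) K) c).degreeOf i = 0 := by
  rw [Polynomial.aeval_eq_sum_range]
  refine Nat.eq_zero_of_le_zero ?_
  refine (degreeOf_sum_le i _ _).trans ?_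
  refine Finset.sup_le fun n _ => ?_
  rw [smul_eq_C_mul]
  refine (degreeOf_C_mul_le _ _ _).trans ?_
  refine (degreeOf_pow_le _ _ _).trans ?_
  have h1 : (X 0 : MvPolynomial (Fin 3) K).degreeOf i = 0 := by
    rw [degreeOf_X, if_neg hi]
  rw [h1]
  simp

theorem pp_ne_zero (c : Polynomial K) (hc : c ≠ 0) :
    Polynomial.aeval (X 0 : MvPolynomial (Fin 3) K) c ≠ 0 := by
  intro h
  apply hc
  have h1 := congrArg (aeval (fun _ => (Polynomial.X : Polynomial K))) h
  rw [← Polynomial.aeval_algHom_apply, aeval_X, map_zero, Polynomial.aeval_X_left_apply] at h1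
  exact h1

theorem pp_degreeOf_dvd (c : Polynomial K) (hc : c ≠ 0) (N : ℕ) (j i : Fin 3) (hi : i ≠ 0)
    (hij : i ≠ j) (U : MvPolynomial (Fin 3) K)
    (h : U ∣ Polynomial.aeval (X 0) c * X j ^ N) : U.degreeOf i = 0 := by
  obtain ⟨V, hV⟩ := h
  have hne : Polynomial.aeval (X 0 : MvPolynomial (Fin 3) K) c * X j ^ N ≠ 0 :=
    mul_ne_zero (pp_ne_zero c hc) (pow_ne_zero _ (X_ne_zero _))
  have hU : U ≠ 0 := by
    rintro rfl
    exact hne (by rw [hV, zero_mul])
  have hV0 : V ≠ 0 := by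
    rintro rfl
    exact hne (by rw [hV, mul_zero])
  have h1 : (Polynomial.aeval (X 0 : MvPolynomial (Fin 3) K) c * X j ^ N).degreeOf i = 0 := by
    refine Nat.eq_zero_of_le_zero ((degreeOf_mul_le _ _ _).trans ?_)
    rw [pp_degreeOf_aeval c i hi, zero_add]
    refine (degreeOf_pow_le _ _ _).trans ?_
    have h2 : (X j : MvPolynomial (Fin 3) K).degreeOf i = 0 := by
      rw [degreeOf_X, if_neg hij]
    rw [h2]
    simp
  rw [hV, degreeOf_mul_eq hU hV0] at h1
  omega

/-- A common factor has degree zero in `(y_0, y_1)`: it divides `c (t) y_j ^ N` for `j = 0, 1`, so its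
degrees in `y_1` and in `y_0` are zero (`degreeOf_mul_eq`). -/
theorem pp_factor (A B U : MvPolynomial (Fin 3) K) (h : PP A B) (hA : U ∣ A) (hB : U ∣ B) (k : ℕ)
    (hU : IsWeightedHomogeneous wY U k) : k = 0 := by
  obtain ⟨c, N, hc, hN⟩ := h
  have hd : ∀ j : Fin 2, U ∣ Polynomial.aeval (X 0) c * X j.succ ^ N := by
    intro j
    obtain ⟨r, s, hrs⟩ := Ideal.mem_span_pair.1 (hN j)
    rw [← hrs]
    exact dvd_add (Dvd.dvd.mul_left hA r) (Dvd.dvd.mul_left hB s)
  have h2 : U.degreeOf 2 = 0 :=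
    pp_degreeOf_dvd c hc N 1 2 (by decide) (by decide) U (hd 0)
  have h1 : U.degreeOf 1 = 0 :=
    pp_degreeOf_dvd c hc N 2 1 (by decide) (by decide) U (hd 1)
  have hU0 : U ≠ 0 := by
    rintro rfl
    have h3 := zero_dvd_iff.1 (hd 0)
    exact mul_ne_zero (pp_ne_zero c hc) (pow_ne_zero _ (X_ne_zero _)) h3
  obtain ⟨m, hm⟩ := support_nonempty.2 hU0
  have h3 := hU (mem_support_iff.1 hm)
  have h4 := monomial_le_degreeOf 1 hm
  have h5 := monomial_le_degreeOf 2 hm
  rw [h1] at h4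
  rw [h2] at h5
  rw [← h3]
  rw [Finsupp.weight_apply, Finsupp.sum_fintype _ _ (by simp)]
  simp only [wY, Fin.sum_univ_three]
  simp
  omega

end Pool.Agent.H.MP_31a675_nt.G
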