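import Pool.Agent.H.MP_31a675_nt.G.Defs
import Pool.Agent.H.MP_31a675_nt.G.Hfac
import Pool.Agent.H.MP_31a675_nt.G.Codim

/-!
# Relatively prime polynomials which are homogeneous in two of the three variables
-/

namespace Pool.Agent.H.MP_31a675_nt.G

open MvPolynomial

variable {K : Type*} [Field K]

theorem syl_weight (d : Fin 3 →₀ ℕ) : Finsupp.weight wY d = d 1 + d 2 := by
  rw [Finsupp.weight_apply, Finsupp.sum_fintype _ _ (by simp)]
  simp [Fin.sum_univ_three, wY]

theorem syl_mem (s : Finset (Fin 3 →₀ ℕ)) (e k : ℕ) (hs : ∀ m, m ∈ s ↔ m 0 ≤ e ∧ m 1 + m 2 = k)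
    (P : MvPolynomial (Fin 3) K) :
    P ∈ VS K s ↔ IsWeightedHomogeneous wY P k ∧ P.degreeOf 0 ≤ e := by
  rw [mem_VS, degreeOf_le_iff]
  constructor
  · intro h
    refine ⟨fun d hd => ?_, fun m hm => ((hs m).1 (h hm)).1⟩
    rw [syl_weight]
    exact ((hs d).1 (h (mem_support_iff.2 hd))).2
  · rintro ⟨h1, h2⟩ m hm
    refine (hs m).2 ⟨h2 m hm, ?_⟩
    rw [← syl_weight]
    exact h1 (mem_support_iff.1 hm)

/-- the map from polynomials in `t` -/
noncomputable def sylF (K : Type*) [Field K] (j : Fin 2) (n : ℕ) :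
    Polynomial K →ₗ[K] MvPolynomial (Fin 3) K where
  toFun c := Polynomial.aeval (X 0) c * X j.succ ^ n
  map_add' c d := by rw [map_add, add_mul]
  map_smul' r c := by rw [map_smul, smul_mul_assoc]; rfl

theorem sylF_apply (j : Fin 2) (n : ℕ) (c : Polynomial K) :
    sylF K j n c = Polynomial.aeval (X 0) c * X j.succ ^ n := rfl

theorem syl_aeval_inj (c : Polynomial K)
    (h : Polynomial.aeval (X 0 : MvPolynomial (Fin 3) K) c = 0) : c = 0 := by
  have h1 : aeval (fun _ => (Polynomial.X : Polynomial K))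
      (Polynomial.aeval (X 0 : MvPolynomial (Fin 3) K) c) = c := by
    rw [← Polynomial.aeval_algHom_apply]
    simp
  rw [h, map_zero] at h1
  exact h1.symm

theorem sylF_inj (j : Fin 2) (n : ℕ) : Function.Injective (sylF K j n) := by
  rw [injective_iff_map_eq_zero]
  intro c hc
  rw [sylF_apply] at hc
  rcases mul_eq_zero.1 hc with h | h
  · exact syl_aeval_inj c h
  · exact absurd h (pow_ne_zero _ (X_ne_zero _))

theorem syl_hom_aeval (c : Polynomial K) :
    IsWeightedHomogeneous wY (Polynomial.aeval (X 0 : MvPolynomial (Fin 3) K) c) 0 := by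
  rw [Polynomial.aeval_eq_sum_range]
  apply IsWeightedHomogeneous.sum
  intro i _
  rw [smul_eq_C_mul]
  apply IsWeightedHomogeneous.C_mul
  have h := (isWeightedHomogeneous_X K wY 0).pow i
  simpa [wY] using h

theorem syl_deg_aeval (c : Polynomial K) :
    (Polynomial.aeval (X 0 : MvPolynomial (Fin 3) K) c).degreeOf 0 ≤ c.natDegree := by
  rw [Polynomial.aeval_eq_sum_range]
  refine (degreeOf_sum_le _ _ _).trans ?_
  apply Finset.sup_le
  intro i hi
  rw [smul_eq_C_mul]
  refine (degreeOf_mul_le _ _ _).trans ?_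
  rw [degreeOf_C, zero_add]
  refine (degreeOf_pow_le _ _ _).trans ?_
  rw [degreeOf_X, if_pos rfl, mul_one]
  exact Nat.lt_succ_iff.1 (Finset.mem_range.1 hi)

theorem syl_hom_F (j : Fin 2) (n : ℕ) (c : Polynomial K) :
    IsWeightedHomogeneous wY (sylF K j n c) n := by
  rw [sylF_apply]
  have h := (syl_hom_aeval c).mul ((isWeightedHomogeneous_X K wY j.succ).pow n)
  have h1 : wY j.succ = 1 := by fin_cases j <;> rfl
  rw [h1, smul_eq_mul, mul_one, zero_add] at h
  exact h

theorem syl_deg_F (j : Fin 2) (n : ℕ) (c : Polynomial K) :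
    (sylF K j n c).degreeOf 0 ≤ c.natDegree := by
  rw [sylF_apply]
  refine (degreeOf_mul_le _ _ _).trans ?_
  have h2 : (X j.succ ^ n : MvPolynomial (Fin 3) K).degreeOf 0 = 0 := by
    have h3 := degreeOf_pow_le (0 : Fin 3) (X j.succ : MvPolynomial (Fin 3) K) n
    rw [degreeOf_X, if_neg (Fin.succ_ne_zero j).symm, mul_zero] at h3
    exact Nat.le_zero.1 h3
  rw [h2, add_zero]
  exact syl_deg_aeval c

/-- The resultant identity: for relatively prime `A`, `B`, homogeneous of degrees `a`, `b` in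
`(y_0, y_1)`, the ideal `(A, B)` contains `c (t) y_j ^ (a + b)` with `c ≠ 0` of small degree. Use
`codim` with `V₁`, `V₂`, `V`, `V₁₂` the polynomials homogeneous of degree `b`, `a`, `a + b`, `0` in
`(y_0, y_1)` and of degree at most `e - α`, `e - β`, `e`, `e - α - β` in `t`, for large `e`, where `α`,
`β` are the degrees of `A`, `B` in `t`, and `W` the span of the `t ^ i y_j ^ (a + b)`,
`i ≤ α b + β a`: by dimensions `W` meets the ideal. -/
theorem syl (A B : MvPolynomial (Fin 3) K) (a b : ℕ) (hA : IsWeightedHomogeneous wY A a)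
    (hB : IsWeightedHomogeneous wY B b) (hA0 : A ≠ 0) (hB0 : B ≠ 0) (h : IsRelPrime A B)
    (j : Fin 2) :
    ∃ (c : Polynomial K) (P Q : MvPolynomial (Fin 3) K), c ≠ 0 ∧
      c.natDegree ≤ A.degreeOf 0 * b + B.degreeOf 0 * a ∧
      IsWeightedHomogeneous wY P b ∧ IsWeightedHomogeneous wY Q a ∧
      Polynomial.aeval (X 0) c * X j.succ ^ (a + b) = P * A + Q * B := by
  set α := A.degreeOf 0 with hα
  set β := B.degreeOf 0 with hβ
  set D := α * b + β * a with hD
  obtain ⟨s1, hs1, hc1⟩ := exists_bihom_finset (D + β) b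
  obtain ⟨s2, hs2, hc2⟩ := exists_bihom_finset (D + α) a
  obtain ⟨s, hs, hc⟩ := exists_bihom_finset (D + α + β) (a + b)
  obtain ⟨s12, hs12, hc12⟩ := exists_bihom_finset D 0
  set W : Submodule K (MvPolynomial (Fin 3) K) :=
    (Polynomial.degreeLT K (D + 1)).map (sylF K j (a + b)) with hWdef
  have hWdim : Module.finrank K W = D + 1 := by
    rw [hWdef, ← (Submodule.equivMapOfInjective (sylF K j (a + b)) (sylF_inj j (a + b))
      (Polynomial.degreeLT K (D + 1))).finrank_eq, (Polynomial.degreeLTEquiv K (D + 1)).finrank_eq]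
    simp
  by_contra hcon
  push Not at hcon
  have hVA : ∀ P ∈ VS K s1, P * A ∈ VS K s := by
    intro P hP
    rw [syl_mem s1 _ _ hs1] at hP
    rw [syl_mem s _ _ hs]
    refine ⟨?_, ?_⟩
    · have h1 := hP.1.mul hA
      rwa [add_comm b a] at h1
    · have h2 := degreeOf_mul_le 0 P A
      have h3 := hP.2
      omega
  have hVB : ∀ Q ∈ VS K s2, Q * B ∈ VS K s := by
    intro Q hQ
    rw [syl_mem s2 _ _ hs2] at hQ
    rw [syl_mem s _ _ hs]
    refine ⟨hQ.1.mul hB, ?_⟩
    have h2 := degreeOf_mul_le 0 Q B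
    have h3 := hQ.2
    omega
  have hcdeg : ∀ c ∈ Polynomial.degreeLT K (D + 1), c.natDegree ≤ D := by
    intro c hc'
    rw [Polynomial.mem_degreeLT] at hc'
    by_cases h0 : c = 0
    · simp [h0]
    · rw [Polynomial.degree_eq_natDegree h0] at hc'
      have : c.natDegree < D + 1 := by exact_mod_cast hc'
      omega
  have hWV : W ≤ VS K s := by
    rintro _ ⟨c, hc', rfl⟩
    rw [syl_mem s _ _ hs]
    refine ⟨syl_hom_F j (a + b) c, ?_⟩
    have h1 := syl_deg_F j (a + b) c
    have h2 := hcdeg c hc'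
    omega
  have hker : ∀ P ∈ VS K s1, ∀ Q ∈ VS K s2, P * A + Q * B = 0 →
      ∃ C ∈ VS K s12, P = C * B ∧ Q = -(C * A) := by
    intro P hP Q hQ hPQ
    rw [syl_mem s1 _ _ hs1] at hP
    have hdvd : B ∣ P := by
      have h1 : B ∣ P * A := by
        refine ⟨-Q, ?_⟩
        linear_combination hPQ
      exact h.symm.dvd_of_dvd_mul_right h1
    obtain ⟨C, hC⟩ := hdvd
    refine ⟨C, ?_, by rw [hC, mul_comm], ?_⟩
    · rw [syl_mem s12 _ _ hs12]
      by_cases hC0 : C = 0
      · rw [hC0]
        exact ⟨isWeightedHomogeneous_zero K wY 0, by simp⟩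
      · have hBC : B * C ≠ 0 := mul_ne_zero hB0 hC0
        have h2 := hP.1
        rw [hC] at h2
        obtain ⟨u, v, huv, hu, hv⟩ := hom_factor wY B C b hBC h2
        have hub : u = b := IsWeightedHomogeneous.inj_right hB0 hu hB
        have hv0 : v = 0 := by omega
        rw [hv0] at hv
        refine ⟨hv, ?_⟩
        have h3 := hP.2
        rw [hC, degreeOf_mul_eq hB0 hC0] at h3
        omega
    · have h4 : B * (Q + C * A) = 0 := by
        rw [hC] at hPQ
        linear_combination hPQ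
      rcases mul_eq_zero.1 h4 with h5 | h5
      · exact absurd h5 hB0
      · linear_combination h5
  have hdis : ∀ P ∈ VS K s1, ∀ Q ∈ VS K s2, P * A + Q * B ∈ W → P * A + Q * B = 0 := by
    intro P hP Q hQ hPQ
    rw [syl_mem s1 _ _ hs1] at hP
    rw [syl_mem s2 _ _ hs2] at hQ
    obtain ⟨c, hc', hce⟩ := hPQ
    by_cases hc0 : c = 0
    · rw [← hce, hc0, map_zero]
    · exact absurd (by rw [← sylF_apply, hce]) (hcon c P Q hc0 (hcdeg c hc') hP.1 hQ.1)
  have key := codim A B (VS K s1) (VS K s2) (VS K s) (VS K s12) W hVA hVB hWV hker hdis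
  rw [hWdim, finrank_VS, finrank_VS, finrank_VS, finrank_VS, hc1, hc2, hc, hc12] at key
  have e1 : (D + β + 1) * (b + 1) + (D + α + 1) * (a + 1) + D =
      (D + α + β + 1) * (a + b + 1) + (D + 1) * (0 + 1) := by
    rw [hD]
    ring
  omega

/-- The number of common zeros with different `t`: they are zeros of the `c` of `syl` for `j = 0` or of that for
`j = 1`. -/
theorem bezout_line {ι : Type*} (A B : MvPolynomial (Fin 3) K)
    (hA : ∃ k, IsWeightedHomogeneous wY A k) (hB : ∃ k, IsWeightedHomogeneous wY B k)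
    (hA0 : A ≠ 0) (hB0 : B ≠ 0) (h : IsRelPrime A B) (S : Finset ι) (x : ι → Fin 3 → K)
    (h0 : ∀ i ∈ S, Fin.tail (x i) ≠ 0) (hx : Set.InjOn (fun i => x i 0) (S : Set ι))
    (hAx : ∀ i ∈ S, eval (x i) A = 0) (hBx : ∀ i ∈ S, eval (x i) B = 0) :
    S.card ≤ 4 * (A.totalDegree * B.totalDegree) := by
  classical
  obtain ⟨a, ha⟩ := hA
  obtain ⟨b, hb⟩ := hB
  have hle : ∀ (P : MvPolynomial (Fin 3) K) (k : ℕ), P ≠ 0 → IsWeightedHomogeneous wY P k →
      k ≤ P.totalDegree := by
    intro P k hP hk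
    obtain ⟨m, hm⟩ := support_nonempty.2 hP
    have h1 := hk (mem_support_iff.1 hm)
    rw [syl_weight] at h1
    have h2 := le_totalDegree hm
    rw [Finsupp.sum_fintype _ _ (by simp), Fin.sum_univ_three] at h2
    omega
  choose c P Q hc0 hcd hP hQ hPQ using fun j => syl A B a b ha hb hA0 hB0 h j
  have hroot : ∀ i ∈ S, x i 0 ∈ (c 0).roots.toFinset ∪ (c 1).roots.toFinset := by
    intro i hi
    have hj : ∃ j : Fin 2, x i j.succ ≠ 0 := by
      by_contra hcon
      push Not at hcon
      exact h0 i hi (funext hcon)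
    obtain ⟨j, hj⟩ := hj
    have h1 := congrArg (eval (x i)) (hPQ j)
    rw [map_add, map_mul, map_mul, map_mul, hAx i hi, hBx i hi, mul_zero, mul_zero, add_zero,
      map_pow, eval_X] at h1
    have h2 : eval (x i) (Polynomial.aeval (X 0) (c j)) = (c j).eval (x i 0) := by
      have h3 : eval (x i) (Polynomial.aeval (X 0) (c j)) =
          Polynomial.aeval ((aeval (x i) : MvPolynomial (Fin 3) K →ₐ[K] K) (X 0)) (c j) := by
        rw [Polynomial.aeval_algHom_apply]
        rfl
      rw [h3, aeval_X, Polynomial.coe_aeval_eq_eval]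
    rw [h2] at h1
    have h4 : (c j).eval (x i 0) = 0 := by
      rcases mul_eq_zero.1 h1 with h5 | h5
      · exact h5
      · exact absurd h5 (pow_ne_zero _ hj)
    have h6 : x i 0 ∈ (c j).roots.toFinset := by
      rw [Multiset.mem_toFinset, Polynomial.mem_roots (hc0 j)]
      exact h4
    rw [Finset.mem_union]
    fin_cases j
    · exact Or.inl h6
    · exact Or.inr h6
  have hcard : S.card ≤ ((c 0).roots.toFinset ∪ (c 1).roots.toFinset).card :=
    Finset.card_le_card_of_injOn (fun i => x i 0) hroot hx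
  have hr : ∀ j, (c j).roots.toFinset.card ≤ A.degreeOf 0 * b + B.degreeOf 0 * a := fun j =>
    ((Multiset.toFinset_card_le _).trans (Polynomial.card_roots' _)).trans (hcd j)
  have h7 : A.degreeOf 0 * b ≤ A.totalDegree * B.totalDegree :=
    Nat.mul_le_mul (degreeOf_le_totalDegree A 0) (hle B b hB0 hb)
  have h8 : B.degreeOf 0 * a ≤ A.totalDegree * B.totalDegree := by
    rw [mul_comm A.totalDegree]
    exact Nat.mul_le_mul (degreeOf_le_totalDegree B 0) (hle A a hA0 ha)
  have h9 := hr 0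
  have h10 := hr 1
  have h11 := Finset.card_union_le (c 0).roots.toFinset (c 1).roots.toFinset
  omega

end Pool.Agent.H.MP_31a675_nt.G
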